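import Pool.Agent.Y743.LR.Core

/-! # The core argument for arbitrary displacements

Adapted from the starting file `Pool/Agent/Y743/LR/CoreX.lean`: the hypothesis on the number variance
is weakened to a law of large numbers and an unbounded lower bound. -/

set_option autoImplicit false

open Filter Topology MeasureTheory Set

namespace Pool.Agent.Helper65.LR

open Pool.Agent.Y743.LR (dif dn INull step_meas step_set step_int cheb sum_dif run hh aux2 aux3
  dn_mono dn_union dn_biUnion)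

/-- the local size -/
noncomputable def Lam (x y : ℕ → ℝ) (n : ℕ) : ℝ := |dif y n| + |x n|

lemma Lam_nonneg (x y : ℕ → ℝ) (n : ℕ) : 0 ≤ Lam x y n := by
  unfold Lam; positivity

/-- the displaced sequence -/
def gg (x y : ℕ → ℝ) : ℕ → ℝ := fun n => y n - x n

/-- the pointwise estimate -/
lemma point (w y : ℕ → ℝ) {n c H : ℕ} {x a δ : ℝ} (hc : c ≤ H) (hδ : 0 ≤ δ)
    (hr : ∀ j < H, |dif (dif (gg w y)) (n + j)| ≤ δ)
    (h1 : y n ≤ x) (h2 : x < y (n + 1)) (h3 : y (n + c) ≤ x + a) (h4 : x + a < y (n + c + 1)) :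
    |c * dif (gg w y) n - a| ≤ Lam w y n + Lam w y (n + c) + c * (H * δ) := by
  have e1 := sum_dif (gg w y) n c
  have e2 := run hδ hr
  have e3 : |(∑ j ∈ Finset.range c, dif (gg w y) (n + j)) - c * dif (gg w y) n| ≤
      c * (H * δ) := by
    have e4 : (∑ j ∈ Finset.range c, dif (gg w y) (n + j)) - c * dif (gg w y) n =
        ∑ j ∈ Finset.range c, (dif (gg w y) (n + j) - dif (gg w y) n) := by
      rw [Finset.sum_sub_distrib, Finset.sum_const, Finset.card_range, nsmul_eq_mul]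
    rw [e4]
    refine (Finset.abs_sum_le_sum_abs _ _).trans ?_
    calc ∑ j ∈ Finset.range c, |dif (gg w y) (n + j) - dif (gg w y) n| ≤
        ∑ j ∈ Finset.range c, (H * δ) := Finset.sum_le_sum fun j hj =>
          e2 j ((Finset.mem_range.mp hj).le.trans hc)
      _ = c * (H * δ) := by rw [Finset.sum_const, Finset.card_range, nsmul_eq_mul]
  rw [e1] at e3
  unfold gg at e3 ⊢
  have g1 : dif y n = y (n + 1) - y n := rfl
  have g2 : dif y (n + c) = y (n + c + 1) - y (n + c) := rfl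
  have f1 := le_abs_self (dif y n)
  have f2 := le_abs_self (dif y (n + c))
  have f3 := abs_le.mp (le_refl |w n|)
  have f4 := abs_le.mp (le_refl |w (n + c)|)
  obtain ⟨f5, f6⟩ := abs_le.mp e3
  unfold Lam
  rw [abs_le]
  constructor <;> linarith [f3.1, f3.2, f4.1, f4.2, abs_nonneg (dif y n), abs_nonneg (dif y (n + c))]

/-- the hypotheses of the core argument -/
structure Data (T : ℕ → ℝ) (ν : ℝ → ℕ) (y x : ℕ → ℕ → ℝ) : Prop where
  hT10 : ∀ i, 10 ≤ T i
  hTt : Tendsto T atTop atTop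
  hν : Monotone ν
  sand : ∀ i t, T i ≤ t → t ≤ 3 * T i →
    y i (ν t) ≤ t * (Real.log (T i) / (2 * Real.pi)) ∧
      t * (Real.log (T i) / (2 * Real.pi)) < y i (ν t + 1)
  mom : ∃ C : ℝ, 0 < C ∧ ∀ a : ℝ, 0 ≤ a → ∀ᶠ i in atTop,
    ∫ t in Icc (T i) (2 * T i), Lam (x i) (y i) (ν (t + hh T i a)) ^ 2 ≤ C * T i
  lln : ∀ ε : ℝ, 0 < ε → ∀ᶠ a : ℝ in atTop, ∀ᶠ i in atTop,
    ∫ t in Icc (T i) (2 * T i), |(ν (t + hh T i a) : ℝ) - ν t - a| ≤ ε * a * T i
  var : ∀ K : ℝ, ∃ a : ℝ, 1 ≤ a ∧ ∀ᶠ i in atTop,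
    K * T i ≤ ∫ t in Icc (T i) (2 * T i), ((ν (t + hh T i a) : ℝ) - ν t - a) ^ 2
  cube : ∀ a : ℝ, 1 ≤ a → ∃ C : ℝ, 0 < C ∧ ∀ᶠ i in atTop,
    ∫ t in Icc (T i) (2 * T i), |(ν (t + hh T i a) : ℝ) - ν t - a| ^ 3 ≤ C * T i

variable {T : ℕ → ℝ} {ν : ℝ → ℕ} {y x : ℕ → ℕ → ℝ}

lemma hh_nonneg (hT : ∀ i, 10 ≤ T i) (i : ℕ) {a : ℝ} (ha : 0 ≤ a) : 0 ≤ hh T i a := by
  unfold hh
  have : 0 < Real.log (T i) := Real.log_pos (by linarith [hT i])
  have := Real.pi_pos
  positivity

lemma hh_small (D : Data T ν y x) {a : ℝ} (ha : 0 ≤ a) : ∀ᶠ i in atTop, hh T i a ≤ T i := by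
  have h1 : ∀ᶠ i in atTop, 2 * Real.pi * a ≤ T i := D.hTt.eventually_ge_atTop _
  have h2 : ∀ᶠ i in atTop, 1 ≤ Real.log (T i) :=
    (Real.tendsto_log_atTop.comp D.hTt).eventually_ge_atTop _
  filter_upwards [h1, h2] with i h1 h2
  unfold hh
  rw [div_le_iff₀ (by linarith)]
  have := D.hT10 i
  nlinarith

/-- the count and the local slope -/
lemma point' (D : Data T ν y x)
    {i : ℕ} {a t δ : ℝ} (ha : 0 ≤ a)
    (hs : hh T i a ≤ T i) (ht1 : T i ≤ t) (ht2 : t ≤ 2 * T i) {H : ℕ} (hδ : 0 ≤ δ)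
    (hc : (ν (t + hh T i a) : ℝ) - ν t ≤ H)
    (hr : ∀ j < H, |dif (dif (gg (x i) (y i))) (ν t + j)| ≤ δ) :
    |((ν (t + hh T i a) : ℝ) - ν t) * dif (gg (x i) (y i)) (ν t) - a| ≤
      Lam (x i) (y i) (ν t) + Lam (x i) (y i) (ν (t + hh T i a)) + H * (H * δ) := by
  have hpi := Real.pi_pos
  have hL : 0 < Real.log (T i) := Real.log_pos (by linarith [D.hT10 i])
  have hh0 := hh_nonneg D.hT10 i ha
  have hmono : ν t ≤ ν (t + hh T i a) := D.hν (by linarith)
  obtain ⟨c, hc'⟩ := Nat.exists_eq_add_of_le hmono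
  have hcc : (ν (t + hh T i a) : ℝ) - ν t = c := by rw [hc']; push_cast; ring
  rw [hcc] at hc ⊢
  have hcH : c ≤ H := by exact_mod_cast hc
  obtain ⟨s1, s2⟩ := D.sand i t ht1 (by linarith)
  obtain ⟨s3, s4⟩ := D.sand i (t + hh T i a) (by linarith) (by linarith)
  have e1 : (t + hh T i a) * (Real.log (T i) / (2 * Real.pi)) =
      t * (Real.log (T i) / (2 * Real.pi)) + a := by
    unfold hh; field_simp
  rw [e1, hc'] at s3 s4
  have h := point (x i) (y i) hcH hδ hr s1 s2 s3 s4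
  rw [hc']
  refine h.trans ?_
  have : (c : ℝ) * (H * δ) ≤ H * (H * δ) := mul_le_mul_of_nonneg_right hc (by positivity)
  linarith

/-- the slope tends to one -/
lemma slope_one (D : Data T ν y x)
    (hnull : INull T ν (fun i => dif (dif (gg (x i) (y i))))) {η ε : ℝ} (hη : 0 < η) (hε : 0 < ε) :
    ∀ᶠ i in atTop, dn T i {t | η ≤ |dif (gg (x i) (y i)) (ν t) - 1|} ≤ ε := by
  have hT : ∀ i, 0 < T i := fun i => by linarith [D.hT10 i]
  obtain ⟨CL, hCL, hmom⟩ := D.mom
  have hpi := Real.pi_pos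
  -- truncation of the local size
  obtain ⟨K, hK0, hK⟩ : ∃ K : ℝ, 0 < K ∧ CL / K ^ 2 ≤ ε / 8 := by
    refine ⟨Real.sqrt (8 * CL / ε), Real.sqrt_pos.2 (by positivity), ?_⟩
    rw [Real.sq_sqrt (by positivity)]
    apply le_of_eq
    field_simp
  -- the scale
  set κ : ℝ := min (η / 4) (1 / 2) with hκ
  have hκ0 : 0 < κ := lt_min (by positivity) (by norm_num)
  have hκ1 : κ ≤ η / 4 := min_le_left _ _
  have hκ2 : κ ≤ 1 / 2 := min_le_right _ _
  have ev : ∀ᶠ a : ℝ in atTop, 1 ≤ a ∧ 2 * K + 1 ≤ a * (η / 4) ∧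
      ∀ᶠ i in atTop, ∫ t in Icc (T i) (2 * T i), |(ν (t + hh T i a) : ℝ) - ν t - a| ≤
        (ε * κ / 4) * a * T i := by
    filter_upwards [eventually_ge_atTop 1, eventually_ge_atTop ((2 * K + 1) / (η / 4)),
      D.lln (ε * κ / 4) (by positivity)] with a h1 h2 h3
    refine ⟨h1, ?_, h3⟩
    rwa [div_le_iff₀ (by positivity)] at h2
  obtain ⟨a, ha1, ha2, hvar⟩ := ev.exists
  have ha0 : 0 < a := by linarith
  obtain ⟨H, hH⟩ : ∃ H : ℕ, 2 * a ≤ H := ⟨_, Nat.le_ceil _⟩
  have hH0 : (0 : ℝ) < H := by linarith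
  have hnl : ∀ j ∈ Finset.range H, ∀ᶠ i in atTop,
      dn T i {t | 1 / (H : ℝ) ^ 2 ≤ |dif (dif (gg (x i) (y i))) (ν t + j)|} ≤ ε / (4 * H) := fun j _ =>
    hnull.ev hT (by positivity) j (by positivity)
  rw [← Filter.eventually_all_finset] at hnl
  filter_upwards [hmom 0 le_rfl, hmom a ha0.le, hvar, hnl, hh_small D ha0.le]
    with i h1 h2 h3 h4 h5
  have hTi := hT i
  -- the three exceptional sets
  have c1 : dn T i {t | K ≤ |Lam (x i) (y i) (ν t)|} ≤ ε / 8 := by
    have e0 : hh T i 0 = 0 := by unfold hh; simp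
    rw [e0] at h1
    simp only [add_zero] at h1
    exact (cheb D.hν hT i (fun n _ => Lam (x i) (y i) n) 0 hK0 h1).trans hK
  have c2 : dn T i {t | K ≤ |Lam (x i) (y i) (ν (t + hh T i a))|} ≤ ε / 8 :=
    (cheb D.hν hT i (fun _ m => Lam (x i) (y i) m) (hh T i a) hK0 h2).trans hK
  have c3 : dn T i {t | κ * a ≤ |(ν (t + hh T i a) : ℝ) - ν t - a|} ≤ ε / 4 := by
    have e1 : ∫ t in Icc (T i) (2 * T i), (Real.sqrt (|(ν (t + hh T i a) : ℝ) - ν t - a|)) ^ 2 ≤
        ((ε * κ / 4) * a) * T i := by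
      simp only [Real.sq_sqrt (abs_nonneg _)]
      exact h3
    have e2 := cheb D.hν hT i (fun n m => Real.sqrt (|(m : ℝ) - n - a|)) (hh T i a)
      (Real.sqrt_pos.2 (by positivity : 0 < κ * a)) e1
    rw [Real.sq_sqrt (by positivity)] at e2
    have e3 : (ε * κ / 4) * a / (κ * a) = ε / 4 := by field_simp
    rw [e3] at e2
    refine (dn_mono hT i fun t _ _ ht => ?_).trans e2
    have ht : κ * a ≤ |(ν (t + hh T i a) : ℝ) - ν t - a| := ht
    show Real.sqrt (κ * a) ≤ |Real.sqrt (|(ν (t + hh T i a) : ℝ) - ν t - a|)|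
    rw [abs_of_nonneg (Real.sqrt_nonneg _)]
    exact Real.sqrt_le_sqrt ht
  have c4 : dn T i (⋃ j ∈ Finset.range H,
      {t | 1 / (H : ℝ) ^ 2 ≤ |dif (dif (gg (x i) (y i))) (ν t + j)|}) ≤ ε / 4 := by
    refine (dn_biUnion hT i _ _).trans ((Finset.sum_le_sum h4).trans ?_)
    rw [Finset.sum_const, Finset.card_range, nsmul_eq_mul]
    apply le_of_eq
    field_simp
  refine (dn_mono hT i (F := (({t | K ≤ |Lam (x i) (y i) (ν t)|} ∪
    {t | K ≤ |Lam (x i) (y i) (ν (t + hh T i a))|}) ∪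
    {t | κ * a ≤ |(ν (t + hh T i a) : ℝ) - ν t - a|}) ∪ ⋃ j ∈ Finset.range H,
      {t | 1 / (H : ℝ) ^ 2 ≤ |dif (dif (gg (x i) (y i))) (ν t + j)|}) fun t ht1 ht2 ht => ?_).trans ?_
  · by_contra hcon
    rw [mem_union, mem_union, mem_union, not_or, not_or, not_or] at hcon
    obtain ⟨⟨⟨g1, g2⟩, g3⟩, g4⟩ := hcon
    have g1 : |Lam (x i) (y i) (ν t)| < K := not_le.mp g1
    have g2 : |Lam (x i) (y i) (ν (t + hh T i a))| < K := not_le.mp g2
    have g3 : |(ν (t + hh T i a) : ℝ) - ν t - a| < κ * a := not_le.mp g3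
    rw [abs_of_nonneg (Lam_nonneg _ _ _)] at g1 g2
    set c : ℝ := (ν (t + hh T i a) : ℝ) - ν t with hc
    obtain ⟨g5, g6⟩ := abs_lt.mp g3
    have hκa : κ * a ≤ a / 2 := by nlinarith
    have hp := point' D (a := a) (t := t) (δ := 1 / (H : ℝ) ^ 2) ha0.le h5 ht1 ht2 (H := H)
      (by positivity) (by linarith) (by
        intro j hj
        by_contra hlt
        push Not at hlt
        apply g4
        simp only [mem_iUnion]
        exact ⟨j, Finset.mem_range.mpr hj, hlt.le⟩)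
    have e1 : (H : ℝ) * (H * (1 / (H : ℝ) ^ 2)) = 1 := by field_simp
    rw [e1, ← hc] at hp
    obtain ⟨p1, p2⟩ := abs_le.mp hp
    have ht : η ≤ |dif (gg (x i) (y i)) (ν t) - 1| := ht
    set g := dif (gg (x i) (y i)) (ν t) with hg
    have hc2 : a / 2 ≤ c := by linarith
    have e3 : a / 2 * η ≤ c * |g - 1| := mul_le_mul hc2 ht hη.le (by linarith)
    have e4 : κ * a ≤ η / 4 * a := mul_le_mul_of_nonneg_right hκ1 ha0.le
    -- strictness
    have e6 : |c * (g - 1)| < 2 * K + 1 + κ * a := by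
      have e7 : c * (g - 1) = (c * g - a) - (c - a) := by ring
      rw [e7, abs_lt]
      constructor <;> linarith
    rw [abs_mul, abs_of_nonneg (by linarith : 0 ≤ c)] at e6
    linarith
  · refine (dn_union hT i _ _).trans ?_
    have e1 := dn_union hT i ({t | K ≤ |Lam (x i) (y i) (ν t)|} ∪
      {t | K ≤ |Lam (x i) (y i) (ν (t + hh T i a))|})
      {t | κ * a ≤ |(ν (t + hh T i a) : ℝ) - ν t - a|}
    have e2 := dn_union hT i {t | K ≤ |Lam (x i) (y i) (ν t)|}
      {t | K ≤ |Lam (x i) (y i) (ν (t + hh T i a))|}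
    linarith

/-- **the contradiction** -/
theorem core (D : Data T ν y x)
    (hnull : INull T ν (fun i => dif (dif (gg (x i) (y i))))) : False := by
  have hT : ∀ i, 0 < T i := fun i => by linarith [D.hT10 i]
  obtain ⟨CL, hCL, hmom⟩ := D.mom
  have hpi := Real.pi_pos
  -- a uniform upper bound for the variance
  have key : ∀ a : ℝ, 1 ≤ a → ∀ᶠ i in atTop,
      ∫ t in Icc (T i) (2 * T i), ((ν (t + hh T i a) : ℝ) - ν t - a) ^ 2 ≤ (6 * CL + 14) * T i := by
    intro a ha1
    have ha0 : 0 < a := by linarith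
    obtain ⟨C3, hC3, hcube⟩ := D.cube a ha1
    set κ : ℝ := 1 / C3 with hκ
    have hκ0 : 0 < κ := by positivity
    set ε : ℝ := κ ^ 2 with hε
    have hε0 : 0 < ε := by positivity
    -- truncation of the count
    obtain ⟨H, hH1, hH2⟩ : ∃ H : ℕ, a + 1 ≤ H ∧
        (1 + C3) / ((H : ℝ) - a) ^ 2 ≤ ε / 4 := by
      have e1 : Tendsto (fun n : ℕ => (1 + C3) / ((n : ℝ) - a) ^ 2) atTop (𝓝 0) := by
        apply Tendsto.div_atTop tendsto_const_nhds
        apply (tendsto_pow_atTop two_ne_zero).comp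
        exact tendsto_atTop_add_const_right _ _ tendsto_natCast_atTop_atTop
      obtain ⟨H, h1, h2⟩ := ((e1.eventually_le_const (by positivity : (0 : ℝ) < ε / 4)).and
        (tendsto_natCast_atTop_atTop.eventually_ge_atTop (a + 1))).exists
      exact ⟨H, h2, h1⟩
    have hH0 : (0 : ℝ) < H := by linarith
    have hnl : ∀ j ∈ Finset.range H, ∀ᶠ i in atTop,
        dn T i {t | 1 / (H : ℝ) ^ 2 ≤ |dif (dif (gg (x i) (y i))) (ν t + j)|} ≤ ε / (4 * H) :=
      fun j _ => hnull.ev hT (by positivity) j (by positivity)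
    rw [← Filter.eventually_all_finset] at hnl
    filter_upwards [hmom 0 le_rfl, hmom a ha0.le, hnl, hh_small D ha0.le, hcube,
      slope_one D hnull (by positivity : (0 : ℝ) < 1 / H) (by positivity : (0 : ℝ) < ε / 4)]
      with i h1 h2 h4 h5 h6 h7
    have hTi := hT i
    have e0 : hh T i 0 = 0 := by unfold hh; simp
    rw [e0] at h1
    simp only [add_zero] at h1
    set h : ℝ := hh T i a with hh'
    set cc : ℝ → ℝ := fun t => (ν (t + h) : ℝ) - ν t with hcc
    -- the bad set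
    set Bad : ℕ → ℕ → Prop := fun n m => (H : ℝ) ≤ (m : ℝ) - n ∨
      (∃ j < H, 1 / (H : ℝ) ^ 2 ≤ |dif (dif (gg (x i) (y i))) (n + j)|) ∨
      1 / (H : ℝ) ≤ |dif (gg (x i) (y i)) n - 1| with hBad
    set B : Set ℝ := {t | Bad (ν t) (ν (t + h))} with hB
    have hBm : MeasurableSet B := step_set D.hν Bad h
    have c3 : dn T i {t | (H : ℝ) - a ≤ |cc t - a|} ≤ ε / 4 := by
      have e1 : ∫ t in Icc (T i) (2 * T i), (cc t - a) ^ 2 ≤ (1 + C3) * T i := by
        have i3 : IntegrableOn (fun t => |cc t - a| ^ 3) (Icc (T i) (2 * T i)) :=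
          step_int D.hν (fun n m => |(m : ℝ) - n - a| ^ 3) h _ _
        have i4 : IntegrableOn (fun t => (cc t - a) ^ 2) (Icc (T i) (2 * T i)) :=
          step_int D.hν (fun n m => ((m : ℝ) - n - a) ^ 2) h _ _
        have i5 : IntegrableOn (fun _ : ℝ => (1 : ℝ)) (Icc (T i) (2 * T i)) :=
          integrableOn_const (by rw [Real.volume_Icc]; exact ENNReal.ofReal_ne_top)
        have e2 : ∫ t in Icc (T i) (2 * T i), (cc t - a) ^ 2 ≤
            ∫ t in Icc (T i) (2 * T i), (1 + |cc t - a| ^ 3) := by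
          refine setIntegral_mono_on i4 (i5.add i3) measurableSet_Icc fun t _ => ?_
          have e3 : (cc t - a) ^ 2 = |cc t - a| ^ 2 := (sq_abs _).symm
          rw [e3]
          have e4 := abs_nonneg (cc t - a)
          set z := |cc t - a|
          rcases le_total z 1 with h8 | h8
          · have : z ^ 2 ≤ 1 := by nlinarith
            have : 0 ≤ z ^ 3 := by positivity
            linarith
          · have : z ^ 2 * 1 ≤ z ^ 2 * z := by gcongr
            nlinarith
        refine e2.trans ?_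
        have e5 : ∫ t in Icc (T i) (2 * T i), (1 + |cc t - a| ^ 3) =
            (∫ t in Icc (T i) (2 * T i), (1 : ℝ)) + ∫ t in Icc (T i) (2 * T i), |cc t - a| ^ 3 :=
          integral_add i5 i3
        rw [e5]
        have e6 : ∫ t in Icc (T i) (2 * T i), (1 : ℝ) = T i := by
          rw [integral_const, smul_eq_mul, Measure.real, Measure.restrict_apply_univ,
            Real.volume_Icc, ENNReal.toReal_ofReal (by linarith)]
          ring
        rw [e6]
        linarith
      exact (cheb D.hν hT i (fun n m => (m : ℝ) - n - a) h (by linarith) e1).trans hH2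
    have c4 : dn T i (⋃ j ∈ Finset.range H,
        {t | 1 / (H : ℝ) ^ 2 ≤ |dif (dif (gg (x i) (y i))) (ν t + j)|}) ≤ ε / 4 := by
      refine (dn_biUnion hT i _ _).trans ((Finset.sum_le_sum h4).trans ?_)
      rw [Finset.sum_const, Finset.card_range, nsmul_eq_mul]
      apply le_of_eq
      field_simp
    have hdB : dn T i B ≤ ε := by
      refine (dn_mono hT i (F := ({t | (H : ℝ) - a ≤ |cc t - a|} ∪ ⋃ j ∈ Finset.range H,
        {t | 1 / (H : ℝ) ^ 2 ≤ |dif (dif (gg (x i) (y i))) (ν t + j)|}) ∪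
        {t | 1 / (H : ℝ) ≤ |dif (gg (x i) (y i)) (ν t) - 1|}) fun t _ _ ht => ?_).trans ?_
      · rcases ht with ht | ⟨j, hj, ht⟩ | ht
        · left; left
          show (H : ℝ) - a ≤ |cc t - a|
          refine le_trans ?_ (le_abs_self _)
          simp only [hcc]
          linarith
        · left; right
          simp only [mem_iUnion]
          exact ⟨j, Finset.mem_range.mpr hj, ht⟩
        · right
          exact ht
      · refine (dn_union hT i _ _).trans ?_
        have e1 := dn_union hT i {t | (H : ℝ) - a ≤ |cc t - a|} (⋃ j ∈ Finset.range H,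
          {t | 1 / (H : ℝ) ^ 2 ≤ |dif (dif (gg (x i) (y i))) (ν t + j)|})
        linarith
    -- pointwise bound
    have hpt : ∀ t ∈ Icc (T i) (2 * T i), (cc t - a) ^ 2 ≤
        (3 * Lam (x i) (y i) (ν t) ^ 2 + 3 * Lam (x i) (y i) (ν (t + h)) ^ 2 + 12) +
        (κ * |cc t - a| ^ 3 + B.indicator (fun _ => 1 / κ ^ 2) t) := by
      intro t ht
      have p1 := Lam_nonneg (x i) (y i) (ν t)
      have p2 := Lam_nonneg (x i) (y i) (ν (t + h))
      by_cases hb : t ∈ B
      · rw [indicator_of_mem hb]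
        have q1 : (cc t - a) ^ 2 ≤ κ * |cc t - a| ^ 3 + 1 / κ ^ 2 := by
          rw [← sq_abs]
          exact aux2 hκ0 (abs_nonneg _)
        have q2 : 0 ≤ 3 * Lam (x i) (y i) (ν t) ^ 2 + 3 * Lam (x i) (y i) (ν (t + h)) ^ 2 + 12 := by
          positivity
        exact q1.trans (le_add_of_nonneg_left q2)
      · rw [indicator_of_notMem hb, add_zero]
        have hb' : ¬ Bad (ν t) (ν (t + h)) := hb
        simp only [hBad, not_or, not_exists, not_and, not_le] at hb'
        obtain ⟨b1, b2, b3⟩ := hb'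
        have hp := point' D (a := a) (t := t) (δ := 1 / (H : ℝ) ^ 2) ha0.le h5 ht.1 ht.2
          (H := H) (by positivity) b1.le (fun j hj => (b2 j hj).le)
        have e1 : (H : ℝ) * (H * (1 / (H : ℝ) ^ 2)) = 1 := by field_simp
        rw [e1] at hp
        have hc0 : 0 ≤ cc t := by
          have : (ν t : ℝ) ≤ ν (t + h) := by
            exact_mod_cast D.hν (by linarith [hh_nonneg D.hT10 i ha0.le])
          simp only [hcc]; linarith
        have q1 : |cc t * (dif (gg (x i) (y i)) (ν t) - 1)| ≤ 1 := by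
          rw [abs_mul, abs_of_nonneg hc0]
          calc cc t * |dif (gg (x i) (y i)) (ν t) - 1| ≤ H * (1 / H) :=
                mul_le_mul b1.le b3.le (abs_nonneg _) hH0.le
            _ = 1 := by field_simp
        have q2 : |cc t - a| ≤ Lam (x i) (y i) (ν t) + Lam (x i) (y i) (ν (t + h)) + 2 := by
          obtain ⟨r1, r2⟩ := abs_le.mp hp
          obtain ⟨r3, r4⟩ := abs_le.mp q1
          have r5 : cc t * (dif (gg (x i) (y i)) (ν t) - 1) =
            ((ν (t + h) : ℝ) - ν t) * dif (gg (x i) (y i)) (ν t) - cc t := by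
            simp only [hcc]; ring
          rw [r5] at r3 r4
          rw [abs_le]
          constructor <;> linarith
        have q3 : (cc t - a) ^ 2 ≤ (Lam (x i) (y i) (ν t) + Lam (x i) (y i) (ν (t + h)) + 2) ^ 2 := by
          rw [← sq_abs]
          exact pow_le_pow_left₀ (abs_nonneg _) q2 2
        have q4 : 0 ≤ κ * |cc t - a| ^ 3 := by positivity
        exact q3.trans ((aux3 _ _).trans (le_add_of_nonneg_right q4))
    -- integrate
    have i1 : IntegrableOn (fun t => Lam (x i) (y i) (ν t) ^ 2) (Icc (T i) (2 * T i)) :=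
      step_int D.hν (fun n _ => Lam (x i) (y i) n ^ 2) 0 _ _
    have i2 : IntegrableOn (fun t => Lam (x i) (y i) (ν (t + h)) ^ 2) (Icc (T i) (2 * T i)) :=
      step_int D.hν (fun _ m => Lam (x i) (y i) m ^ 2) h _ _
    have i3 : IntegrableOn (fun t => |cc t - a| ^ 3) (Icc (T i) (2 * T i)) :=
      step_int D.hν (fun n m => |(m : ℝ) - n - a| ^ 3) h _ _
    have i4 : IntegrableOn (fun t => (cc t - a) ^ 2) (Icc (T i) (2 * T i)) :=
      step_int D.hν (fun n m => ((m : ℝ) - n - a) ^ 2) h _ _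
    have i5 : IntegrableOn (fun _ : ℝ => (12 : ℝ)) (Icc (T i) (2 * T i)) :=
      integrableOn_const (by rw [Real.volume_Icc]; exact ENNReal.ofReal_ne_top)
    have i6 : IntegrableOn (B.indicator (fun _ : ℝ => 1 / κ ^ 2)) (Icc (T i) (2 * T i)) :=
      (integrableOn_const (by rw [Real.volume_Icc]; exact ENNReal.ofReal_ne_top)).indicator hBm
    have hI := setIntegral_mono_on i4 ((((i1.const_mul 3).add (i2.const_mul 3)).add i5).add
      ((i3.const_mul κ).add i6)) measurableSet_Icc hpt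
    refine hI.trans ?_
    have j1 : ∫ t in Icc (T i) (2 * T i), ((((fun t : ℝ => 3 * Lam (x i) (y i) (ν t) ^ 2) +
        fun t : ℝ => 3 * Lam (x i) (y i) (ν (t + h)) ^ 2) + fun _ : ℝ => (12 : ℝ)) +
        ((fun t : ℝ => κ * |cc t - a| ^ 3) + B.indicator (fun _ : ℝ => 1 / κ ^ 2)) : ℝ → ℝ) t =
        3 * (∫ t in Icc (T i) (2 * T i), Lam (x i) (y i) (ν t) ^ 2) +
        3 * (∫ t in Icc (T i) (2 * T i), Lam (x i) (y i) (ν (t + h)) ^ 2) + 12 * T i +
        (κ * (∫ t in Icc (T i) (2 * T i), |cc t - a| ^ 3) + 1 / κ ^ 2 * (dn T i B * T i)) := by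
      have k1 := integral_add (((i1.const_mul 3).add (i2.const_mul 3)).add i5)
        ((i3.const_mul κ).add i6)
      have k2 := integral_add ((i1.const_mul 3).add (i2.const_mul 3)) i5
      have k3 := integral_add (i1.const_mul 3) (i2.const_mul 3)
      have k4 := integral_add (i3.const_mul κ) i6
      have k5 : ∫ t in Icc (T i) (2 * T i), B.indicator (fun _ : ℝ => 1 / κ ^ 2) t =
          1 / κ ^ 2 * (dn T i B * T i) := by
        rw [integral_indicator hBm, Measure.restrict_restrict hBm, integral_const, smul_eq_mul,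
          mul_comm]
        congr 1
        unfold dn Measure.real
        rw [Measure.restrict_apply_univ]
        field_simp
      have k6 : ∫ t in Icc (T i) (2 * T i), (12 : ℝ) = 12 * T i := by
        rw [integral_const, smul_eq_mul, Measure.real, Measure.restrict_apply_univ,
          Real.volume_Icc, ENNReal.toReal_ofReal (by linarith)]
        ring
      rw [integral_const_mul, integral_const_mul] at k3
      rw [integral_const_mul, k5] at k4
      rw [k6] at k2
      exact k1.trans (congrArg₂ (· + ·) (k2.trans (congrArg (· + 12 * T i) k3)) k4)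
    refine (le_of_eq j1).trans ?_
    have l1 : κ * (∫ t in Icc (T i) (2 * T i), |cc t - a| ^ 3) ≤ κ * (C3 * T i) :=
      mul_le_mul_of_nonneg_left h6 hκ0.le
    have l2 : κ * (C3 * T i) = T i := by rw [hκ]; field_simp
    have l3 : 1 / κ ^ 2 * (dn T i B * T i) ≤ 1 / κ ^ 2 * (ε * T i) := by gcongr
    have l4 : 1 / κ ^ 2 * (ε * T i) = T i := by rw [hε]; field_simp
    linarith
  -- choose `a`
  obtain ⟨a, ha1, ha2⟩ := D.var (6 * CL + 15)
  obtain ⟨i, h1, h2⟩ := ((key a ha1).and ha2).exists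
  have hTi := hT i
  linarith

end Pool.Agent.Helper65.LR
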