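import Pool.Agent.Helper65.LR.Trans
import Pool.Agent.Helper65.LR.Core
import Pool.Agent.Y743.LR.NT2

set_option autoImplicit false

/-! # The ordinates are not close to a slowly varying sequence -/

namespace Pool.Agent.Helper65.LR

open MeasureTheory Set Filter Topology
open SG (NZ ord)
open LG (dlt)
open Pool.Agent.Y743.LR (step_int step_le yv dif_yv dif dn dn_mono dn_union dn_nonneg INull ITight
  hh Good good_ev gam_cube mom2 shift_int gam_le step_set cheb)

/-- the contradiction, for the zeros -/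
theorem coreZ (hRH : RiemannHypothesis) {T : ℕ → ℝ} (hT10 : ∀ i, 10 ≤ T i)
    (hT1 : ∀ i, ord 1 ≤ T i) (hTt : Tendsto T atTop atTop) (x : ℕ → ℕ → ℝ)
    (hx : ∃ C : ℝ, 0 < C ∧ ∀ a : ℝ, 0 ≤ a → ∀ᶠ i in atTop,
      ∫ t in Icc (T i) (2 * T i), x i (NZ (t + hh T i a)) ^ 2 ≤ C * T i)
    (hnull : INull T NZ (fun i => dif (dif (gg (x i) (yv (T i)))))) : False := by
  have hpi := Real.pi_pos
  obtain ⟨Cx, hCx, hx⟩ := hx
  obtain ⟨κ, D, C, hκ, hκ1, hD, hC, hgood⟩ := good_ev
  obtain ⟨Cm, hCm, hm2⟩ := mom2 (D := D) (rhs_of hRH) hκ hC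
  have hsmall : ∀ a : ℝ, 0 ≤ a → ∀ᶠ i in atTop, hh T i a ≤ T i := by
    intro a ha
    have h1 : ∀ᶠ i in atTop, 2 * Real.pi * a ≤ T i := hTt.eventually_ge_atTop _
    have h2 : ∀ᶠ i in atTop, 1 ≤ Real.log (T i) :=
      (Real.tendsto_log_atTop.comp hTt).eventually_ge_atTop _
    filter_upwards [h1, h2] with i h1 h2
    unfold hh
    rw [div_le_iff₀ (by linarith)]
    have := hT10 i
    nlinarith
  refine core (T := T) (ν := NZ) (y := fun i => yv (T i)) (x := x) ?_ hnull
  refine ⟨hT10, hTt, SG.NZ_mono, ?_, ?_, ?_, ?_, ?_⟩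
  · -- sandwich
    intro i t ht1 ht2
    have hL : 0 < Real.log (T i) := Real.log_pos (by linarith [hT10 i])
    have hn1 : 1 ≤ NZ t := by
      have := (SG.ord_le_iff (le_refl 1) t).1 ((hT1 i).trans ht1)
      exact this
    constructor
    · show ord (NZ t) * (Real.log (T i) / (2 * Real.pi)) ≤ _
      exact mul_le_mul_of_nonneg_right ((SG.ord_le_iff hn1 t).2 le_rfl) (by positivity)
    · show _ < ord (NZ t + 1) * (Real.log (T i) / (2 * Real.pi))
      apply mul_lt_mul_of_pos_right _ (by positivity)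
      by_contra hcon
      push Not at hcon
      have := (SG.ord_le_iff (by omega) t).1 hcon
      omega
  · -- second moments
    refine ⟨2 * Cm + 2 * Cx, by positivity, fun a ha => ?_⟩
    obtain ⟨T0, hT0, hg⟩ := hgood 0
    filter_upwards [hx a ha, hsmall a ha, hTt.eventually_ge_atTop T0] with i h1 h2 h3
    have hTi : 0 < T i := by linarith [hT10 i]
    have hh0 : 0 ≤ hh T i a := by
      unfold hh
      have : 0 < Real.log (T i) := Real.log_pos (by linarith [hT10 i])
      positivity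
    have h4 : ∫ t in Icc (T i) (2 * T i), dif (yv (T i)) (NZ (t + hh T i a)) ^ 2 ≤ Cm * T i := by
      rw [shift_int (fun t => dif (yv (T i)) (NZ t) ^ 2)]
      exact hm2 0 (T i) (hg (T i) h3) _ _ (by linarith) (by linarith)
    have i1 : IntegrableOn (fun t => Lam (x i) (yv (T i)) (NZ (t + hh T i a)) ^ 2)
        (Icc (T i) (2 * T i)) :=
      step_int SG.NZ_mono (fun _ m => Lam (x i) (yv (T i)) m ^ 2) (hh T i a) _ _
    have i2 : IntegrableOn (fun t => dif (yv (T i)) (NZ (t + hh T i a)) ^ 2)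
        (Icc (T i) (2 * T i)) :=
      step_int SG.NZ_mono (fun _ m => dif (yv (T i)) m ^ 2) (hh T i a) _ _
    have i3 : IntegrableOn (fun t => x i (NZ (t + hh T i a)) ^ 2) (Icc (T i) (2 * T i)) :=
      step_int SG.NZ_mono (fun _ m => x i m ^ 2) (hh T i a) _ _
    have h5 : ∫ t in Icc (T i) (2 * T i), Lam (x i) (yv (T i)) (NZ (t + hh T i a)) ^ 2 ≤
        ∫ t in Icc (T i) (2 * T i), (2 * dif (yv (T i)) (NZ (t + hh T i a)) ^ 2 +
          2 * x i (NZ (t + hh T i a)) ^ 2) := by
      refine setIntegral_mono_on i1 ((i2.const_mul 2).add (i3.const_mul 2)) measurableSet_Icc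
        fun t _ => ?_
      unfold Lam
      have e1 := sq_abs (dif (yv (T i)) (NZ (t + hh T i a)))
      have e2 := sq_abs (x i (NZ (t + hh T i a)))
      have e3 := sq_nonneg (|dif (yv (T i)) (NZ (t + hh T i a))| - |x i (NZ (t + hh T i a))|)
      nlinarith
    have h6 : ∫ t in Icc (T i) (2 * T i), (2 * dif (yv (T i)) (NZ (t + hh T i a)) ^ 2 +
          2 * x i (NZ (t + hh T i a)) ^ 2) =
        (∫ t in Icc (T i) (2 * T i), 2 * dif (yv (T i)) (NZ (t + hh T i a)) ^ 2) +
        ∫ t in Icc (T i) (2 * T i), 2 * x i (NZ (t + hh T i a)) ^ 2 :=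
      integral_add (i2.const_mul 2) (i3.const_mul 2)
    rw [h6, integral_const_mul, integral_const_mul] at h5
    linarith
  · intro ε hε
    filter_upwards [lln_t hRH hε] with a ha
    exact hTt.eventually ha
  · intro K
    obtain ⟨a, ha1, ha⟩ := var_t hRH K
    exact ⟨a, ha1, hTt.eventually ha⟩
  · intro a ha
    obtain ⟨C3, hC3, h⟩ := cube_t hRH a ha
    exact ⟨C3, hC3, hTt.eventually h⟩

section null

variable {T : ℕ → ℝ}

/-- the gaps are tight -/
lemma tight_y (hRH : RiemannHypothesis) (hT10 : ∀ i, 10 ≤ T i) (hTt : Tendsto T atTop atTop) :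
    ∃ C : ℝ, 0 < C ∧ ∀ (k : ℕ) (K : ℝ), 0 < K → ∀ᶠ i in atTop,
      dn T i {t | K ≤ |dif (yv (T i)) (NZ t + k)|} ≤ C / K ^ 2 := by
  obtain ⟨κ, D, C, hκ, hκ1, hD, hC, hgood⟩ := good_ev
  obtain ⟨Cm, hCm, hm2⟩ := mom2 (D := D) (rhs_of hRH) hκ hC
  refine ⟨Cm, hCm, fun k K hK => ?_⟩
  obtain ⟨T0, hT0, hg⟩ := hgood k
  filter_upwards [hTt.eventually_ge_atTop T0] with i hi
  have hTi : 0 < T i := by linarith [hT10 i]
  refine cheb SG.NZ_mono (fun i => by linarith [hT10 i]) i
    (fun n _ => dif (yv (T i)) (n + k)) 0 hK ?_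
  exact hm2 k (T i) (hg (T i) hi) _ _ le_rfl (by linarith)

/-- the two normalisations -/
lemma dlt_close {κ T D : ℝ} {n : ℕ} (hκ : 0 < κ) (hκ1 : κ ≤ 1) (hL : 0 < Real.log T)
    (hT : 0 < T) (h1 : κ * T ≤ ord n)
    (h2 : ord n ≤ ord (n + 1)) (h3 : ord (n + 1) ≤ D * T) (hD : 1 ≤ D) :
    |dlt n - dif (yv T) n| ≤
      (Real.log D - Real.log κ + 1) / Real.log T * dif (yv T) n := by
  have hpi := Real.pi_pos
  set g := ord n with hg
  set g' := ord (n + 1) with hg'
  have hg0 : 0 < g := lt_of_lt_of_le (by positivity) h1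
  have hg'0 : 0 < g' := by linarith
  have e1 : dlt n = (g' * Real.log g' - g * Real.log g) / (2 * Real.pi) := rfl
  rw [e1, dif_yv, ← hg, ← hg']
  have r1 : 0 ≤ g * (Real.log g' - Real.log g) :=
    mul_nonneg hg0.le (by linarith [Real.log_le_log hg0 h2])
  have r2 : g * (Real.log g' - Real.log g) ≤ g' - g := by
    rw [← Real.log_div hg'0.ne' hg0.ne']
    have := Real.log_le_sub_one_of_pos (show 0 < g' / g by positivity)
    calc g * Real.log (g' / g) ≤ g * (g' / g - 1) := by gcongr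
      _ = g' - g := by field_simp
  have l1 : Real.log κ + Real.log T ≤ Real.log g' := by
    rw [← Real.log_mul hκ.ne' hT.ne']
    exact Real.log_le_log (by positivity) (by linarith)
  have l2 : Real.log g' ≤ Real.log D + Real.log T := by
    rw [← Real.log_mul (by linarith) hT.ne']
    exact Real.log_le_log hg'0 h3
  have l3 : Real.log κ ≤ 0 := Real.log_nonpos hκ.le hκ1
  have l4 : 0 ≤ Real.log D := Real.log_nonneg hD
  have e2 : (g' * Real.log g' - g * Real.log g) / (2 * Real.pi) -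
      (g' - g) * (Real.log T / (2 * Real.pi)) =
      ((g' - g) * (Real.log g' - Real.log T) + g * (Real.log g' - Real.log g)) / (2 * Real.pi) := by
    field_simp
    ring
  have e3 : (Real.log D - Real.log κ + 1) / Real.log T *
      ((g' - g) * (Real.log T / (2 * Real.pi))) =
      ((g' - g) * (Real.log D - Real.log κ + 1)) / (2 * Real.pi) := by
    field_simp
  rw [e2, e3, abs_div, abs_of_pos (by positivity : 0 < 2 * Real.pi)]
  apply div_le_div_of_nonneg_right _ (by positivity)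
  have hgg : 0 ≤ g' - g := by linarith
  have p2 : (g' - g) * (Real.log g' - Real.log T) ≤ (g' - g) * (Real.log D - Real.log κ) :=
    mul_le_mul_of_nonneg_left (by linarith) hgg
  have p3 : (g' - g) * (-(Real.log D - Real.log κ)) ≤ (g' - g) * (Real.log g' - Real.log T) :=
    mul_le_mul_of_nonneg_left (by linarith) hgg
  rw [abs_le]
  constructor
  · nlinarith
  · nlinarith

/-- the two normalisations agree in the limit -/
lemma null_dlt (hRH : RiemannHypothesis) (hT10 : ∀ i, 10 ≤ T i) (hTt : Tendsto T atTop atTop) :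
    INull T NZ (fun i n => dlt n - dif (yv (T i)) n) := by
  obtain ⟨κ, D, C, hκ, hκ1, hD, hC, hgood⟩ := good_ev
  obtain ⟨Cm, hCm, htight⟩ := tight_y hRH hT10 hTt
  refine INull.of_ev (fun i => by linarith [hT10 i]) fun η hη k ε hε => ?_
  obtain ⟨K, hK0, hK⟩ : ∃ K : ℝ, 0 < K ∧ Cm / K ^ 2 ≤ ε := by
    refine ⟨Real.sqrt (Cm / ε), Real.sqrt_pos.2 (by positivity), ?_⟩
    rw [Real.sq_sqrt (by positivity)]
    apply le_of_eq
    field_simp
  obtain ⟨T0, hT0, hg⟩ := hgood (k + 1)
  obtain ⟨T0', hT0', hg'⟩ := hgood k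
  have hlD : 0 ≤ Real.log D := Real.log_nonneg (by linarith)
  have hlκ : Real.log κ ≤ 0 := Real.log_nonpos hκ.le hκ1
  set B := Real.log D - Real.log κ + 1 with hB
  have hB0 : 0 < B := by rw [hB]; linarith
  have ev : ∀ᶠ i in atTop, B * K / η + 1 ≤ Real.log (T i) :=
    (Real.tendsto_log_atTop.comp hTt).eventually_ge_atTop _
  filter_upwards [htight k K hK0, hTt.eventually_ge_atTop T0, hTt.eventually_ge_atTop T0', ev]
    with i h1 h2 h2' h3
  refine (dn_mono (fun i => by linarith [hT10 i]) i fun t ht1 ht2 ht => ?_).trans (h1.trans hK)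
  have ht : η ≤ |dlt (NZ t + k) - dif (yv (T i)) (NZ t + k)| := ht
  show K ≤ |dif (yv (T i)) (NZ t + k)|
  have hG := hg (T i) h2
  have hG' := hg' (T i) h2'
  have hTi : 10 ≤ T i := hT10 i
  have hq : 0 ≤ B * K / η := by positivity
  have hL : 0 < Real.log (T i) := by linarith
  have hNt : NZ (T i) ≤ NZ t := SG.NZ_mono ht1
  have hN2 : NZ t ≤ NZ (2 * T i) := SG.NZ_mono ht2
  obtain ⟨a1, a2, a3⟩ := gam_le hκ (by linarith) hG.lgκ hG.n1 hG.n2 (n := NZ t + k) (by omega)
  by_contra hcon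
  push Not at hcon
  rw [abs_of_nonneg a2] at hcon
  have hn1 : 1 ≤ NZ t + k := by have := hG.n1; omega
  have hord : ord (NZ t + k) ≤ ord (NZ t + k + 1) := SG.ord_mono hn1 (Nat.le_succ _)
  have hDT : ord (NZ t + k + 1) ≤ D * T i := by
    rw [SG.ord_le_iff (by omega)]
    have := hG.n3
    omega
  have hL2 := dlt_close hκ hκ1 hL (by linarith) a1.le hord hDT (by linarith)
  rw [← hB] at hL2
  have h7 : B / Real.log (T i) * dif (yv (T i)) (NZ t + k) ≤ B / Real.log (T i) * K :=
    mul_le_mul_of_nonneg_left hcon.le (by positivity)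
  have h8 : B / Real.log (T i) * K < η := by
    rw [div_mul_eq_mul_div, div_lt_iff₀ hL]
    have : B * K / η < Real.log (T i) := by linarith
    rw [div_lt_iff₀ hη] at this
    linarith
  linarith

/-- from the density in `n` to the heights -/
lemma null_of_count (hRH : RiemannHypothesis) (hT10 : ∀ i, 10 ≤ T i)
    (hTt : Tendsto T atTop atTop) {N : ℕ → ℕ} {C : ℝ} (hC : 0 < C)
    (hN : ∀ᶠ i in atTop, (N i : ℝ) ≤ C * (T i * Real.log (T i)))
    (hD : ∀ k : ℕ, ∀ᶠ i in atTop, NZ (2 * T i) + k ≤ N i) {f : ℕ → ℕ → ℝ} {c : ℕ → ℝ}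
    (hc0 : ∀ i, 0 ≤ c i) (hc : Tendsto c atTop (𝓝 0))
    (hf : ∀ i, (((Finset.Icc 1 (N i)).filter fun n => c i ≤ |f i n|).card : ℝ) ≤ c i * N i) :
    INull T NZ f := by
  classical
  have hpi := Real.pi_pos
  obtain ⟨κ, D, CG, hκ, hκ1, hD3, hCG, hgood⟩ := good_ev
  obtain ⟨C', hC', hcube⟩ := gam_cube (D := D) (rhs_of hRH) hκ hCG
  refine INull.of_ev (fun i => by linarith [hT10 i]) fun η hη k ε hε => ?_
  obtain ⟨K, hK0, hK⟩ : ∃ K : ℝ, 0 < K ∧ 2 * Real.pi * C' / K ^ 2 ≤ ε / 2 := by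
    refine ⟨Real.sqrt (2 * Real.pi * C' / (ε / 2)), Real.sqrt_pos.2 (by positivity), ?_⟩
    rw [Real.sq_sqrt (by positivity)]
    apply le_of_eq
    field_simp
  obtain ⟨T0, hT0, hg⟩ := hgood 0
  have ev1 : ∀ᶠ i in atTop, c i ≤ η := hc.eventually_le_const hη
  have ev2 : ∀ᶠ i in atTop, c i ≤ ε / 2 / (2 * Real.pi * K * C) :=
    hc.eventually_le_const (by positivity)
  filter_upwards [hN, hD k, hTt.eventually_ge_atTop T0, ev1, ev2] with i h1 h2 h3 h4 h5
  have hTi : 10 ≤ T i := hT10 i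
  have hTi0 : 0 < T i := by linarith
  have hL : 0 < Real.log (T i) := Real.log_pos (by linarith)
  have hG := hg (T i) h3
  set F : ℕ → ℝ := fun n => if c i ≤ |f i (n + k)| then 1 else 0 with hF
  have hF0 : ∀ n, 0 ≤ F n := fun n => by simp only [hF]; split_ifs <;> norm_num
  have hF1 : ∀ n, F n ≤ 1 := fun n => by simp only [hF]; split_ifs <;> norm_num
  have e1 : dn T i {t | η ≤ |f i (NZ t + k)|} ≤
      (∫ t in Icc (T i) (2 * T i), F (NZ t)) / T i := by
    unfold dn
    apply div_le_div_of_nonneg_right _ hTi0.le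
    have hm : MeasurableSet {t : ℝ | c i ≤ |f i (NZ t + k)|} := by
      have := step_set SG.NZ_mono (fun n _ => c i ≤ |f i (n + k)|) 0
      exact this
    have k1 : ∫ t in Icc (T i) (2 * T i), F (NZ t) =
        (volume ({t : ℝ | c i ≤ |f i (NZ t + k)|} ∩ Icc (T i) (2 * T i))).toReal := by
      have k2 : (fun t => F (NZ t)) =
          {t : ℝ | c i ≤ |f i (NZ t + k)|}.indicator (fun _ => (1 : ℝ)) := by
        funext t
        simp only [hF]
        by_cases h : c i ≤ |f i (NZ t + k)|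
        · rw [if_pos h, indicator_of_mem (show t ∈ {t : ℝ | c i ≤ |f i (NZ t + k)|} from h)]
        · rw [if_neg h, indicator_of_notMem (show t ∉ {t : ℝ | c i ≤ |f i (NZ t + k)|} from h)]
      rw [k2, integral_indicator hm, Measure.restrict_restrict hm, integral_const, smul_eq_mul,
        mul_one, Measure.real, Measure.restrict_apply_univ]
    rw [k1]
    refine ENNReal.toReal_mono ?_ (measure_mono ?_)
    · exact ((measure_mono inter_subset_right).trans_lt
        (by rw [Real.volume_Icc]; exact ENNReal.ofReal_lt_top)).ne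
    · rintro t ⟨ht1, ht2⟩
      have ht1 : η ≤ |f i (NZ t + k)| := ht1
      exact ⟨h4.trans ht1, ht2⟩
  refine e1.trans ?_
  rw [div_le_iff₀ hTi0]
  have hNT1 : 1 ≤ NZ (T i) := hG.n1
  refine (step_le F hF0 hNT1).trans ?_
  set S := Finset.Icc (NZ (T i)) (NZ (2 * T i)) with hS
  have e2 : ∀ n ∈ S, F n * (ord (n + 1) - ord n) ≤
      2 * Real.pi / Real.log (T i) * (K * F n + dif (yv (T i)) n ^ 3 / K ^ 2) := by
    intro n hn
    rw [hS, Finset.mem_Icc] at hn
    obtain ⟨_, a2, _⟩ := gam_le hκ (by linarith) hG.lgκ hG.n1 hG.n2 (n := n) hn.1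
    have k1 : ord (n + 1) - ord n = 2 * Real.pi / Real.log (T i) * dif (yv (T i)) n := by
      rw [dif_yv]; field_simp
    rw [k1, mul_left_comm]
    apply mul_le_mul_of_nonneg_left _ (by positivity)
    set d := dif (yv (T i)) n
    have f0 := hF0 n
    have f1 := hF1 n
    rcases le_total d K with h | h
    · have : F n * d ≤ F n * K := mul_le_mul_of_nonneg_left h f0
      have : 0 ≤ d ^ 3 / K ^ 2 := by positivity
      linarith
    · have k2 : F n * d ≤ 1 * d := mul_le_mul_of_nonneg_right f1 a2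
      have k3 : d ≤ d ^ 3 / K ^ 2 := by
        rw [le_div_iff₀ (by positivity)]
        have : K ^ 2 ≤ d ^ 2 := pow_le_pow_left₀ hK0.le h 2
        calc d * K ^ 2 ≤ d * d ^ 2 := by gcongr
          _ = d ^ 3 := by ring
      have : 0 ≤ K * F n := by positivity
      linarith
  refine (Finset.sum_le_sum e2).trans ?_
  rw [← Finset.mul_sum, Finset.sum_add_distrib, ← Finset.mul_sum, ← Finset.sum_div]
  have e3 : ∑ n ∈ S, F n ≤ c i * N i := by
    have k1 : ∑ n ∈ S, F n = ((S.filter fun n => c i ≤ |f i (n + k)|).card : ℝ) := by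
      simp only [hF]
      rw [Finset.sum_boole]
    rw [k1]
    refine le_trans ?_ (hf i)
    have k2 : (S.filter fun n => c i ≤ |f i (n + k)|).card ≤
        ((Finset.Icc 1 (N i)).filter fun n => c i ≤ |f i n|).card := by
      refine Finset.card_le_card_of_injOn (fun n => n + k) ?_ ?_
      · intro n hn
        rw [Finset.mem_coe, Finset.mem_filter, hS, Finset.mem_Icc] at hn
        show n + k ∈ ((Finset.Icc 1 (N i)).filter fun n => c i ≤ |f i n| : Finset ℕ)
        rw [Finset.mem_filter, Finset.mem_Icc]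
        exact ⟨⟨by omega, by omega⟩, hn.2⟩
      · intro n _ m _ h
        exact Nat.add_right_cancel h
    exact_mod_cast k2
  have e4 : ∑ n ∈ S, dif (yv (T i)) n ^ 3 ≤ C' * (T i * Real.log (T i)) := by
    refine hcube 0 (T i) hG S fun n hn => ?_
    rw [hS, Finset.mem_Icc] at hn
    refine ⟨hn.1, hn.2.trans ?_⟩
    exact (SG.NZ_mono (by linarith)).trans (Nat.le_add_right _ _)
  have e5 : c i * N i ≤ c i * (C * (T i * Real.log (T i))) :=
    mul_le_mul_of_nonneg_left h1 (hc0 i)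
  rw [le_div_iff₀ (by positivity)] at h5
  calc 2 * Real.pi / Real.log (T i) * (K * ∑ n ∈ S, F n + (∑ n ∈ S, dif (yv (T i)) n ^ 3) / K ^ 2)
      ≤ 2 * Real.pi / Real.log (T i) * (K * (c i * (C * (T i * Real.log (T i)))) +
        (C' * (T i * Real.log (T i))) / K ^ 2) := by
        gcongr
        exact e3.trans e5
    _ = (c i * (2 * Real.pi * K * C) + 2 * Real.pi * C' / K ^ 2) * T i := by
        field_simp
    _ ≤ (ε / 2 + ε / 2) * T i := by gcongr
    _ = ε * T i := by ring

end null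

end Pool.Agent.Helper65.LR
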