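import Pool.Agent.Helper65.NR.Kern2

set_option autoImplicit false

/-! # Smoothed windows: the kernel -/

namespace Pool.Agent.Helper65.LR

open MeasureTheory Set Filter Topology H370.A2
open Pool.Agent.Helper65.NR

/-- a band limited probability density -/
noncomputable def FF (x : ℝ) : ℝ := GJ 2 1 x / 2

/-- its transform -/
noncomputable def tt (α : ℝ) : ℝ := phi 2 1 α / 2

lemma FF_cont : Continuous FF := GJ_cont.div_const _

lemma FF_nonneg (x : ℝ) : 0 ≤ FF x := div_nonneg (GJ_nonneg x) (by norm_num)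

lemma FF_even (x : ℝ) : FF (-x) = FF x := by
  unfold FF
  rw [← RR_phi two_pos, ← RR_phi two_pos, RR_even]

lemma CJ_two : CJ 2 1 = 17 := by
  unfold CJ rho
  norm_num

lemma FF_le (x : ℝ) : FF x ≤ 9 / (1 + x ^ 2) := by
  have h := GJ_decay (R := 2) (J := 1) two_pos le_rfl x
  rw [CJ_two] at h
  unfold FF
  rw [le_div_iff₀ (by positivity)] at h ⊢
  nlinarith [sq_nonneg x]

lemma ker_FF : Ker FF 9 where
  cont := FF_cont
  nonneg := FF_nonneg
  le := FF_le
  C0 := by norm_num

lemma phi_two (α : ℝ) : phi 2 1 α = 2 * tri (2 * α) := by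
  unfold phi rho
  simp

lemma tt_eq (α : ℝ) : tt α = tri (2 * α) := by
  unfold tt
  rw [phi_two]
  ring

lemma FF_mass : ∫ x, FF x = 1 := by
  unfold FF
  rw [integral_div, GJ_mass two_pos le_rfl, phi_two, mul_zero, tri_eq (by simp)]
  norm_num

lemma tt_cont : Continuous tt := phi_cont.div_const _

lemma FF_RR (x : ℝ) : ∫ α in (-(1 / 2 : ℝ))..(1 / 2), tt α * Real.cos (2 * Real.pi * α * x) = FF x := by
  unfold FF tt
  rw [← RR_phi two_pos]
  unfold RR
  rw [← intervalIntegral.integral_div]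
  refine intervalIntegral.integral_congr fun α _ => ?_
  show phi 2 1 α / 2 * Real.cos (2 * Real.pi * α * x) = phi 2 1 α * Real.cos (2 * Real.pi * α * x) / 2
  ring

/-- the transform of the window -/
noncomputable def sa (a α : ℝ) : ℝ := ∫ y in (-(a / 2))..(a / 2), Real.cos (2 * Real.pi * α * y)

lemma sa_even (a α : ℝ) : sa a (-α) = sa a α := by
  unfold sa
  refine intervalIntegral.integral_congr fun y _ => ?_
  show Real.cos (2 * Real.pi * (-α) * y) = Real.cos (2 * Real.pi * α * y)
  have : 2 * Real.pi * (-α) * y = -(2 * Real.pi * α * y) := by ring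
  rw [this, Real.cos_neg]

lemma sa_cont (a : ℝ) : Continuous (sa a) := by
  unfold sa
  exact intervalIntegral.continuous_parametric_intervalIntegral_of_continuous' (by
    show Continuous (Function.uncurry fun α y => Real.cos (2 * Real.pi * α * y))
    unfold Function.uncurry
    fun_prop) _ _

lemma sa_sin (a α : ℝ) : Real.pi * α * sa a α = Real.sin (Real.pi * a * α) := by
  rcases eq_or_ne α 0 with h | h
  · subst h; simp
  · have hc : 2 * Real.pi * α ≠ 0 := mul_ne_zero (mul_ne_zero two_ne_zero Real.pi_ne_zero) h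
    unfold sa
    rw [intervalIntegral.integral_comp_mul_left (fun z => Real.cos z) hc, integral_cos, smul_eq_mul]
    have e1 : 2 * Real.pi * α * (a / 2) = Real.pi * a * α := by ring
    have e2 : 2 * Real.pi * α * (-(a / 2)) = -(Real.pi * a * α) := by ring
    rw [e1, e2, Real.sin_neg]
    field_simp
    ring

lemma sa_le {a : ℝ} (ha : 0 ≤ a) (α : ℝ) : |sa a α| ≤ a := by
  unfold sa
  have h := intervalIntegral.norm_integral_le_of_norm_le_const (a := -(a / 2)) (b := a / 2)
    (f := fun y => Real.cos (2 * Real.pi * α * y)) (C := 1) (fun y _ => by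
      rw [Real.norm_eq_abs]; exact Real.abs_cos_le_one _)
  rw [Real.norm_eq_abs] at h
  refine h.trans ?_
  rw [one_mul, abs_of_nonneg (by linarith)]
  linarith

lemma sa_lip {a : ℝ} (ha : 0 ≤ a) (α β : ℝ) : |sa a α - sa a β| ≤ Real.pi * a ^ 2 * |α - β| := by
  have hpi := Real.pi_pos
  unfold sa
  rw [← intervalIntegral.integral_sub (Continuous.intervalIntegrable (by fun_prop) _ _)
    (Continuous.intervalIntegrable (by fun_prop) _ _)]
  have h := intervalIntegral.norm_integral_le_of_norm_le_const (a := -(a / 2)) (b := a / 2)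
    (f := fun y => Real.cos (2 * Real.pi * α * y) - Real.cos (2 * Real.pi * β * y))
    (C := Real.pi * a * |α - β|) (fun y hy => by
      rw [uIoc_of_le (by linarith)] at hy
      have hy2 : |y| ≤ a / 2 := abs_le.2 ⟨hy.1.le, hy.2⟩
      rw [Real.norm_eq_abs]
      have e1 := Real.cos_sub_cos (2 * Real.pi * α * y) (2 * Real.pi * β * y)
      rw [e1, abs_mul, abs_mul]
      have e2 : (2 * Real.pi * α * y - 2 * Real.pi * β * y) / 2 = Real.pi * (α - β) * y := by ring
      rw [e2]
      have e3 := Real.abs_sin_le_one ((2 * Real.pi * α * y + 2 * Real.pi * β * y) / 2)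
      have e4 : |Real.sin (Real.pi * (α - β) * y)| ≤ Real.pi * |α - β| * |y| := by
        refine Real.abs_sin_le_abs.trans (le_of_eq ?_)
        rw [abs_mul, abs_mul, abs_of_pos hpi]
      rw [abs_neg, abs_of_pos (by norm_num : (0 : ℝ) < 2)]
      calc 2 * |Real.sin ((2 * Real.pi * α * y + 2 * Real.pi * β * y) / 2)| *
            |Real.sin (Real.pi * (α - β) * y)| ≤ 2 * 1 * (Real.pi * |α - β| * |y|) := by gcongr
        _ ≤ 2 * 1 * (Real.pi * |α - β| * (a / 2)) := by gcongr
        _ = Real.pi * a * |α - β| := by ring)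
  rw [Real.norm_eq_abs] at h
  refine h.trans (le_of_eq ?_)
  have e0 : a / 2 - -(a / 2) = a := by ring
  rw [e0, abs_of_nonneg ha]
  ring

/-- the transform of the smoothed window -/
noncomputable def ph (a α : ℝ) : ℝ := tt α * sa a α

/-- the smoothed window -/
noncomputable def bx (a x : ℝ) : ℝ := ∫ y in (-(a / 2))..(a / 2), FF (x + y)

lemma ph_cont (a : ℝ) : Continuous (ph a) := tt_cont.mul (sa_cont a)

lemma tt_even (α : ℝ) : tt (-α) = tt α := by unfold tt; rw [phi_even]

lemma ph_even (a α : ℝ) : ph a (-α) = ph a α := by unfold ph; rw [tt_even, sa_even]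

lemma tt_zero {α : ℝ} (h : 1 / 2 ≤ |α|) : tt α = 0 := by
  unfold tt; rw [phi_zero two_pos h]; norm_num

lemma ph_zero {a α : ℝ} (h : 1 / 2 ≤ |α|) : ph a α = 0 := by unfold ph; rw [tt_zero h]; ring

lemma tt_nonneg (α : ℝ) : 0 ≤ tt α := by rw [tt_eq]; exact tri_nonneg _

lemma tt_le_one (α : ℝ) : tt α ≤ 1 := by rw [tt_eq]; exact tri_le_one _

lemma tt_lip (α β : ℝ) : |tt α - tt β| ≤ 2 * |α - β| := by
  rw [tt_eq, tt_eq]
  refine (tri_lip _ _).trans (le_of_eq ?_)
  rw [← mul_sub, abs_mul, abs_of_pos (by norm_num : (0 : ℝ) < 2)]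

lemma ph_le {a : ℝ} (ha : 0 ≤ a) (α : ℝ) : |ph a α| ≤ a := by
  unfold ph
  rw [abs_mul, abs_of_nonneg (tt_nonneg α)]
  calc tt α * |sa a α| ≤ 1 * a := mul_le_mul (tt_le_one α) (sa_le ha α) (abs_nonneg _) zero_le_one
    _ = a := one_mul a

lemma ph_lip {a : ℝ} (ha : 0 ≤ a) (α β : ℝ) :
    |ph a α - ph a β| ≤ (Real.pi * a ^ 2 + 2 * a) * |α - β| := by
  have e : ph a α - ph a β = tt α * (sa a α - sa a β) + (tt α - tt β) * sa a β := by
    unfold ph; ring
  rw [e]
  refine (abs_add_le _ _).trans ?_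
  rw [abs_mul, abs_mul, abs_of_nonneg (tt_nonneg α)]
  have h1 : tt α * |sa a α - sa a β| ≤ 1 * (Real.pi * a ^ 2 * |α - β|) :=
    mul_le_mul (tt_le_one α) (sa_lip ha α β) (abs_nonneg _) zero_le_one
  have h2 : |tt α - tt β| * |sa a β| ≤ (2 * |α - β|) * a :=
    mul_le_mul (tt_lip α β) (sa_le ha β) (abs_nonneg _) (by positivity)
  linarith

/-- the smoothed window is the transform -/
lemma RR_ph (a x : ℝ) : RR (ph a) (1 / 2) x = bx a x := by
  unfold RR ph sa
  have e1 : ∀ α, tt α * (∫ y in (-(a / 2))..(a / 2), Real.cos (2 * Real.pi * α * y)) *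
      Real.cos (2 * Real.pi * α * x) = ∫ y in (-(a / 2))..(a / 2),
      tt α * Real.cos (2 * Real.pi * α * y) * Real.cos (2 * Real.pi * α * x) := by
    intro α
    rw [intervalIntegral.integral_mul_const, intervalIntegral.integral_const_mul]
  simp_rw [e1]
  have htc := tt_cont
  rw [intervalIntegral_intervalIntegral_swap]
  swap
  · have hc : Continuous (Function.uncurry fun α y : ℝ =>
        tt α * Real.cos (2 * Real.pi * α * y) * Real.cos (2 * Real.pi * α * x)) := by
      unfold Function.uncurry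
      fun_prop
    have hK : IsCompact (uIcc (-(1 / 2 : ℝ)) (1 / 2) ×ˢ uIcc (-(a / 2)) (a / 2)) :=
      isCompact_uIcc.prod isCompact_uIcc
    exact (hc.continuousOn.integrableOn_compact hK).mono_set
      (prod_mono uIoc_subset_uIcc uIoc_subset_uIcc)
  have e2 : ∀ y, ∫ α in (-(1 / 2 : ℝ))..(1 / 2),
      tt α * Real.cos (2 * Real.pi * α * y) * Real.cos (2 * Real.pi * α * x) =
      (FF (x + y) + FF (x - y)) / 2 := by
    intro y
    rw [← FF_RR, ← FF_RR, ← intervalIntegral.integral_add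
      (Continuous.intervalIntegrable (by fun_prop) _ _)
      (Continuous.intervalIntegrable (by fun_prop) _ _), ← intervalIntegral.integral_div]
    refine intervalIntegral.integral_congr fun α _ => ?_
    show tt α * Real.cos (2 * Real.pi * α * y) * Real.cos (2 * Real.pi * α * x) =
      (tt α * Real.cos (2 * Real.pi * α * (x + y)) + tt α * Real.cos (2 * Real.pi * α * (x - y))) / 2
    have h1 : 2 * Real.pi * α * (x + y) = 2 * Real.pi * α * x + 2 * Real.pi * α * y := by ring
    have h2 : 2 * Real.pi * α * (x - y) = 2 * Real.pi * α * x - 2 * Real.pi * α * y := by ring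
    rw [h1, h2, Real.cos_add, Real.cos_sub]
    ring
  simp_rw [e2]
  have hF := FF_cont
  have e3 : ∫ y in (-(a / 2))..(a / 2), (FF (x + y) + FF (x - y)) / 2 =
      ((∫ y in (-(a / 2))..(a / 2), FF (x + y)) + ∫ y in (-(a / 2))..(a / 2), FF (x - y)) / 2 := by
    rw [intervalIntegral.integral_div, intervalIntegral.integral_add
      (Continuous.intervalIntegrable (by fun_prop) _ _)
      (Continuous.intervalIntegrable (by fun_prop) _ _)]
  have e4 : ∫ y in (-(a / 2))..(a / 2), FF (x - y) = ∫ y in (-(a / 2))..(a / 2), FF (x + y) := by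
    have := intervalIntegral.integral_comp_neg (a := -(a / 2)) (b := a / 2) (fun y => FF (x + y))
    rw [neg_neg] at this
    rw [← this]
    rfl
  rw [e3, e4]
  unfold bx
  ring

/-- the constant of the decay -/
noncomputable def Ca (a : ℝ) : ℝ := 9 * a * (2 + a ^ 2 / 2)

lemma bx_cont (a : ℝ) : Continuous (bx a) := by
  have := RR_cont (μ := 1 / 2) (ph_cont a)
  have e : RR (ph a) (1 / 2) = bx a := funext (RR_ph a)
  rwa [e] at this

lemma bx_nonneg {a : ℝ} (ha : 0 ≤ a) (x : ℝ) : 0 ≤ bx a x :=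
  intervalIntegral.integral_nonneg (by linarith) fun y _ => FF_nonneg _

lemma bx_le {a : ℝ} (ha : 0 ≤ a) (x : ℝ) : bx a x ≤ Ca a / (1 + x ^ 2) := by
  unfold bx
  have hF := FF_cont
  have h1 : ∫ y in (-(a / 2))..(a / 2), FF (x + y) ≤
      ∫ y in (-(a / 2))..(a / 2), 9 * (2 + a ^ 2 / 2) / (1 + x ^ 2) := by
    apply intervalIntegral.integral_mono_on (by linarith)
    · exact Continuous.intervalIntegrable (by fun_prop) _ _
    · exact continuous_const.intervalIntegrable _ _
    · intro y hy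
      refine (FF_le _).trans ?_
      rw [div_le_div_iff₀ (by positivity) (by positivity)]
      have h2 : |y| ≤ a / 2 := abs_le.2 hy
      have h3 : y ^ 2 ≤ (a / 2) ^ 2 := by
        rw [← sq_abs]; exact pow_le_pow_left₀ (abs_nonneg _) h2 2
      have h4 : 1 + x ^ 2 ≤ 1 + 2 * (x + y) ^ 2 + 2 * y ^ 2 := by nlinarith [sq_nonneg (x + 2 * y)]
      nlinarith [sq_nonneg (x + y), sq_nonneg a, mul_nonneg (sq_nonneg a) (sq_nonneg (x + y))]
  refine h1.trans (le_of_eq ?_)
  rw [intervalIntegral.integral_const, smul_eq_mul]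
  unfold Ca
  ring

lemma ker_bx {a : ℝ} (ha : 0 ≤ a) : Ker (bx a) (Ca a) where
  cont := bx_cont a
  nonneg := bx_nonneg ha
  le := bx_le ha
  C0 := by unfold Ca; positivity

lemma RR_ph_dec {a : ℝ} (ha : 0 ≤ a) (x : ℝ) : |RR (ph a) (1 / 2) x| * x ^ 2 ≤ Ca a := by
  rw [RR_ph, abs_of_nonneg (bx_nonneg ha x)]
  have h := bx_le ha x
  have h2 := bx_nonneg ha x
  rw [le_div_iff₀ (by positivity)] at h
  nlinarith

lemma sa_zero (a : ℝ) : sa a 0 = a := by
  unfold sa
  simp

lemma bx_mass {a : ℝ} (ha : 0 ≤ a) : ∫ x, bx a x = a := by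
  have h := RR_inv (ph_cont a) (fun x hx => ph_zero hx) (RR_ph_dec ha) 0
  rw [evp_of_even (ph_even a)] at h
  have h2 : ph a 0 = a := by
    unfold ph
    rw [sa_zero, tt_eq, mul_zero, tri_eq (by simp)]
    simp
  rw [h2] at h
  refine Eq.trans ?_ h
  refine integral_congr_ae (Eventually.of_forall fun x => ?_)
  show bx a x = RR (ph a) (1 / 2) x * Real.cos (2 * Real.pi * x * 0)
  rw [mul_zero, Real.cos_zero, mul_one, RR_ph]

lemma bx_conv {a : ℝ} (ha : 0 ≤ a) (x y : ℝ) :
    ∫ σ, bx a (x - σ) * bx a (y - σ) = RR (fun α => ph a α ^ 2) (1 / 2) (x - y) := by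
  have h := conv_sq (ph_cont a) (ph_even a) (fun x hx => ph_zero hx) (RR_ph_dec ha) (x - y)
  rw [← h]
  simp_rw [RR_ph]
  have h2 := integral_sub_left_eq_self (fun w => bx a w * bx a (x - y + w)) volume y
  rw [← h2]
  refine integral_congr_ae (Eventually.of_forall fun σ => ?_)
  show bx a (x - σ) * bx a (y - σ) = bx a (y - σ) * bx a (x - y + (y - σ))
  have : x - y + (y - σ) = x - σ := by ring
  rw [this, mul_comm]

lemma ph_sq_lip {a : ℝ} (ha : 0 ≤ a) (α β : ℝ) :
    |ph a α ^ 2 - ph a β ^ 2| ≤ (2 * a * (Real.pi * a ^ 2 + 2 * a)) * |α - β| := by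
  have e : ph a α ^ 2 - ph a β ^ 2 = (ph a α + ph a β) * (ph a α - ph a β) := by ring
  rw [e, abs_mul]
  have h1 : |ph a α + ph a β| ≤ 2 * a := by
    refine (abs_add_le _ _).trans ?_
    linarith [ph_le ha α, ph_le ha β]
  calc |ph a α + ph a β| * |ph a α - ph a β| ≤
      (2 * a) * ((Real.pi * a ^ 2 + 2 * a) * |α - β|) := by
        apply mul_le_mul h1 (ph_lip ha α β) (abs_nonneg _) (by positivity)
    _ = _ := by ring

lemma ph_sq_dec {a : ℝ} (ha : 0 ≤ a) (x : ℝ) :
    |RR (fun α => ph a α ^ 2) (1 / 2) x| * x ^ 2 ≤ 8 * Real.pi * Ca a ^ 2 := by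
  have h := conv_sq (ph_cont a) (ph_even a) (fun x hx => ph_zero hx) (RR_ph_dec ha) x
  rw [← h]
  simp_rw [RR_ph]
  refine conv_decay (by unfold Ca; positivity) (fun y => ?_) x
  rw [abs_of_nonneg (bx_nonneg ha y)]
  exact bx_le ha y

/-- the energy -/
noncomputable def En (a : ℝ) : ℝ := ∫ α in (-(1 / 2 : ℝ))..(1 / 2), |α| * ph a α ^ 2

lemma En_le {a : ℝ} (ha : 0 ≤ a) : En a ≤ a := by
  unfold En
  have hpi := Real.pi_gt_three
  have hc : Continuous fun α => |α| * ph a α ^ 2 := continuous_abs.mul ((ph_cont a).pow 2)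
  have h1 : ∫ α in (-(1 / 2 : ℝ))..(1 / 2), |α| * ph a α ^ 2 ≤
      ∫ α in (-(1 / 2 : ℝ))..(1 / 2), a := by
    apply intervalIntegral.integral_mono_on (by norm_num)
    · exact hc.intervalIntegrable _ _
    · exact continuous_const.intervalIntegrable _ _
    · intro α _
      unfold ph
      have h2 := sa_sin a α
      have h3 := Real.abs_sin_le_one (Real.pi * a * α)
      rw [← h2, abs_mul, abs_mul, abs_of_pos Real.pi_pos] at h3
      have h4 := sa_le ha α
      have h5 := tt_nonneg α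
      have h6 := tt_le_one α
      have h7 : |α| * |sa a α| ≤ 1 := by
        have : 0 ≤ |α| * |sa a α| := by positivity
        nlinarith
      calc |α| * (tt α * sa a α) ^ 2 = tt α ^ 2 * ((|α| * |sa a α|) * |sa a α|) := by
            rw [mul_pow, ← sq_abs (sa a α)]; ring
        _ ≤ 1 * (1 * a) := by
            apply mul_le_mul _ _ (by positivity) zero_le_one
            · exact pow_le_one₀ h5 h6
            · exact mul_le_mul h7 h4 (abs_nonneg _) zero_le_one
        _ = a := by ring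
  refine h1.trans (le_of_eq ?_)
  rw [intervalIntegral.integral_const, smul_eq_mul]
  ring

lemma En_ge (N : ℕ) (hN : 1 ≤ N) :
    (1 / (8 * Real.pi ^ 2)) * ∑ k ∈ Finset.range N, 1 / ((k : ℝ) + 1) ≤ En (4 * N) := by
  have hpi := Real.pi_pos
  have hN0 : (0 : ℝ) < N := by exact_mod_cast hN
  set a : ℝ := 4 * N with ha
  have ha0 : 0 < a := by positivity
  set g : ℝ → ℝ := fun α => |α| * ph a α ^ 2 with hg
  have hc : Continuous g := continuous_abs.mul ((ph_cont a).pow 2)
  have hg0 : ∀ α, 0 ≤ g α := fun α => by simp only [hg]; positivity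
  have h1 : ∫ α in (0 : ℝ)..(1 / 4), g α ≤ En a := by
    unfold En
    apply intervalIntegral.integral_mono_interval (by norm_num) (by norm_num) (by norm_num)
      (Eventually.of_forall fun α => hg0 α) (hc.intervalIntegrable _ _)
  refine le_trans ?_ h1
  have h2 : ∑ k ∈ Finset.range N, ∫ α in ((k : ℝ) / a)..(((k + 1 : ℕ) : ℝ) / a), g α =
      ∫ α in (0 : ℝ)..(1 / 4), g α := by
    have h3 := intervalIntegral.sum_integral_adjacent_intervals (μ := volume) (f := g)
      (a := fun k : ℕ => (k : ℝ) / a) (n := N) (fun k _ => hc.intervalIntegrable _ _)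
    rw [h3]
    have e1 : ((0 : ℕ) : ℝ) / a = 0 := by simp
    have e2 : (N : ℝ) / a = 1 / 4 := by rw [ha]; field_simp
    rw [e1, e2]
  rw [← h2, Finset.mul_sum]
  refine Finset.sum_le_sum fun k hk => ?_
  have hkN : ((k : ℝ) + 1) ≤ N := by
    have := Finset.mem_range.1 hk
    exact_mod_cast this
  have hk0 : (0 : ℝ) ≤ k := Nat.cast_nonneg k
  have h3 : ∫ α in ((k : ℝ) / a)..(((k + 1 : ℕ) : ℝ) / a), Real.sin (Real.pi * a * α) ^ 2 =
      1 / (2 * a) := by
    have h4 := intervalIntegral.integral_comp_mul_left (a := (k : ℝ) / a)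
      (b := ((k + 1 : ℕ) : ℝ) / a) (fun z => Real.sin z ^ 2)
      (by positivity : Real.pi * a ≠ 0)
    rw [h4, integral_sin_sq, smul_eq_mul]
    have e1 : Real.pi * a * ((k : ℝ) / a) = k * Real.pi := by field_simp
    have e2 : Real.pi * a * (((k + 1 : ℕ) : ℝ) / a) = ((k + 1 : ℕ) : ℝ) * Real.pi := by field_simp
    rw [e1, e2, Real.sin_nat_mul_pi, Real.sin_nat_mul_pi]
    push_cast
    field_simp
    ring
  have h4 : 1 / (8 * Real.pi ^ 2) * (1 / ((k : ℝ) + 1)) =
      (a / (4 * Real.pi ^ 2 * (k + 1))) * (1 / (2 * a)) := by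
    field_simp
    norm_num
  rw [h4, ← h3, ← intervalIntegral.integral_const_mul]
  have hle : (k : ℝ) / a ≤ ((k + 1 : ℕ) : ℝ) / a := by
    apply div_le_div_of_nonneg_right _ ha0.le
    push_cast; linarith
  apply intervalIntegral.integral_mono_on hle
  · exact Continuous.intervalIntegrable (by fun_prop) _ _
  · exact hc.intervalIntegrable _ _
  · intro α hα
    have hα0 : 0 ≤ α := le_trans (by positivity) hα.1
    have hα1 : α ≤ (k + 1) / a := by have := hα.2; push_cast at this; exact this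
    have hα2 : α ≤ 1 / 4 := by
      refine hα1.trans ?_
      rw [div_le_iff₀ ha0, ha]
      linarith
    simp only [hg, ph]
    have h5 := sa_sin a α
    have h6 : (1 : ℝ) / 2 ≤ tt α := by
      rw [tt_eq, tri_eq (by rw [abs_of_nonneg (by linarith)]; linarith),
        abs_of_nonneg (by linarith)]
      linarith
    rw [← h5, abs_of_nonneg hα0]
    have h7 : (1 / 2 : ℝ) ^ 2 ≤ tt α ^ 2 := pow_le_pow_left₀ (by norm_num) h6 2
    have h8 : α * a ≤ k + 1 := by rwa [le_div_iff₀ ha0] at hα1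
    calc a / (4 * Real.pi ^ 2 * (k + 1)) * (Real.pi * α * sa a α) ^ 2 =
        (α * a) / (k + 1) * ((1 / 2) ^ 2 * (α * sa a α ^ 2)) := by
          field_simp
          ring
      _ ≤ 1 * (tt α ^ 2 * (α * sa a α ^ 2)) := by
          apply mul_le_mul _ _ (by positivity) zero_le_one
          · rw [div_le_one (by positivity)]; exact h8
          · gcongr
      _ = α * (tt α * sa a α) ^ 2 := by ring

/-- the energy is unbounded -/
lemma En_unbounded (K : ℝ) : ∃ a : ℝ, 1 ≤ a ∧ K ≤ En a := by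
  have hpi := Real.pi_pos
  have h := Real.tendsto_sum_range_one_div_nat_succ_atTop
  obtain ⟨N, h1, h2⟩ := ((h.eventually_ge_atTop (K * (8 * Real.pi ^ 2))).and
    (eventually_ge_atTop 1)).exists
  refine ⟨4 * N, ?_, le_trans ?_ (En_ge N h2)⟩
  · have : (1 : ℝ) ≤ N := by exact_mod_cast h2
    linarith
  · rw [div_mul_eq_mul_div, one_mul, le_div_iff₀ (by positivity)]
    exact h1

end Pool.Agent.Helper65.LR
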