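import Pool.Agent.Helper65.LR.Win
import Pool.Agent.Helper65.LR.Full
import Pool.Agent.Helper65.NR.Block

set_option autoImplicit false

/-! # The number of zeros in microscopic windows: law of large numbers, unbounded variance -/

namespace Pool.Agent.Helper65.LR

open MeasureTheory Set Filter Topology
open H370 H370.A2
open Pool.Agent.Helper65.NR (Ker Ys Ys_cont Ys_int Ys_nonneg Ys_sq_int Ys_le Ys_sq block_var' uu ww
  ww_nonneg sum_ww)

section abstract

variable {ι : Type*} {Z : Finset ι} {u w : ι → ℝ} {G : ℝ → ℝ} {C : ℝ}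

lemma Ys_total (h : Ker G C) : ∫ σ, Ys Z u w G σ = (∑ i ∈ Z, w i) * ∫ x, G x := by
  unfold Ys
  rw [integral_finsetSum _ fun i _ => (h.int_shift (u i)).const_mul (w i), Finset.sum_mul]
  refine Finset.sum_congr rfl fun i _ => ?_
  rw [integral_const_mul, h.int_shift_eq]

/-- the smooth sum outside of the block -/
lemma tail_sq (h : Ker G C) (hw : ∀ i, 0 ≤ w i) {α β K S : ℝ} (hK : 0 < K) (hαβ : α ≤ β)
    (hu : ∀ i ∈ Z, α ≤ u i ∧ u i ≤ β) (hS : ∀ σ, Ys Z u w G σ ≤ S) :
    ∫ σ in (Icc α β)ᶜ, Ys Z u w G σ ^ 2 ≤ S * (2 * K * S + (∑ i ∈ Z, w i) * (2 * C / K)) := by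
  set Y := Ys Z u w G with hY
  set W := ∑ i ∈ Z, w i with hW
  have hYc : Continuous Y := Ys_cont h
  have hY0 : ∀ σ, 0 ≤ Y σ := fun σ => Ys_nonneg h hw σ
  have hS0 : 0 ≤ S := (hY0 0).trans (hS 0)
  have hYi : Integrable Y := Ys_int h
  have h1 : ∫ σ in (Icc α β)ᶜ, Y σ ^ 2 ≤ ∫ σ in (Icc α β)ᶜ, S * Y σ := by
    refine setIntegral_mono_on (Ys_sq_int h hw).integrableOn (hYi.const_mul S).integrableOn
      measurableSet_Icc.compl fun σ _ => ?_
    rw [pow_two]
    exact mul_le_mul_of_nonneg_right (hS σ) (hY0 σ)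
  refine h1.trans ?_
  rw [integral_const_mul]
  refine mul_le_mul_of_nonneg_left ?_ hS0
  have h2 := integral_add_compl (μ := volume) (s := Icc α β) measurableSet_Icc hYi
  have h3 : ∫ σ, Y σ = W * ∫ x, G x := Ys_total h
  have h4 : W * ((∫ x, G x) - 2 * C / K) ≤ ∫ σ in Icc (α - K) (β + K), Y σ := by
    simp only [hY]
    unfold Ys
    rw [integral_finsetSum _ fun i _ => ((h.int_shift (u i)).const_mul (w i)).integrableOn,
      hW, Finset.sum_mul]
    refine Finset.sum_le_sum fun i hi => ?_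
    rw [integral_const_mul]
    exact mul_le_mul_of_nonneg_left (h.mass hK (hu i hi).1 (hu i hi).2) (hw i)
  have h5 : ∫ σ in Icc (α - K) (β + K), Y σ ≤ (∫ σ in Icc α β, Y σ) + 2 * K * S := by
    rw [integral_Icc_eq_integral_Ioc, integral_Icc_eq_integral_Ioc,
      ← intervalIntegral.integral_of_le (by linarith), ← intervalIntegral.integral_of_le hαβ]
    have e1 := intervalIntegral.integral_add_adjacent_intervals
      (hYc.intervalIntegrable (μ := volume) (α - K) α) (hYc.intervalIntegrable (μ := volume) α β)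
    have e2 := intervalIntegral.integral_add_adjacent_intervals
      (hYc.intervalIntegrable (μ := volume) (α - K) β)
      (hYc.intervalIntegrable (μ := volume) β (β + K))
    have e3 : ∫ σ in (α - K)..α, Y σ ≤ K * S := by
      have := intervalIntegral.integral_mono_on (by linarith) (hYc.intervalIntegrable (α - K) α)
        (continuous_const.intervalIntegrable (μ := volume) (α - K) α) (fun σ _ => hS σ)
      refine this.trans (le_of_eq ?_)
      rw [intervalIntegral.integral_const, smul_eq_mul]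
      ring
    have e4 : ∫ σ in β..(β + K), Y σ ≤ K * S := by
      have := intervalIntegral.integral_mono_on (by linarith) (hYc.intervalIntegrable β (β + K))
        (continuous_const.intervalIntegrable (μ := volume) β (β + K)) (fun σ _ => hS σ)
      refine this.trans (le_of_eq ?_)
      rw [intervalIntegral.integral_const, smul_eq_mul]
      ring
    linarith
  linarith

/-- a lower bound for the variance of the smooth sum -/
theorem block_low (h : Ker G C) (hw : ∀ i, 0 ≤ w i) {α β K S : ℝ} (hK : 0 < K) (hαβ : α ≤ β)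
    (hu : ∀ i ∈ Z, α ≤ u i ∧ u i ≤ β) (hS : ∀ σ, Ys Z u w G σ ≤ S) :
    (∫ σ, Ys Z u w G σ ^ 2) - S * (2 * K * S + (∑ i ∈ Z, w i) * (2 * C / K)) -
      2 * (∫ x, G x) * ((∑ i ∈ Z, w i) * ∫ x, G x) + (∫ x, G x) ^ 2 * (β - α) ≤
    ∫ σ in Icc α β, (Ys Z u w G σ - ∫ x, G x) ^ 2 := by
  set m : ℝ := ∫ x, G x with hm
  have hm0 : 0 ≤ m := integral_nonneg h.nonneg
  set I : Set ℝ := Icc α β with hI
  have i1 : IntegrableOn (fun σ => Ys Z u w G σ ^ 2) I := (Ys_sq_int h hw).integrableOn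
  have i2 : IntegrableOn (fun σ => Ys Z u w G σ) I := (Ys_int h).integrableOn
  have i3 : IntegrableOn (fun _ : ℝ => m ^ 2) I :=
    integrableOn_const (by rw [Real.volume_Icc]; exact ENNReal.ofReal_ne_top)
  have e0 : (fun σ => (Ys Z u w G σ - m) ^ 2) =
      fun σ => (Ys Z u w G σ ^ 2 - (2 * m) * Ys Z u w G σ) + m ^ 2 := by
    funext σ; ring
  have h2 : ∫ σ in I, (Ys Z u w G σ - m) ^ 2 = (∫ σ in I, Ys Z u w G σ ^ 2) -
      2 * m * (∫ σ in I, Ys Z u w G σ) + m ^ 2 * (β - α) := by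
    have k1 : ∫ σ in I, ((Ys Z u w G σ ^ 2 - (2 * m) * Ys Z u w G σ) + m ^ 2) =
        (∫ σ in I, (Ys Z u w G σ ^ 2 - (2 * m) * Ys Z u w G σ)) + ∫ σ in I, m ^ 2 :=
      integral_add (i1.sub (i2.const_mul (2 * m))) i3
    have k2 : ∫ σ in I, (Ys Z u w G σ ^ 2 - (2 * m) * Ys Z u w G σ) =
        (∫ σ in I, Ys Z u w G σ ^ 2) - ∫ σ in I, (2 * m) * Ys Z u w G σ :=
      integral_sub i1 (i2.const_mul (2 * m))
    have k3 : ∫ σ in I, m ^ 2 = m ^ 2 * (β - α) := by
      rw [integral_const, smul_eq_mul, Measure.real, Measure.restrict_apply_univ, hI,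
        Real.volume_Icc, ENNReal.toReal_ofReal (by linarith)]
      ring
    rw [e0, k1, k2, k3, integral_const_mul]
  have h3 := integral_add_compl (μ := volume) (s := I) measurableSet_Icc
    (Ys_sq_int (Z := Z) (u := u) h hw)
  have h4 := tail_sq h hw hK hαβ hu hS
  have h5 : ∫ σ in I, Ys Z u w G σ ≤ (∑ i ∈ Z, w i) * m := by
    rw [← Ys_total (Z := Z) (u := u) (w := w) h]
    exact setIntegral_le_integral (Ys_int h) (Eventually.of_forall fun σ => Ys_nonneg h hw σ)
  have h6 : 2 * m * (∫ σ in I, Ys Z u w G σ) ≤ 2 * m * ((∑ i ∈ Z, w i) * m) :=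
    mul_le_mul_of_nonneg_left h5 (by positivity)
  linarith

/-- the first absolute moment of the sharp window -/
theorem sharp_abs (hw : ∀ i, 0 ≤ w i) {α β a m0 D κ : ℝ} (ha : 0 ≤ a) (hm0 : 36 ≤ m0)
    (haD : a ≤ D) (hκ : 0 < κ) (hαβ : α ≤ β) (hu : ∀ i ∈ Z, α ≤ u i ∧ u i ≤ β) :
    ∫ τ in Icc (α - a) β, |XX Z u w a τ - a| ≤
      2 * κ * (β - α + a) + 2 / κ * (∫ σ in Icc (α - D) (β + D),
        (Ys Z u w (bx (a + 2 * m0)) σ - (a + 2 * m0)) ^ 2) +
      (4 * (18 / m0) * (a + 2 * m0) + 4 * m0) * (β - α + a) - a * (∑ i ∈ Z, w i) +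
      a * (β - α + a) := by
  set b := a + 2 * m0 with hb
  set η := 18 / m0 with hη
  have hb0 : 0 ≤ b := by rw [hb]; linarith
  have hη0 : 0 ≤ η := by positivity
  have hη1 : η ≤ 1 / 2 := by rw [hη, div_le_iff₀ (by linarith)]; linarith
  set Y := Ys Z u w (bx b) with hY
  have hYc : Continuous Y := Ys_cont (ker_bx hb0)
  have hY0 : ∀ σ, 0 ≤ Y σ := fun σ => Ys_nonneg (ker_bx hb0) hw σ
  set I : Set ℝ := Icc (α - a) β with hI
  have hIf : volume I ≠ ⊤ := by rw [hI, Real.volume_Icc]; exact ENNReal.ofReal_ne_top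
  have iX : IntegrableOn (XX Z u w a) I := by
    refine Measure.integrableOn_of_bounded (M := ∑ i ∈ Z, w i) hIf
      (XX_meas a).aestronglyMeasurable (Eventually.of_forall fun τ => ?_)
    rw [Real.norm_of_nonneg (XX_nonneg hw a τ)]
    exact XX_le hw a τ
  have ic : ∀ c : ℝ, IntegrableOn (fun _ : ℝ => c) I := fun c => integrableOn_const hIf
  have iXa : IntegrableOn (fun τ => XX Z u w a τ - a) I := iX.sub (ic a)
  have hYc2 : Continuous fun τ => (Y (τ + a / 2) - b) ^ 2 := by fun_prop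
  have iY : IntegrableOn (fun τ => (Y (τ + a / 2) - b) ^ 2) I := hYc2.integrableOn_Icc
  set c1 : ℝ := 2 * κ + (4 * η * b + 4 * m0) with hc1
  have hpt : ∀ τ ∈ I, |XX Z u w a τ - a| ≤
      (c1 + (2 / κ) * (Y (τ + a / 2) - b) ^ 2) - (XX Z u w a τ - a) := by
    intro τ _
    have h1 := sharp_le (Z := Z) (u := u) hw ha (by linarith : 18 < m0) τ
    rw [← hη, ← hb] at h1
    have h1 : (1 - η) * XX Z u w a τ ≤ Y (τ + a / 2) := h1
    set X := XX Z u w a τ with hX
    set y := Y (τ + a / 2) with hy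
    have hX0 : 0 ≤ X := XX_nonneg hw a τ
    have hy0 : 0 ≤ y := hY0 _
    have h2 : X ≤ (1 + 2 * η) * y := by
      have e1 : (1 + 2 * η) * ((1 - η) * X) ≤ (1 + 2 * η) * y :=
        mul_le_mul_of_nonneg_left h1 (by positivity)
      have e2 : X ≤ (1 + 2 * η) * ((1 - η) * X) := by
        have : (1 + 2 * η) * ((1 - η) * X) = X + η * (1 - 2 * η) * X := by ring
        rw [this]
        have : 0 ≤ η * (1 - 2 * η) * X :=
          mul_nonneg (mul_nonneg hη0 (by linarith)) hX0
        linarith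
      linarith
    have h3 : |y - b| ≤ κ / 2 + (y - b) ^ 2 / (2 * κ) := by
      have e1 : 0 ≤ (|y - b| - κ) ^ 2 / (2 * κ) := by positivity
      have e2 : (|y - b| - κ) ^ 2 / (2 * κ) = (y - b) ^ 2 / (2 * κ) - |y - b| + κ / 2 := by
        rw [sub_sq, sq_abs]
        field_simp
      linarith
    have h4 : (1 + 2 * η) * (y - b) ≤ 2 * |y - b| := by
      have e1 := le_abs_self (y - b)
      have e2 := abs_nonneg (y - b)
      rcases le_total 0 (y - b) with h | h
      · rw [abs_of_nonneg h]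
        nlinarith
      · have : (1 + 2 * η) * (y - b) ≤ 0 := mul_nonpos_of_nonneg_of_nonpos (by linarith) h
        linarith
    have h5 : X - a ≤ 2 * |y - b| + 2 * η * b + 2 * m0 := by
      have : (1 + 2 * η) * y = (1 + 2 * η) * (y - b) + b + 2 * η * b := by ring
      have : b - a = 2 * m0 := by rw [hb]; ring
      linarith
    have h6 : 4 * |y - b| ≤ 2 * κ + 2 / κ * (y - b) ^ 2 := by
      have : 4 * (κ / 2 + (y - b) ^ 2 / (2 * κ)) = 2 * κ + 2 / κ * (y - b) ^ 2 := by
        field_simp; ring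
      linarith
    have h7 : 0 ≤ η * b := mul_nonneg hη0 hb0
    rw [hc1]
    rcases le_total 0 (X - a) with h | h
    · rw [abs_of_nonneg h]
      linarith
    · rw [abs_of_nonpos h]
      have : 0 ≤ 2 / κ * (y - b) ^ 2 := by positivity
      linarith
  have iR : IntegrableOn (fun τ => (c1 + (2 / κ) * (Y (τ + a / 2) - b) ^ 2) -
      (XX Z u w a τ - a)) I := ((ic c1).add (iY.const_mul (2 / κ))).sub iXa
  have h1 := setIntegral_mono_on iXa.abs iR measurableSet_Icc hpt
  refine h1.trans ?_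
  have e1 : ∫ τ in I, ((c1 + (2 / κ) * (Y (τ + a / 2) - b) ^ 2) - (XX Z u w a τ - a)) =
      (∫ τ in I, (c1 + (2 / κ) * (Y (τ + a / 2) - b) ^ 2)) - ∫ τ in I, (XX Z u w a τ - a) :=
    integral_sub ((ic c1).add (iY.const_mul (2 / κ))) iXa
  have e2 : ∫ τ in I, (c1 + (2 / κ) * (Y (τ + a / 2) - b) ^ 2) =
      (∫ τ in I, c1) + ∫ τ in I, (2 / κ) * (Y (τ + a / 2) - b) ^ 2 :=
    integral_add (ic c1) (iY.const_mul (2 / κ))
  have e3 : ∫ τ in I, (XX Z u w a τ - a) = (∫ τ in I, XX Z u w a τ) - ∫ τ in I, a :=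
    integral_sub iX (ic a)
  have e4 : ∀ c : ℝ, ∫ τ in I, c = c * (β - α + a) := by
    intro c
    rw [integral_const, smul_eq_mul, Measure.real, Measure.restrict_apply_univ, hI,
      Real.volume_Icc, ENNReal.toReal_ofReal (by linarith)]
    ring
  have e5 : ∫ τ in I, (Y (τ + a / 2) - b) ^ 2 ≤ ∫ σ in Icc (α - D) (β + D), (Y σ - b) ^ 2 := by
    have hYc3 : Continuous fun τ => (Y τ - b) ^ 2 := by fun_prop
    have k1 : ∫ τ in I, (Y (τ + a / 2) - b) ^ 2 =
        ∫ σ in Icc (α - a / 2) (β + a / 2), (Y σ - b) ^ 2 := by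
      rw [hI, integral_Icc_eq_integral_Ioc, integral_Icc_eq_integral_Ioc,
        ← intervalIntegral.integral_of_le (by linarith),
        ← intervalIntegral.integral_of_le (by linarith),
        intervalIntegral.integral_comp_add_right (fun σ => (Y σ - b) ^ 2)]
      congr 1
      ring
    rw [k1]
    refine setIntegral_mono_set hYc3.integrableOn_Icc (Eventually.of_forall fun σ => sq_nonneg _)
      ?_
    refine Filter.Eventually.of_forall fun σ hσ => ?_
    have hσ : σ ∈ Icc (α - a / 2) (β + a / 2) := hσ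
    exact ⟨by linarith [hσ.1], by linarith [hσ.2]⟩
  rw [e1, e2, e3, e4, e4, integral_const_mul, XX_integral ha hu]
  have e6 : 2 / κ * (∫ τ in I, (Y (τ + a / 2) - b) ^ 2) ≤
      2 / κ * ∫ σ in Icc (α - D) (β + D), (Y σ - b) ^ 2 :=
    mul_le_mul_of_nonneg_left e5 (by positivity)
  have e7 : c1 * (β - α + a) = 2 * κ * (β - α + a) + (4 * η * b + 4 * m0) * (β - α + a) := by
    rw [hc1]; ring
  linarith

end abstract

end Pool.Agent.Helper65.LR
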