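import Pool.Agent.Helper65.LR.Cnt

set_option autoImplicit false

/-! # The number of zeros in microscopic windows: law of large numbers, unbounded variance -/

namespace Pool.Agent.Helper65.LR

open MeasureTheory Set Filter Topology
open H370 H370.A2
open Pool.Agent.Helper65.NR (Ker Ys Ys_cont Ys_int Ys_nonneg Ys_sq_int Ys_le Ys_sq block_var' uu ww
  ww_nonneg sum_ww)

lemma Ys_sup : ∃ C : ℝ, 0 < C ∧ ∀ T : ℝ, 10 ≤ T → 2 * Real.pi ≤ Real.log T →
    ∀ A B : ℝ, T ≤ A → B ≤ 4 * T → ∀ a : ℝ, 0 ≤ a → ∀ σ : ℝ,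
    Ys (Zf riemannZeta A B) (uu (Real.log T)) ww (bx a) σ ≤ Ca a * (C * Real.log T) := by
  obtain ⟨C, hC, h⟩ := weight_sum good_zeta
  refine ⟨C, hC, fun T hT hL A B hA hB a ha σ => ?_⟩
  have hpi := Real.pi_pos
  have hL0 : 0 < Real.log T := by linarith
  have hCa : 0 ≤ Ca a := by unfold Ca; positivity
  have h1 := h T hT A B hA hB (σ * (2 * Real.pi) / Real.log T)
  refine le_trans ?_ (mul_le_mul_of_nonneg_left h1 hCa)
  unfold Ys
  rw [Finset.mul_sum]
  refine Finset.sum_le_sum fun s _ => ?_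
  have h2 := bx_le ha (uu (Real.log T) s - σ)
  have h3 : (s.im - σ * (2 * Real.pi) / Real.log T) ^ 2 ≤ (uu (Real.log T) s - σ) ^ 2 := by
    have e1 : uu (Real.log T) s - σ = (s.im - σ * (2 * Real.pi) / Real.log T) *
        (Real.log T / (2 * Real.pi)) := by
      unfold uu
      field_simp
    rw [e1, mul_pow]
    have e2 : 1 ≤ (Real.log T / (2 * Real.pi)) ^ 2 := by
      apply one_le_pow₀
      rw [le_div_iff₀ (by positivity)]
      linarith
    exact le_mul_of_one_le_right (sq_nonneg _) e2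
  have h4 : bx a (uu (Real.log T) s - σ) ≤
      Ca a * (1 / (1 + (s.im - σ * (2 * Real.pi) / Real.log T) ^ 2)) := by
    refine h2.trans ?_
    rw [mul_one_div]
    apply div_le_div_of_nonneg_left hCa (by positivity)
    linarith
  have h5 := ww_nonneg s
  calc ww s * bx a (uu (Real.log T) s - σ) ≤
      ww s * (Ca a * (1 / (1 + (s.im - σ * (2 * Real.pi) / Real.log T) ^ 2))) := by gcongr
    _ = Ca a * ((mult riemannZeta s : ℝ) *
        (1 / (1 + (s.im - σ * (2 * Real.pi) / Real.log T) ^ 2))) := by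
        unfold ww; ring

lemma XX_sup : ∃ C : ℝ, 0 < C ∧ ∀ T : ℝ, 10 ≤ T → ∀ A B : ℝ, T ≤ A → B ≤ 4 * T →
    ∀ a : ℝ, 0 ≤ a → 2 * Real.pi * a ≤ Real.log T → ∀ τ : ℝ,
    XX (Zf riemannZeta A B) (uu (Real.log T)) ww a τ ≤ C * Real.log T := by
  classical
  obtain ⟨C, hC, h⟩ := near_count good_zeta
  refine ⟨C, hC, fun T hT A B hA hB a ha haL τ => ?_⟩
  have hpi := Real.pi_pos
  have hL0 : 0 < Real.log T := Real.log_pos (by linarith)
  refine le_trans ?_ (h T hT A B hA hB (τ * (2 * Real.pi) / Real.log T))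
  unfold XX
  rw [Finset.sum_filter]
  refine Finset.sum_le_sum fun s _ => ?_
  by_cases hs : τ ∈ Ico (uu (Real.log T) s - a) (uu (Real.log T) s)
  · rw [indicator_of_mem hs, mul_one]
    obtain ⟨h1, h2⟩ := hs
    have e1 : uu (Real.log T) s * (2 * Real.pi) / Real.log T = s.im := by
      unfold uu; field_simp
    have h3 : τ * (2 * Real.pi) / Real.log T < s.im := by
      rw [← e1]
      gcongr
    have h4 : s.im ≤ τ * (2 * Real.pi) / Real.log T + 1 := by
      rw [← e1, div_add_one hL0.ne']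
      apply div_le_div_of_nonneg_right _ hL0.le
      nlinarith
    rw [if_pos ⟨by linarith, h4⟩]
    unfold ww
    exact le_rfl
  · rw [indicator_of_notMem hs, mul_zero]
    split_ifs
    · exact Nat.cast_nonneg _
    · exact le_rfl

/-- the mean square of the smoothed window is the pair sum -/
lemma sq_eq_PP {a A B L : ℝ} (ha : 0 ≤ a) (hA : 1 ≤ A) :
    ∫ σ, Ys (Zf riemannZeta A B) (uu L) ww (bx a) σ ^ 2 =
      H370.A2.PP (fun α => ph a α ^ 2) (1 / 2) A B L := by
  rw [Ys_sq (ker_bx ha)]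
  unfold H370.A2.PP
  rw [finsum_Zf good_zeta hA]
  refine Finset.sum_congr rfl fun s _ => ?_
  rw [finsum_Zf good_zeta hA]
  refine Finset.sum_congr rfl fun s' _ => ?_
  rw [bx_conv ha]
  unfold ww uu
  congr 2
  ring

lemma ph_zero_val (a : ℝ) : ph a 0 = a := by
  unfold ph
  rw [sa_zero, tt_eq, mul_zero, Pool.Agent.Helper65.NR.tri_eq (by simp)]
  simp

lemma uu_mem {A B L : ℝ} (hA : 1 ≤ A) (hL : 0 < L) {s : ℂ} (hs : s ∈ Zf riemannZeta A B) :
    A * L / (2 * Real.pi) ≤ uu L s ∧ uu L s ≤ B * L / (2 * Real.pi) := by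
  have hpi := Real.pi_pos
  rw [mem_Zf good_zeta hA] at hs
  obtain ⟨_, _, h3, h4, _⟩ := hs
  unfold uu
  constructor
  · gcongr
  · gcongr

/-- the pair sums, for the smoothed windows -/
lemma block_data (hRH : RiemannHypothesis) {a ε : ℝ} (ha : 0 ≤ a) (hε : 0 < ε) :
    ∀ᶠ T : ℝ in atTop,
      |(∑ s ∈ Zf riemannZeta (T + 1) (2 * T - 1), ww s) - (T - 2) * Real.log T / (2 * Real.pi)| ≤
        ε * ((T - 2) * Real.log T / (2 * Real.pi)) ∧
      |(∫ σ, Ys (Zf riemannZeta (T + 1) (2 * T - 1)) (uu (Real.log T)) ww (bx a) σ ^ 2) -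
        ((T - 2) * Real.log T / (2 * Real.pi)) * (a ^ 2 + En a)| ≤
        ε * ((T - 2) * Real.log T / (2 * Real.pi)) := by
  obtain ⟨T0, hT0, h⟩ := full_both hRH (1 / 2) ε (by norm_num) (by norm_num) hε
    (fun α => ph a α ^ 2) (2 * a * (Real.pi * a ^ 2 + 2 * a)) (ph_sq_lip ha)
    (fun x hx => by simp only [ph_zero hx]; norm_num) (8 * Real.pi * Ca a ^ 2) (ph_sq_dec ha)
  filter_upwards [eventually_ge_atTop T0] with T hT
  obtain ⟨h1, h2⟩ := h T hT
  have hT10 : 10 ≤ T := hT0.trans hT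
  rw [sum_ww (by linarith), sq_eq_PP ha (by linarith)]
  refine ⟨h1, ?_⟩
  rw [ph_zero_val] at h2
  exact h2

set_option maxHeartbeats 1000000 in
/-- **law of large numbers for the number of zeros in microscopic windows** -/
theorem lln_sigma (hRH : RiemannHypothesis) {ε : ℝ} (hε : 0 < ε) :
    ∀ᶠ a : ℝ in atTop, ∀ᶠ T : ℝ in atTop,
      ∫ τ in Icc ((T + 1) * Real.log T / (2 * Real.pi) - a)
        ((2 * T - 1) * Real.log T / (2 * Real.pi)),
        |XX (Zf riemannZeta (T + 1) (2 * T - 1)) (uu (Real.log T)) ww a τ - a| ≤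
      ε * a * ((T - 2) * Real.log T / (2 * Real.pi)) := by
  have hpi := Real.pi_pos
  set m0 : ℝ := max 36 (576 / ε) with hm0
  have hm036 : 36 ≤ m0 := le_max_left _ _
  have hm00 : 0 < m0 := by linarith
  have hη : 8 * (18 / m0) ≤ ε / 4 := by
    have : 576 / ε ≤ m0 := le_max_right _ _
    rw [div_le_iff₀ hε] at this
    rw [← mul_div_assoc, div_le_iff₀ hm00]
    linarith
  have ev : ∀ᶠ a : ℝ in atTop, 6 * Real.sqrt (a + 2 * m0 + 3) + 8 * m0 + 16 * (18 / m0) * m0 ≤
      ε / 4 * a := by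
    have e1 : Tendsto (fun a : ℝ => ε / 24 * a) atTop atTop :=
      tendsto_id.const_mul_atTop (by positivity)
    filter_upwards [eventually_ge_atTop (1 : ℝ), eventually_ge_atTop (2 * m0 + 3),
      e1.eventually_ge_atTop 0, eventually_ge_atTop (2 * (96 / ε) ^ 2),
      eventually_ge_atTop ((8 * m0 + 16 * (18 / m0) * m0) / (ε / 8))] with a h1 h2 h3 h4 h5
    have hs : Real.sqrt (a + 2 * m0 + 3) ≤ Real.sqrt (2 * a) := Real.sqrt_le_sqrt (by linarith)
    have hs2 : Real.sqrt (2 * a) * (96 / ε) ≤ 2 * a := by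
      have e2 : 96 / ε ≤ Real.sqrt (2 * a) := by
        apply Real.le_sqrt_of_sq_le
        have : 0 ≤ (96 / ε) ^ 2 := sq_nonneg _
        linarith
      calc Real.sqrt (2 * a) * (96 / ε) ≤ Real.sqrt (2 * a) * Real.sqrt (2 * a) := by gcongr
        _ = 2 * a := Real.mul_self_sqrt (by linarith)
    have hs3 : 6 * Real.sqrt (2 * a) ≤ ε / 8 * a := by
      have : Real.sqrt (2 * a) * (96 / ε) * (ε / 16) ≤ 2 * a * (ε / 16) := by gcongr
      have e : Real.sqrt (2 * a) * (96 / ε) * (ε / 16) = 6 * Real.sqrt (2 * a) := by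
        field_simp; ring
      rw [e] at this
      linarith
    rw [div_le_iff₀ (by positivity)] at h5
    linarith
  filter_upwards [ev, eventually_ge_atTop 1] with a ha1 ha2
  have ha0 : 0 < a := by linarith
  set b := a + 2 * m0 with hb
  have hb0 : 0 < b := by rw [hb]; linarith
  have hCb : 0 ≤ Ca b := by unfold Ca; positivity
  set D : ℝ := 1 + a + 8 * b * Ca b with hD
  have hD0 : 0 < D := by rw [hD]; positivity
  set ε1 : ℝ := min (min 1 (ε / 4)) (1 / (1 + 2 * b ^ 2)) with hε1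
  have hε10 : 0 < ε1 := lt_min (lt_min one_pos (by positivity)) (by positivity)
  have hε11 : ε1 ≤ 1 := (min_le_left _ _).trans (min_le_left _ _)
  have hε1ε : ε1 ≤ ε / 4 := (min_le_left _ _).trans (min_le_right _ _)
  have hε1b : ε1 * (1 + 2 * b ^ 2) ≤ 1 := by
    have h1 : ε1 ≤ 1 / (1 + 2 * b ^ 2) := min_le_right _ _
    rwa [le_div_iff₀ (by positivity)] at h1
  set κ : ℝ := Real.sqrt (b + 3) with hκ
  have hκ0 : 0 < κ := Real.sqrt_pos.2 (by linarith)
  have hκ2 : κ * κ = b + 3 := Real.mul_self_sqrt (by linarith)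
  have evM : Tendsto (fun T : ℝ => (T - 2) * Real.log T / (2 * Real.pi)) atTop atTop := by
    apply Tendsto.atTop_div_const (by positivity)
    exact (tendsto_atTop_add_const_right _ (-2) tendsto_id).atTop_mul_atTop₀
      Real.tendsto_log_atTop
  filter_upwards [block_data hRH hb0.le hε10, eventually_ge_atTop 10,
    evM.eventually_ge_atTop (2 * b ^ 2 * D + a + 4 * a / ε)] with T h1 hT10 h3
  obtain ⟨h1, h2⟩ := h1
  set L := Real.log T with hLd
  have hL0 : 0 < L := Real.log_pos (by linarith)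
  set Z := Zf riemannZeta (T + 1) (2 * T - 1) with hZ
  set M := (T - 2) * L / (2 * Real.pi) with hM
  set W := ∑ s ∈ Z, ww s with hW
  set α := (T + 1) * L / (2 * Real.pi) with hα
  set β := (2 * T - 1) * L / (2 * Real.pi) with hβ
  have hβα : β - α = M := by rw [hα, hβ, hM]; ring
  have q1 : 0 ≤ 2 * b ^ 2 * D := by positivity
  have q2 : 0 ≤ 4 * a / ε := by positivity
  have hM0 : 0 < M := by linarith
  have hMa : a ≤ M := by linarith
  have hMb : 2 * b ^ 2 * D ≤ M := by linarith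
  have hMε : a ≤ ε / 4 * M := by
    have : 4 * a / ε ≤ M := by linarith
    rw [div_le_iff₀ hε] at this
    linarith
  have hαβ : α ≤ β := by linarith
  have hu : ∀ s ∈ Z, α ≤ uu L s ∧ uu L s ≤ β := fun s hs => uu_mem (by linarith) hL0 hs
  obtain ⟨w1, w2⟩ := abs_le.1 h1
  obtain ⟨p1, p2⟩ := abs_le.1 h2
  -- the variance
  have hV : ∫ σ in Icc (α - D) (β + D), (Ys Z (uu L) ww (bx b) σ - b) ^ 2 ≤ M * (b + 3) := by
    have h5 := block_var' (Z := Z) (u := uu L) (w := ww) (ker_bx hb0.le) ww_nonneg hD0 hαβ hu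
    rw [bx_mass hb0.le] at h5
    refine h5.trans ?_
    have e1 := En_le hb0.le
    have e2 : b * (2 * Ca b / D) ≤ 1 / 4 := by
      rw [← mul_div_assoc, div_le_iff₀ hD0, hD]
      nlinarith
    have hW2 : W ≤ 2 * M := by
      have : ε1 * M ≤ 1 * M := by gcongr
      linarith
    have hW0 : 0 ≤ W := Finset.sum_nonneg fun s _ => ww_nonneg s
    have e3 : 2 * b * (W * (b - 2 * Ca b / D)) = 2 * b ^ 2 * W - 2 * W * (b * (2 * Ca b / D)) := by
      ring
    rw [e3, hβα]
    have e4 : 2 * W * (b * (2 * Ca b / D)) ≤ 2 * (2 * M) * (1 / 4) := by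
      apply mul_le_mul (by linarith) e2 (by positivity) (by positivity)
    have e5 : 2 * b ^ 2 * ((1 - ε1) * M) ≤ 2 * b ^ 2 * W := by
      apply mul_le_mul_of_nonneg_left _ (by positivity)
      linarith
    have e6 : M * (En b) ≤ M * b := mul_le_mul_of_nonneg_left e1 hM0.le
    have e7 : (ε1 * (1 + 2 * b ^ 2)) * M ≤ 1 * M := mul_le_mul_of_nonneg_right hε1b hM0.le
    linarith
  have h5 := sharp_abs (Z := Z) (u := uu L) (w := ww) (D := D) (κ := κ) ww_nonneg ha0.le hm036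
    (by rw [hD]; nlinarith [mul_nonneg hb0.le hCb]) hκ0 hαβ hu
  refine h5.trans ?_
  rw [← hb, hβα]
  have e1 : 2 * κ * (M + a) ≤ 2 * κ * (2 * M) := by gcongr; linarith
  have e2 : 2 / κ * (∫ σ in Icc (α - D) (β + D), (Ys Z (uu L) ww (bx b) σ - b) ^ 2) ≤
      2 * κ * M := by
    calc _ ≤ 2 / κ * (M * (b + 3)) := by gcongr
      _ = 2 * κ * M := by rw [← hκ2]; field_simp
  have hη0 : 0 ≤ 18 / m0 := by positivity
  have e3 : (4 * (18 / m0) * b + 4 * m0) * (M + a) ≤ (4 * (18 / m0) * b + 4 * m0) * (2 * M) := by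
    gcongr; linarith
  have e4 : a * ((1 - ε1) * M) ≤ a * W := by
    apply mul_le_mul_of_nonneg_left _ ha0.le
    linarith
  have e5 : a * (ε1 * M) ≤ a * (ε / 4 * M) := by gcongr
  have e6 : a * a ≤ a * (ε / 4 * M) := by gcongr
  have e7 : (6 * κ + 8 * m0 + 16 * (18 / m0) * m0) * M ≤ (ε / 4 * a) * M := by
    gcongr
  have e8 : 8 * (18 / m0) * a * M ≤ ε / 4 * a * M := by gcongr
  have e9 : (4 * (18 / m0) * b + 4 * m0) * (2 * M) =
      8 * (18 / m0) * a * M + (8 * m0 + 16 * (18 / m0) * m0) * M := by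
    rw [hb]; ring
  linarith

set_option maxHeartbeats 1000000 in
/-- **the number variance is unbounded** -/
theorem var_sigma (hRH : RiemannHypothesis) (K : ℝ) : ∃ a : ℝ, 1 ≤ a ∧ ∀ᶠ T : ℝ in atTop,
    K * ((T - 2) * Real.log T / (2 * Real.pi)) ≤
      ∫ τ in Icc ((T + 1) * Real.log T / (2 * Real.pi))
        ((2 * T - 1) * Real.log T / (2 * Real.pi) - a),
        (XX (Zf riemannZeta (T + 1) (2 * T - 1)) (uu (Real.log T)) ww a τ - a) ^ 2 := by
  have hpi := Real.pi_pos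
  obtain ⟨a, ha1, haK⟩ := En_unbounded (K + 4)
  refine ⟨a, ha1, ?_⟩
  have ha0 : 0 < a := by linarith
  obtain ⟨Cw, hCw, hYs⟩ := Ys_sup
  obtain ⟨Cn, hCn, hXX⟩ := XX_sup
  have hCa : 0 ≤ Ca a := by unfold Ca; positivity
  set D : ℝ := a + 18 * a ^ 2 with hD
  have hD0 : 0 < D := by positivity
  set ε1 : ℝ := 1 / (1 + 2 * a ^ 2) with hε1
  have hε10 : 0 < ε1 := by positivity
  have hε1a : ε1 * (1 + 2 * a ^ 2) = 1 := by rw [hε1]; field_simp
  have hε11 : ε1 ≤ 1 := by
    rw [hε1, div_le_one (by positivity)]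
    nlinarith
  -- growth
  have ev1 : ∀ᶠ T : ℝ in atTop, 4 * Ca a * Cw * (2 * Ca a) ≤ Real.log T :=
    Real.tendsto_log_atTop.eventually_ge_atTop _
  have ev2 : ∀ᶠ T : ℝ in atTop, 2 * Real.pi * a + 2 * Real.pi + 1 ≤ Real.log T :=
    Real.tendsto_log_atTop.eventually_ge_atTop _
  set c0 : ℝ := 2 * (Ca a * Cw) ^ 2 + (3 * D + a) * (Cn + a) ^ 2 with hc0
  have hc00 : 0 ≤ c0 := by positivity
  have ev3 : ∀ᶠ T : ℝ in atTop, c0 * Real.log T ^ 4 ≤ (T - 2) * Real.log T / (2 * Real.pi) := by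
    have e1 := Real.isLittleO_pow_log_id_atTop (n := 3)
    have e2 := e1.bound (show (0 : ℝ) < 1 / (4 * Real.pi * (c0 + 1)) by positivity)
    filter_upwards [e2, eventually_ge_atTop 4, ev2] with T h1 h2 h3
    have hL1 : 0 < Real.log T := by nlinarith
    rw [Real.norm_of_nonneg (by positivity), id, Real.norm_of_nonneg (by linarith),
      div_mul_eq_mul_div, one_mul, le_div_iff₀ (by positivity)] at h1
    rw [le_div_iff₀ (by positivity)]
    have h4 : c0 * Real.log T ^ 3 * (2 * Real.pi) ≤ T - 2 := by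
      have h5 : 0 ≤ Real.log T ^ 3 * (4 * Real.pi) := by positivity
      have h6 : Real.log T ^ 3 * (4 * Real.pi * (c0 + 1)) =
          2 * (c0 * Real.log T ^ 3 * (2 * Real.pi)) + Real.log T ^ 3 * (4 * Real.pi) := by ring
      linarith
    calc c0 * Real.log T ^ 4 * (2 * Real.pi) = (c0 * Real.log T ^ 3 * (2 * Real.pi)) * Real.log T := by
          ring
      _ ≤ (T - 2) * Real.log T := by gcongr
  filter_upwards [block_data hRH ha0.le hε10, eventually_ge_atTop 10, ev1, ev2, ev3]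
    with T h1 hT10 hL4 hL2 hL3
  obtain ⟨h1, h2⟩ := h1
  set L := Real.log T with hLd
  have hpia : 0 ≤ 2 * Real.pi * a := by positivity
  have hL1 : 1 ≤ L := by linarith
  have hL0 : 0 < L := by linarith
  set Z := Zf riemannZeta (T + 1) (2 * T - 1) with hZ
  set M := (T - 2) * L / (2 * Real.pi) with hM
  set W := ∑ s ∈ Z, ww s with hW
  set α := (T + 1) * L / (2 * Real.pi) with hα
  set β := (2 * T - 1) * L / (2 * Real.pi) with hβ
  have hβα : β - α = M := by rw [hα, hβ, hM]; ring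
  have hM0 : 0 ≤ M := le_trans (by positivity) hL3
  have hαβ : α ≤ β := by linarith
  have hu : ∀ s ∈ Z, α ≤ uu L s ∧ uu L s ≤ β := fun s hs => uu_mem (by linarith) hL0 hs
  obtain ⟨w1, w2⟩ := abs_le.1 h1
  obtain ⟨p1, p2⟩ := abs_le.1 h2
  have hW0 : 0 ≤ W := Finset.sum_nonneg fun s _ => ww_nonneg s
  have hW2 : W ≤ 2 * M := by
    have : ε1 * M ≤ 1 * M := by gcongr
    linarith
  set S : ℝ := Ca a * (Cw * L) with hS
  have hS0 : 0 ≤ S := by positivity
  have hYS : ∀ σ, Ys Z (uu L) ww (bx a) σ ≤ S :=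
    hYs T hT10 (by linarith) (T + 1) (2 * T - 1) (by linarith) (by linarith) a ha0.le
  have hXS : ∀ τ, XX Z (uu L) ww a τ ≤ Cn * L :=
    hXX T hT10 (T + 1) (2 * T - 1) (by linarith) (by linarith) a ha0.le (by linarith)
  have h5 := block_low (Z := Z) (u := uu L) (w := ww) (ker_bx ha0.le) ww_nonneg
    (by positivity : 0 < L ^ 2) hαβ hu hYS
  rw [bx_mass ha0.le, hβα] at h5
  have h6 := smooth_le_sharp (Z := Z) (u := uu L) (w := ww) ww_nonneg ha0
    (by rw [hD]; nlinarith : a ≤ D) hαβ hu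
  rw [hβα] at h6
  -- the edges
  set f : ℝ → ℝ := fun τ => (XX Z (uu L) ww a τ - a) ^ 2 with hf
  have hfb : ∀ τ, f τ ≤ (Cn * L + a) ^ 2 := by
    intro τ
    have e1 := XX_nonneg (Z := Z) (u := uu L) ww_nonneg a τ
    have e2 := hXS τ
    simp only [hf]
    rw [← sq_abs]
    apply pow_le_pow_left₀ (abs_nonneg _)
    rw [abs_le]
    constructor
    · have : 0 ≤ Cn * L := by positivity
      linarith
    · linarith
  have hfm : Measurable f := ((XX_meas a).sub_const a).pow_const 2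
  have hfi : ∀ x y : ℝ, IntervalIntegrable f volume x y := by
    intro x y
    rw [intervalIntegrable_iff]
    refine Measure.integrableOn_of_bounded (M := (Cn * L + a) ^ 2) ?_ hfm.aestronglyMeasurable
      (Eventually.of_forall fun τ => ?_)
    · rw [uIoc, Real.volume_Ioc]; exact ENNReal.ofReal_ne_top
    · rw [Real.norm_of_nonneg (sq_nonneg _)]; exact hfb τ
  have hMa : a ≤ M := by
    have e1 : a ^ 2 * 1 ≤ c0 * L ^ 4 := by
      have e2 : (1 : ℝ) ≤ L ^ 4 := one_le_pow₀ hL1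
      have e3 : a ^ 2 ≤ c0 := by
        rw [hc0]
        have : a ^ 2 ≤ (Cn + a) ^ 2 := by
          apply pow_le_pow_left₀ ha0.le
          linarith
        have e4 : 1 * (Cn + a) ^ 2 ≤ (3 * D + a) * (Cn + a) ^ 2 := by
          apply mul_le_mul_of_nonneg_right _ (sq_nonneg _)
          linarith
        have : 0 ≤ 2 * (Ca a * Cw) ^ 2 := by positivity
        linarith
      exact mul_le_mul e3 e2 zero_le_one hc00
    have e5 : a * 1 ≤ a * a := mul_le_mul_of_nonneg_left ha1 ha0.le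
    have e6 : a * a = a ^ 2 := (sq a).symm
    linarith
  have h7 : ∫ τ in Icc (α - 2 * D) (β + D), f τ ≤
      (∫ τ in Icc α (β - a), f τ) + (3 * D + a) * (Cn * L + a) ^ 2 := by
    rw [integral_Icc_eq_integral_Ioc, integral_Icc_eq_integral_Ioc,
      ← intervalIntegral.integral_of_le (by linarith),
      ← intervalIntegral.integral_of_le (by linarith)]
    have e1 := intervalIntegral.integral_add_adjacent_intervals (hfi (α - 2 * D) α)
      (hfi α (β - a))
    have e2 := intervalIntegral.integral_add_adjacent_intervals (hfi (α - 2 * D) (β - a))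
      (hfi (β - a) (β + D))
    have e3 : ∫ τ in (α - 2 * D)..α, f τ ≤ 2 * D * (Cn * L + a) ^ 2 := by
      have := intervalIntegral.integral_mono_on (by linarith) (hfi (α - 2 * D) α)
        (continuous_const.intervalIntegrable (μ := volume) _ _) (fun σ _ => hfb σ)
      refine this.trans (le_of_eq ?_)
      rw [intervalIntegral.integral_const, smul_eq_mul]
      ring
    have e4 : ∫ τ in (β - a)..(β + D), f τ ≤ (D + a) * (Cn * L + a) ^ 2 := by
      have := intervalIntegral.integral_mono_on (by linarith) (hfi (β - a) (β + D))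
        (continuous_const.intervalIntegrable (μ := volume) _ _) (fun σ _ => hfb σ)
      refine this.trans (le_of_eq ?_)
      rw [intervalIntegral.integral_const, smul_eq_mul]
      ring
    linarith
  -- the numbers
  have g1 : a ^ 2 * (18 / D) * M ≤ M := by
    have : a ^ 2 * (18 / D) ≤ 1 := by
      rw [← mul_div_assoc, div_le_one hD0, hD]
      linarith
    calc a ^ 2 * (18 / D) * M ≤ 1 * M := mul_le_mul_of_nonneg_right this hM0
      _ = M := one_mul M
  have g2 : S * (2 * L ^ 2 * S + W * (2 * Ca a / L ^ 2)) ≤ 2 * (Ca a * Cw) ^ 2 * L ^ 4 + M := by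
    have k1 : S * (2 * L ^ 2 * S) = 2 * (Ca a * Cw) ^ 2 * L ^ 4 := by rw [hS]; ring
    have k2 : S * (W * (2 * Ca a / L ^ 2)) ≤ M := by
      calc S * (W * (2 * Ca a / L ^ 2)) ≤ S * ((2 * M) * (2 * Ca a / L ^ 2)) := by gcongr
        _ = (4 * Ca a * Cw * Ca a / L) * M := by rw [hS]; field_simp; ring
        _ ≤ 1 * M := by
            apply mul_le_mul_of_nonneg_right _ hM0
            rw [div_le_one hL0]
            have : 0 ≤ 4 * Ca a * Cw * Ca a := by positivity
            linarith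
        _ = M := one_mul M
    rw [mul_add]
    linarith
  have g3 : (3 * D + a) * (Cn * L + a) ^ 2 ≤ (3 * D + a) * (Cn + a) ^ 2 * L ^ 4 := by
    have k1 : Cn * L + a ≤ (Cn + a) * L := by nlinarith
    have k2 : (Cn * L + a) ^ 2 ≤ ((Cn + a) * L) ^ 2 := pow_le_pow_left₀ (by positivity) k1 2
    have k3 : L ^ 2 ≤ L ^ 4 := pow_le_pow_right₀ hL1 (by norm_num)
    calc (3 * D + a) * (Cn * L + a) ^ 2 ≤ (3 * D + a) * ((Cn + a) * L) ^ 2 := by gcongr
      _ = (3 * D + a) * (Cn + a) ^ 2 * L ^ 2 := by ring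
      _ ≤ _ := by gcongr
  have g4 : 2 * (Ca a * Cw) ^ 2 * L ^ 4 + (3 * D + a) * (Cn + a) ^ 2 * L ^ 4 ≤ M := by
    have : 2 * (Ca a * Cw) ^ 2 * L ^ 4 + (3 * D + a) * (Cn + a) ^ 2 * L ^ 4 = c0 * L ^ 4 := by
      rw [hc0]; ring
    rw [this]
    exact hL3
  have g5 : 2 * a * (W * a) ≤ 2 * a * (((1 + ε1) * M) * a) := by
    gcongr
    linarith
  have g6 : ε1 * (1 + 2 * a ^ 2) * M = M := by rw [hε1a, one_mul]
  have g7 : (K + 4) * M ≤ En a * M := mul_le_mul_of_nonneg_right haK hM0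
  have g8 : 2 * a * (((1 + ε1) * M) * a) = 2 * a ^ 2 * M + 2 * a ^ 2 * ε1 * M := by ring
  have g9 : ε1 * (1 + 2 * a ^ 2) * M = ε1 * M + 2 * a ^ 2 * ε1 * M := by ring
  have g10 : M * (a ^ 2 + En a) = a ^ 2 * M + En a * M := by ring
  have h7' : ∫ τ in Icc (α - 2 * D) (β + D), (XX Z (uu L) ww a τ - a) ^ 2 ≤
      (∫ τ in Icc α (β - a), (XX Z (uu L) ww a τ - a) ^ 2) + (3 * D + a) * (Cn * L + a) ^ 2 := h7
  linarith

end Pool.Agent.Helper65.LR
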