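import Pool.Agent.Helper65.LR.Main

set_option autoImplicit false

/-! # No asymptotic linear relation between consecutive normalised gaps -/

namespace Pool.Agent.Helper65.LR

open MeasureTheory Set Filter Topology Polynomial
open SG (NZ ord)
open LG (dlt)
open Pool.Agent.Y743.LR (step_int step_le yv dif_yv dif dn dn_mono dn_union dn_biUnion dn_nonneg
  INull ITight hh Good good_ev gam_cube mom2 shift_int gam_le step_set cheb act act_mul
  act_X_sub_one sh sh_pow structure_thm Lam_mom)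

section null

variable {T : ℕ → ℝ} {ν : ℝ → ℕ}

lemma small_mul (hT : ∀ i, 0 < T i) {f : ℕ → ℕ → ℝ} (hf : ITight T ν f) {r : ℕ → ℝ}
    (hr : Tendsto r atTop (𝓝 0)) : INull T ν (fun i n => r i * f i n) := by
  refine INull.of_ev hT fun η hη k ε hε => ?_
  obtain ⟨K, hK, h⟩ := hf ε hε
  have h2 : ∀ᶠ i in atTop, |r i| < η / K := by
    have := (hr.abs).eventually_lt_const (show |(0 : ℝ)| < η / K by rw [abs_zero]; positivity)
    exact this
  filter_upwards [h k, h2] with i h3 h4
  refine (dn_mono hT i fun t _ _ ht => ?_).trans h3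
  have ht : η ≤ |r i * f i (ν t + k)| := ht
  show K ≤ |f i (ν t + k)|
  by_contra hcon
  push Not at hcon
  rw [abs_mul] at ht
  rw [lt_div_iff₀ hK] at h4
  have : |r i| * |f i (ν t + k)| ≤ |r i| * K := by gcongr
  linarith

lemma const_null (hT : ∀ i, 0 < T i) {r : ℕ → ℝ} (hr : Tendsto r atTop (𝓝 0)) :
    INull T ν (fun i _ => r i) := by
  refine INull.of_ev hT fun η hη k ε hε => ?_
  have h2 : ∀ᶠ i in atTop, |r i| < η := by
    have := (hr.abs).eventually_lt_const (show |(0 : ℝ)| < η by rw [abs_zero]; exact hη)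
    exact this
  filter_upwards [h2] with i h3
  refine (dn_mono hT i (F := ∅) fun t _ _ ht => ?_).trans
    (by rw [Pool.Agent.Y743.LR.dn_empty]; exact hε.le)
  have ht : η ≤ |r i| := ht
  linarith

/-- null plus tight is tight -/
lemma tight_of (hT : ∀ i, 0 < T i) {f g : ℕ → ℕ → ℝ} (hf : ITight T ν f)
    (hg : INull T ν (fun i n => g i n - f i n)) : ITight T ν g := by
  intro ε hε
  obtain ⟨K, hK, h⟩ := hf (ε / 2) (by positivity)
  refine ⟨K + 1, by positivity, fun k => ?_⟩
  filter_upwards [h k, hg.ev hT one_pos k (half_pos hε)] with i h1 h2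
  refine (dn_mono hT i (F := {t | K ≤ |f i (ν t + k)|} ∪ {t | 1 ≤ |g i (ν t + k) - f i (ν t + k)|})
    fun t _ _ ht => ?_).trans ((dn_union hT i _ _).trans (by linarith))
  have ht : K + 1 ≤ |g i (ν t + k)| := ht
  by_contra hcon
  rw [mem_union, not_or] at hcon
  have a1 : |f i (ν t + k)| < K := not_le.mp hcon.1
  have a2 : |g i (ν t + k) - f i (ν t + k)| < 1 := not_le.mp hcon.2
  have := abs_add_le (g i (ν t + k) - f i (ν t + k)) (f i (ν t + k))
  rw [sub_add_cancel] at this
  linarith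

lemma dn_univ (hT : ∀ i, 0 < T i) (i : ℕ) : dn T i univ = 1 := by
  have := hT i
  unfold dn
  rw [univ_inter, Real.volume_Icc, ENNReal.toReal_ofReal (by linarith)]
  field_simp
  ring

lemma tight_dif (hRH : RiemannHypothesis) (hT10 : ∀ i, 10 ≤ T i) (hTt : Tendsto T atTop atTop) :
    ITight T NZ (fun i => dif (yv (T i))) := by
  obtain ⟨C, hC, h⟩ := tight_y hRH hT10 hTt
  intro ε hε
  refine ⟨Real.sqrt (C / ε), Real.sqrt_pos.2 (by positivity), fun k => ?_⟩
  filter_upwards [h k _ (Real.sqrt_pos.2 (by positivity : 0 < C / ε))] with i hi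
  refine hi.trans (le_of_eq ?_)
  rw [Real.sq_sqrt (by positivity)]
  field_simp

end null

/-- the polynomial of a linear relation -/
noncomputable def pol {k : ℕ} (a : Fin (k + 1) → ℝ) : ℝ[X] := ∑ j, C (a j) * X ^ (j : ℕ)

lemma act_pol {k : ℕ} (a : Fin (k + 1) → ℝ) (f : ℕ → ℝ) (n : ℕ) :
    act (pol a) f n = ∑ j, a j * f (n + j) := by
  unfold act pol
  rw [map_sum, LinearMap.sum_apply, Finset.sum_apply]
  refine Finset.sum_congr rfl fun j _ => ?_
  rw [map_mul, map_pow, aeval_X, aeval_C, Module.End.mul_apply, Module.algebraMap_end_apply,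
    Pi.smul_apply, sh_pow, smul_eq_mul]

lemma pol_ne {k : ℕ} {a : Fin (k + 1) → ℝ} (ha : ∑ j, a j ^ 2 = 1) : pol a ≠ 0 := by
  intro h
  have hz : ∀ j, a j = 0 := by
    intro j
    have h1 : (pol a).coeff j = a j := by
      unfold pol
      rw [finsetSum_coeff]
      rw [Finset.sum_eq_single j]
      · rw [coeff_C_mul, coeff_X_pow, if_pos rfl, mul_one]
      · intro i _ hij
        rw [coeff_C_mul, coeff_X_pow, if_neg, mul_zero]
        intro h2
        exact hij (Fin.ext h2.symm)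
      · intro h; exact absurd (Finset.mem_univ j) h
    rw [← h1, h, coeff_zero]
  simp [hz] at ha

/-- a linear relation in the limit is impossible -/
theorem lin_core (hRH : RiemannHypothesis) {T : ℕ → ℝ} (hT10 : ∀ i, 10 ≤ T i)
    (hT1 : ∀ i, ord 1 ≤ T i) (hTt : Tendsto T atTop atTop) {k : ℕ} {a : Fin (k + 1) → ℝ}
    (ha : ∑ j, a j ^ 2 = 1) (b : ℝ)
    (hrel : INull T NZ (fun i n => (∑ j, a j * dif (yv (T i)) (n + j)) - b)) : False := by
  have hTpos : ∀ i, 0 < T i := fun i => by linarith [hT10 i]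
  have hc : (X - 1) * pol a ≠ 0 := mul_ne_zero (X_sub_C_ne_zero 1) (pol_ne ha)
  have hrel2 : INull T NZ (fun i => act ((X - 1) * pol a) (dif (yv (T i)))) := by
    have h1 := (hrel.shift 1).add hTpos (hrel.const_mul hTpos (-1))
    refine cast (congrArg _ ?_) h1
    funext i n
    rw [act_mul, act_X_sub_one]
    show ((∑ j, a j * dif (yv (T i)) (n + 1 + j)) - b) +
      -1 * ((∑ j, a j * dif (yv (T i)) (n + j)) - b) =
      act (pol a) (dif (yv (T i))) (n + 1) - act (pol a) (dif (yv (T i))) n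
    rw [act_pol, act_pol]
    ring
  obtain ⟨P, V, hPV, hnull⟩ := structure_thm hTpos (tight_dif hRH hT10 hTt) hc hrel2
  refine coreZ hRH hT10 hT1 hTt (fun i => act V (dif (yv (T i)))) ?_ ?_
  · obtain ⟨κ, D, C, hκ, hκ1, hD, hC, hgood⟩ := good_ev
    obtain ⟨C', hC', hL⟩ := Lam_mom (D := D) (rhs_of hRH) hκ hC V
    refine ⟨C', hC', fun s hs => ?_⟩
    have hpi := Real.pi_pos
    have hsmall : ∀ᶠ i in atTop, hh T i s ≤ T i := by
      have h1 : ∀ᶠ i in atTop, 2 * Real.pi * s ≤ T i := hTt.eventually_ge_atTop _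
      have h2 : ∀ᶠ i in atTop, 1 ≤ Real.log (T i) :=
        (Real.tendsto_log_atTop.comp hTt).eventually_ge_atTop _
      filter_upwards [h1, h2] with i h1 h2
      unfold hh
      rw [div_le_iff₀ (by linarith)]
      have := hT10 i
      nlinarith
    have hgood2 : ∀ᶠ i in atTop, ∀ j, j ≤ V.natDegree → Good κ D C j (T i) := by
      have h1 : ∀ j ∈ Finset.range (V.natDegree + 1), ∀ᶠ i in atTop, Good κ D C j (T i) := by
        intro j _
        obtain ⟨T0, _, hg⟩ := hgood j
        filter_upwards [hTt.eventually_ge_atTop T0] with i hi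
        exact hg _ hi
      rw [← Filter.eventually_all_finset] at h1
      filter_upwards [h1] with i hi j hj
      exact hi j (Finset.mem_range.2 (Nat.lt_succ_of_le hj))
    filter_upwards [hsmall, hgood2] with i h1 h2
    have hh0 : 0 ≤ hh T i s := by
      unfold hh
      have : 0 < Real.log (T i) := Real.log_pos (by linarith [hT10 i])
      positivity
    refine le_trans ?_ (hL V.natDegree (T i) (fun j hj => le_natDegree_of_mem_supp _ hj) h2 _ hh0 h1)
    have i1 : IntegrableOn (fun t => act V (dif (yv (T i))) (NZ (t + hh T i s)) ^ 2)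
        (Icc (T i) (2 * T i)) :=
      step_int SG.NZ_mono (fun _ m => act V (dif (yv (T i))) m ^ 2) (hh T i s) _ _
    have i2 : IntegrableOn (fun t => Pool.Agent.Y743.LR.Lam V (yv (T i)) (NZ (t + hh T i s)) ^ 2)
        (Icc (T i) (2 * T i)) :=
      step_int SG.NZ_mono (fun _ m => Pool.Agent.Y743.LR.Lam V (yv (T i)) m ^ 2) (hh T i s) _ _
    refine setIntegral_mono_on i1 i2 measurableSet_Icc fun t _ => ?_
    unfold Pool.Agent.Y743.LR.Lam
    rw [← sq_abs (act V (dif (yv (T i))) (NZ (t + hh T i s)))]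
    apply pow_le_pow_left₀ (abs_nonneg _)
    have := abs_nonneg (dif (yv (T i)) (NZ (t + hh T i s)))
    linarith
  · refine cast (congrArg _ ?_) hnull
    funext i
    congr 2
    funext n
    rw [hPV]
    rfl

/-- **no asymptotic linear relation between consecutive normalised gaps** -/
theorem no_linear (hRH : RiemannHypothesis) (k : ℕ) : ∃ c : ℝ, 0 < c ∧
    ∀ᶠ N : ℕ in atTop, ∀ (a : Fin (k + 1) → ℝ) (b : ℝ), ∑ j, a j ^ 2 = 1 →
      c * N ≤ (((Finset.Icc 1 N).filter fun n =>
        c ≤ |(∑ j, a j * dlt (n + j)) - b|).card : ℝ) := by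
  classical
  by_contra hcon
  push Not at hcon
  have hpi := Real.pi_pos
  obtain ⟨D, C1, hD3, hC1, hs1, hs2, hs3, hs4⟩ := scale
  have hD0 : 0 < D := by linarith
  have key : ∀ i : ℕ, ∃ N : ℕ, ∃ (a : Fin (k + 1) → ℝ) (b : ℝ), (i ≤ N ∧ 10 ≤ ord N / (2 * D) ∧
      ord 1 ≤ ord N / (2 * D) ∧ (i : ℝ) ≤ ord N / (2 * D)) ∧
      ∑ j, a j ^ 2 = 1 ∧
      (((Finset.Icc 1 N).filter fun n =>
        1 / ((i : ℝ) + 1) ≤ |(∑ j, a j * dlt (n + j)) - b|).card : ℝ) <
        1 / ((i : ℝ) + 1) * N := by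
    intro i
    have h1 := hcon (1 / ((i : ℝ) + 1)) (by positivity)
    have h2 := h1.and_eventually ((eventually_ge_atTop i).and ((hs4.eventually_ge_atTop 10).and
      ((hs4.eventually_ge_atTop (ord 1)).and (hs4.eventually_ge_atTop (i : ℝ)))))
    obtain ⟨N, ⟨a, b, h3, h4⟩, h5⟩ := h2.exists
    exact ⟨N, a, b, h5, h3, h4⟩
  choose N a b hN ha hcard using key
  set T : ℕ → ℝ := fun i => ord (N i) / (2 * D) with hT
  have hT10 : ∀ i, 10 ≤ T i := fun i => (hN i).2.1
  have hT1 : ∀ i, ord 1 ≤ T i := fun i => (hN i).2.2.1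
  have hTt : Tendsto T atTop atTop :=
    tendsto_atTop_mono (fun i => (hN i).2.2.2) tendsto_natCast_atTop_atTop
  have hNt : Tendsto N atTop atTop := tendsto_atTop_mono (fun i => (hN i).1) tendsto_id
  have hTpos : ∀ i, 0 < T i := fun i => by linarith [hT10 i]
  have hNup : ∀ᶠ i in atTop, (N i : ℝ) ≤ C1 * (T i * Real.log (T i)) := hNt.eventually hs3
  have haj : ∀ i j, |a i j| ≤ 1 := by
    intro i j
    rw [← sq_le_one_iff_abs_le_one, ← ha i]
    exact Finset.single_le_sum (f := fun j => a i j ^ 2) (fun _ _ => sq_nonneg _)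
      (Finset.mem_univ j)
  have hfnull : INull T NZ (fun i n => (∑ j, a i j * dlt (n + j)) - b i) :=
    null_of_count hRH hT10 hTt hC1 hNup (fun k => hNt.eventually (hs1 k))
      (c := fun i => 1 / ((i : ℝ) + 1)) (fun i => by positivity)
      tendsto_one_div_add_atTop_nhds_zero_nat fun i => (hcard i).le
  -- tightness
  have htd := tight_dif hRH hT10 hTt
  have hnd := null_dlt hRH hT10 hTt
  have htl : ITight T NZ (fun _ => dlt) := tight_of hTpos htd hnd
  -- the constants are bounded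
  obtain ⟨K, hK, hKd⟩ := htl (1 / (4 * (k + 1))) (by positivity)
  have hb : ∀ᶠ i in atTop, |b i| ≤ (k + 1) * K + 1 := by
    have h1 : ∀ j ∈ (Finset.univ : Finset (Fin (k + 1))), ∀ᶠ i in atTop,
        dn T i {t | K ≤ |dlt (NZ t + j)|} ≤ 1 / (4 * (k + 1)) := fun j _ => hKd j
    rw [← Filter.eventually_all_finset] at h1
    filter_upwards [h1, hfnull.ev hTpos one_pos 0 (by norm_num : (0 : ℝ) < 1 / 4)] with i h2 h3
    by_contra hcon
    push Not at hcon
    have h4 : dn T i univ ≤ dn T i ({t | 1 ≤ |(∑ j, a i j * dlt (NZ t + 0 + j)) - b i|} ∪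
        ⋃ j ∈ (Finset.univ : Finset (Fin (k + 1))), {t | K ≤ |dlt (NZ t + j)|}) := by
      refine dn_mono hTpos i fun t _ _ _ => ?_
      by_contra hcon2
      rw [mem_union, not_or] at hcon2
      obtain ⟨c1, c2⟩ := hcon2
      have c1 : |(∑ j, a i j * dlt (NZ t + 0 + j)) - b i| < 1 := not_le.1 c1
      have c3 : ∀ j : Fin (k + 1), |dlt (NZ t + j)| ≤ K := by
        intro j
        by_contra hlt
        push Not at hlt
        apply c2
        simp only [mem_iUnion]
        exact ⟨j, Finset.mem_univ j, hlt.le⟩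
      rw [add_zero] at c1
      have c4 : |∑ j, a i j * dlt (NZ t + j)| ≤ (k + 1) * K := by
        refine (Finset.abs_sum_le_sum_abs _ _).trans ?_
        calc ∑ j, |a i j * dlt (NZ t + j)| ≤ ∑ _j : Fin (k + 1), K := by
              refine Finset.sum_le_sum fun j _ => ?_
              rw [abs_mul]
              calc |a i j| * |dlt (NZ t + j)| ≤ 1 * K :=
                    mul_le_mul (haj i j) (c3 j) (abs_nonneg _) zero_le_one
                _ = K := one_mul K
          _ = (k + 1) * K := by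
              rw [Finset.sum_const, Finset.card_univ, Fintype.card_fin, nsmul_eq_mul]
              push_cast
              ring
      have c5 := abs_sub_abs_le_abs_sub (b i) (∑ j, a i j * dlt (NZ t + j))
      rw [abs_sub_comm] at c5
      linarith
    have h5 := h4.trans (dn_union hTpos i _ _)
    have h6 := (dn_biUnion hTpos i (Finset.univ : Finset (Fin (k + 1)))
      (fun j => {t | K ≤ |dlt (NZ t + j)|})).trans (Finset.sum_le_sum h2)
    rw [Finset.sum_const, Finset.card_univ, Fintype.card_fin, nsmul_eq_mul] at h6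
    have h7 : ((k + 1 : ℕ) : ℝ) * (1 / (4 * (k + 1))) = 1 / 4 := by
      push_cast
      field_simp
    rw [h7] at h6
    rw [dn_univ hTpos] at h5
    have h3' : dn T i {t | 1 ≤ |(∑ j, a i j * dlt (NZ t + 0 + j)) - b i|} ≤ 1 / 4 := h3
    linarith
  -- a convergent subsequence
  have hcomp : IsCompact ((Set.pi univ fun _ : Fin (k + 1) => Icc (-1 : ℝ) 1) ×ˢ
      Icc (-((k + 1) * K + 1)) ((k + 1) * K + 1)) :=
    (isCompact_univ_pi fun _ => isCompact_Icc).prod isCompact_Icc
  obtain ⟨⟨a', b'⟩, -, φ, hφ, hlim⟩ := hcomp.tendsto_subseq' (x := fun i => (a i, b i))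
    (hb.mono fun i hi => ⟨fun j _ => abs_le.1 (haj i j), abs_le.1 hi⟩).frequently
  have hla : Tendsto (fun i => a (φ i)) atTop (𝓝 a') :=
    (continuous_fst.tendsto _).comp hlim
  have hlb : Tendsto (fun i => b (φ i)) atTop (𝓝 b') :=
    (continuous_snd.tendsto _).comp hlim
  have hlaj : ∀ j, Tendsto (fun i => a (φ i) j) atTop (𝓝 (a' j)) := fun j =>
    ((continuous_apply j).tendsto _).comp hla
  have ha' : ∑ j, a' j ^ 2 = 1 := by
    have h1 : Tendsto (fun i => ∑ j, a (φ i) j ^ 2) atTop (𝓝 (∑ j, a' j ^ 2)) :=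
      tendsto_finsetSum _ fun j _ => (hlaj j).pow 2
    have h2 : (fun i => ∑ j, a (φ i) j ^ 2) = fun _ => (1 : ℝ) := by
      funext i; exact ha _
    rw [h2] at h1
    exact tendsto_nhds_unique h1 tendsto_const_nhds
  have hφt := hφ.tendsto_atTop
  have hT10' : ∀ i, 10 ≤ (T ∘ φ) i := fun i => hT10 _
  have hT1' : ∀ i, ord 1 ≤ (T ∘ φ) i := fun i => hT1 _
  have hTt' : Tendsto (T ∘ φ) atTop atTop := hTt.comp hφt
  have hTpos' : ∀ i, 0 < (T ∘ φ) i := fun i => hTpos _
  have hnull' : INull (T ∘ φ) NZ (fun i n => (∑ j, a (φ i) j * dlt (n + j)) - b (φ i)) := by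
    intro η hη m
    exact (hfnull η hη m).comp hφt
  have htd' := tight_dif hRH hT10' hTt'
  have hnd' := null_dlt hRH hT10' hTt'
  have htl' : ITight (T ∘ φ) NZ (fun _ => dlt) := tight_of hTpos' htd' hnd'
  refine lin_core hRH hT10' hT1' hTt' ha' b' ?_
  have g1 : INull (T ∘ φ) NZ (fun i n => ∑ j, (a' j - a (φ i) j) * dlt (n + j)) := by
    refine INull.sum hTpos' Finset.univ (f := fun j i n => (a' j - a (φ i) j) * dlt (n + j))
      fun j _ => ?_
    refine small_mul hTpos' (f := fun i n => dlt (n + j)) (htl'.shift j) ?_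
    have := (hlaj j).const_sub (a' j)
    rw [sub_self] at this
    exact this
  have g2 : INull (T ∘ φ) NZ (fun i _ => b (φ i) - b') := by
    refine const_null hTpos' ?_
    have := hlb.sub_const b'
    rw [sub_self] at this
    exact this
  have g3 : INull (T ∘ φ) NZ (fun i n => ∑ j, (-a' j) * (dlt (n + j) -
      dif (yv ((T ∘ φ) i)) (n + j))) := by
    refine INull.sum hTpos' Finset.univ (f := fun j i n => (-a' j) * (dlt (n + j) -
      dif (yv ((T ∘ φ) i)) (n + j))) fun j _ => ?_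
    exact (hnd'.shift j).const_mul hTpos' _
  have g4 := (hnull'.add hTpos' g1).add hTpos' (g2.add hTpos' g3)
  refine cast (congrArg _ ?_) g4
  funext i n
  show (((∑ j, a (φ i) j * dlt (n + j)) - b (φ i)) + ∑ j, (a' j - a (φ i) j) * dlt (n + j)) +
    ((b (φ i) - b') + ∑ j, (-a' j) * (dlt (n + j) - dif (yv ((T ∘ φ) i)) (n + j))) =
    (∑ j, a' j * dif (yv ((T ∘ φ) i)) (n + j)) - b'
  have e1 : (∑ j, a (φ i) j * dlt (n + j)) + ∑ j, (a' j - a (φ i) j) * dlt (n + j) +
      ∑ j, (-a' j) * (dlt (n + j) - dif (yv ((T ∘ φ) i)) (n + j)) =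
      ∑ j, a' j * dif (yv ((T ∘ φ) i)) (n + j) := by
    rw [← Finset.sum_add_distrib, ← Finset.sum_add_distrib]
    refine Finset.sum_congr rfl fun j _ => ?_
    ring
  rw [← e1]
  ring

end Pool.Agent.Helper65.LR
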