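import Pool.Agent.Helper65.LR.Asm

set_option autoImplicit false

/-! # The normalised gaps are not a slowly varying sequence plus an `L³` coboundary -/

namespace Pool.Agent.Helper65.LR

open MeasureTheory Set Filter Topology
open SG (NZ ord)
open LG (dlt)
open Pool.Agent.Y743.LR (step_int step_le yv dif_yv dif dn dn_mono dn_union dn_nonneg INull ITight
  hh Good good_ev gam_cube mom2 shift_int gam_le step_set cheb)

/-- the heights that belong to a number of zeros -/
lemma scale : ∃ D C : ℝ, 3 ≤ D ∧ 0 < C ∧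
    (∀ k : ℕ, ∀ᶠ N : ℕ in atTop, NZ (2 * (ord N / (2 * D))) + k ≤ N) ∧
    (∀ᶠ N : ℕ in atTop, NZ (3 * (ord N / (2 * D))) ≤ N) ∧
    (∀ᶠ N : ℕ in atTop, (N : ℝ) ≤ C * (ord N / (2 * D) * Real.log (ord N / (2 * D)))) ∧
    Tendsto (fun N : ℕ => ord N / (2 * D)) atTop atTop := by
  obtain ⟨κ, D, CG, hκ, hκ1, hD3, hCG, hgood⟩ := good_ev
  obtain ⟨C, T1, hC, hT1, hup⟩ := LG.GapAux.NZ_up
  have hD0 : 0 < D := by linarith
  have htt : Tendsto (fun N : ℕ => ord N / (2 * D)) atTop atTop :=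
    SG.ord_tendsto.atTop_div_const (by positivity)
  have hlt : ∀ᶠ N : ℕ in atTop, NZ (D * (ord N / (2 * D))) < N := by
    filter_upwards [eventually_ge_atTop 1] with N hN
    have h1 : D * (ord N / (2 * D)) = ord N / 2 := by field_simp
    have h2 := SG.ord_pos hN
    by_contra hcon
    push Not at hcon
    have := (SG.ord_le_iff hN _).2 hcon
    rw [h1] at this
    linarith
  refine ⟨D, C * D * 2, hD3, by positivity, ?_, ?_, ?_, htt⟩
  · intro k
    obtain ⟨T0, hT0, hg⟩ := hgood k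
    filter_upwards [htt.eventually_ge_atTop T0, hlt] with N h1 h2
    have := (hg _ h1).n3
    omega
  · filter_upwards [htt.eventually_ge_atTop 1, hlt] with N h1 h2
    have : NZ (3 * (ord N / (2 * D))) ≤ NZ (D * (ord N / (2 * D))) :=
      SG.NZ_mono (by nlinarith)
    omega
  · filter_upwards [htt.eventually_ge_atTop (max T1 (max D 1)), eventually_ge_atTop 1] with N h1 h2
    set T := ord N / (2 * D) with hT
    have hTT1 : T1 ≤ T := (le_max_left _ _).trans h1
    have hTD : D ≤ T := ((le_max_left _ _).trans (le_max_right _ _)).trans h1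
    have hTp : 1 ≤ T := ((le_max_right _ _).trans (le_max_right _ _)).trans h1
    have h3 := SG.le_NZ_ord h2
    have h4 : ord N = 2 * (D * T) := by rw [hT]; field_simp
    have h5 := hup (D * T) (by nlinarith)
    rw [← h4] at h5
    have h6 : Real.log (D * T) ≤ 2 * Real.log T := by
      rw [Real.log_mul (by linarith) (by linarith)]
      have := Real.log_le_log hD0 hTD
      linarith
    have h7 : (N : ℝ) ≤ NZ (ord N) := by exact_mod_cast h3
    calc (N : ℝ) ≤ C * (D * T * Real.log (D * T)) := h7.trans h5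
      _ ≤ C * (D * T * (2 * Real.log T)) := by gcongr
      _ = C * D * 2 * (T * Real.log T) := by ring

/-- **the normalised gaps are not a slowly varying sequence plus a coboundary** -/
theorem not_slow (hRH : RiemannHypothesis) (C : ℝ) (hC : 0 < C) : ∃ c : ℝ, 0 < c ∧
    ∀ᶠ N : ℕ in atTop, ∀ x : ℕ → ℝ, ∑ n ∈ Finset.Icc 1 N, |x n| ^ 3 ≤ C * N →
      c * N ≤ (((Finset.Icc 1 N).filter fun n =>
        c ≤ |(dlt (n + 1) - dlt n) - (x (n + 2) - 2 * x (n + 1) + x n)|).card : ℝ) := by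
  classical
  by_contra hcon
  push Not at hcon
  have hpi := Real.pi_pos
  obtain ⟨D, C1, hD3, hC1, hs1, hs2, hs3, hs4⟩ := scale
  have hD0 : 0 < D := by linarith
  have key : ∀ i : ℕ, ∃ N : ℕ, ∃ x : ℕ → ℝ, (i ≤ N ∧ 10 ≤ ord N / (2 * D) ∧
      ord 1 ≤ ord N / (2 * D) ∧ (i : ℝ) ≤ ord N / (2 * D)) ∧
      ∑ n ∈ Finset.Icc 1 N, |x n| ^ 3 ≤ C * N ∧
      (((Finset.Icc 1 N).filter fun n =>
        1 / ((i : ℝ) + 1) ≤ |(dlt (n + 1) - dlt n) - (x (n + 2) - 2 * x (n + 1) + x n)|).card : ℝ) <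
        1 / ((i : ℝ) + 1) * N := by
    intro i
    have h1 := hcon (1 / ((i : ℝ) + 1)) (by positivity)
    have h2 := h1.and_eventually ((eventually_ge_atTop i).and ((hs4.eventually_ge_atTop 10).and
      ((hs4.eventually_ge_atTop (ord 1)).and (hs4.eventually_ge_atTop (i : ℝ)))))
    obtain ⟨N, ⟨x, h3, h4⟩, h5⟩ := h2.exists
    exact ⟨N, x, h5, h3, h4⟩
  choose N x hN hx hcard using key
  set T : ℕ → ℝ := fun i => ord (N i) / (2 * D) with hT
  have hT10 : ∀ i, 10 ≤ T i := fun i => (hN i).2.1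
  have hT1 : ∀ i, ord 1 ≤ T i := fun i => (hN i).2.2.1
  have hTt : Tendsto T atTop atTop :=
    tendsto_atTop_mono (fun i => (hN i).2.2.2) tendsto_natCast_atTop_atTop
  have hNt : Tendsto N atTop atTop := tendsto_atTop_mono (fun i => (hN i).1) tendsto_id
  have hTpos : ∀ i, 0 < T i := fun i => by linarith [hT10 i]
  have hNup : ∀ᶠ i in atTop, (N i : ℝ) ≤ C1 * (T i * Real.log (T i)) := hNt.eventually hs3
  -- the defect is null
  set f : ℕ → ℕ → ℝ := fun i n =>
    (dlt (n + 1) - dlt n) - (x i (n + 2) - 2 * x i (n + 1) + x i n) with hf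
  have hfnull : INull T NZ f := by
    refine null_of_count hRH hT10 hTt hC1 hNup (fun k => hNt.eventually (hs1 k))
      (c := fun i => 1 / ((i : ℝ) + 1)) (fun i => by positivity)
      tendsto_one_div_add_atTop_nhds_zero_nat fun i => (hcard i).le
  have hg := null_dlt hRH hT10 hTt
  have hnull : INull T NZ (fun i => dif (dif (gg (x i) (yv (T i))))) := by
    have h1 := (hfnull.add hTpos (hg.add hTpos ((hg.shift 1).const_mul hTpos (-1))))
    refine cast (congrArg _ ?_) h1
    funext i n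
    show f i n + ((dlt n - dif (yv (T i)) n) + -1 * (dlt (n + 1) - dif (yv (T i)) (n + 1))) =
      dif (dif (gg (x i) (yv (T i)))) n
    simp only [hf, dif, gg]
    ring
  refine coreZ hRH hT10 hT1 hTt x ?_ hnull
  -- the moment
  obtain ⟨κ, D', CG, hκ, hκ1, hD'3, hCG, hgood⟩ := good_ev
  obtain ⟨C', hC', hcube⟩ := gam_cube (D := D') (rhs_of hRH) hκ hCG
  obtain ⟨T0, hT0, hg0⟩ := hgood 0
  refine ⟨2 * Real.pi * (C * C1 + C'), by positivity, fun a ha => ?_⟩
  have hsmall : ∀ᶠ i in atTop, hh T i a ≤ T i := by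
    have h1 : ∀ᶠ i in atTop, 2 * Real.pi * a ≤ T i := hTt.eventually_ge_atTop _
    have h2 : ∀ᶠ i in atTop, 1 ≤ Real.log (T i) :=
      (Real.tendsto_log_atTop.comp hTt).eventually_ge_atTop _
    filter_upwards [h1, h2] with i h1 h2
    unfold hh
    rw [div_le_iff₀ (by linarith)]
    have := hT10 i
    nlinarith
  filter_upwards [hNup, hNt.eventually hs2, hTt.eventually_ge_atTop T0, hsmall] with i h1 h2 h3 h4
  have hTi := hTpos i
  have hL : 0 < Real.log (T i) := Real.log_pos (by linarith [hT10 i])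
  have hG := hg0 (T i) h3
  have hh0 : 0 ≤ hh T i a := by unfold hh; positivity
  have h2 : NZ (3 * T i) ≤ N i := h2
  rw [shift_int (fun t => x i (NZ t) ^ 2)]
  set A := T i + hh T i a with hA
  set B := 2 * T i + hh T i a with hB
  have hNA : NZ (T i) ≤ NZ A := SG.NZ_mono (by rw [hA]; linarith)
  have hNB : NZ B ≤ NZ (3 * T i) := SG.NZ_mono (by rw [hB]; linarith)
  refine (step_le (fun n => x i n ^ 2) (fun n => sq_nonneg _) (hG.n1.trans hNA)).trans ?_
  have e2 : ∀ n ∈ Finset.Icc (NZ A) (NZ B), x i n ^ 2 * (ord (n + 1) - ord n) ≤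
      2 * Real.pi / Real.log (T i) * (|x i n| ^ 3 + dif (yv (T i)) n ^ 3) := by
    intro n hn
    rw [Finset.mem_Icc] at hn
    obtain ⟨_, a2, _⟩ := gam_le hκ (by linarith [hT10 i]) hG.lgκ hG.n1 hG.n2 (n := n)
      (hNA.trans hn.1)
    have k1 : ord (n + 1) - ord n = 2 * Real.pi / Real.log (T i) * dif (yv (T i)) n := by
      rw [dif_yv]; field_simp
    rw [k1, mul_left_comm]
    apply mul_le_mul_of_nonneg_left _ (by positivity)
    rw [← sq_abs (x i n)]
    set d := dif (yv (T i)) n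
    have x0 := abs_nonneg (x i n)
    set z := |x i n|
    rcases le_total z d with h | h
    · have : z ^ 2 * d ≤ d ^ 2 * d := by gcongr
      have : 0 ≤ z ^ 3 := by positivity
      nlinarith
    · have : z ^ 2 * d ≤ z ^ 2 * z := by gcongr
      have : 0 ≤ d ^ 3 := by positivity
      nlinarith
  refine (Finset.sum_le_sum e2).trans ?_
  rw [← Finset.mul_sum, Finset.sum_add_distrib]
  have e3 : ∑ n ∈ Finset.Icc (NZ A) (NZ B), |x i n| ^ 3 ≤ C * N i := by
    refine le_trans ?_ (hx i)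
    apply Finset.sum_le_sum_of_subset_of_nonneg
    · intro n hn
      rw [Finset.mem_Icc] at hn ⊢
      exact ⟨(hG.n1.trans hNA).trans hn.1, (hn.2.trans hNB).trans h2⟩
    · intro n _ _
      positivity
  have e4 : ∑ n ∈ Finset.Icc (NZ A) (NZ B), dif (yv (T i)) n ^ 3 ≤
      C' * (T i * Real.log (T i)) := by
    refine hcube 0 (T i) hG _ fun n hn => ?_
    rw [Finset.mem_Icc] at hn
    exact ⟨hNA.trans hn.1, (hn.2.trans hNB).trans (Nat.le_add_right _ _)⟩
  calc 2 * Real.pi / Real.log (T i) * (∑ n ∈ Finset.Icc (NZ A) (NZ B), |x i n| ^ 3 +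
        ∑ n ∈ Finset.Icc (NZ A) (NZ B), dif (yv (T i)) n ^ 3) ≤
        2 * Real.pi / Real.log (T i) * (C * (C1 * (T i * Real.log (T i))) +
          C' * (T i * Real.log (T i))) := by
        gcongr
        exact e3.trans (mul_le_mul_of_nonneg_left h1 hC.le)
    _ = 2 * Real.pi * (C * C1 + C') * T i := by field_simp

end Pool.Agent.Helper65.LR
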