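import Pool.Agent.Helper65.LR.Cnt2
import Pool.Agent.H345R2.A3.Cube
import Pool.Agent.Y743.LR.Core

set_option autoImplicit false

/-! # From the normalised ordinates to the heights -/

namespace Pool.Agent.Helper65.LR

open MeasureTheory Set Filter Topology
open H370 H370.A2
open Pool.Agent.Helper65.NR (uu ww ww_nonneg sum_ww)
open SG (NZ ord)
open Pool.Agent.Y743.LR (step_int)

lemma rhs_of (hRH : RiemannHypothesis) : SP.RHs := by
  intro s h1 h2 h0
  apply hRH s h0
  · rintro ⟨k, hk⟩
    have := congrArg Complex.re hk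
    simp at this
    have hk0 : (0 : ℝ) ≤ k := Nat.cast_nonneg k
    linarith
  · intro h; rw [h] at h2; simp at h2

/-- the number of zeros in a short interval is a sharp window -/
lemma NZ_XX {A B T t a : ℝ} (hA : 1 ≤ A) (hL : 0 < Real.log T) (ha : 0 ≤ a) (h1 : A ≤ t)
    (h2 : t + 2 * Real.pi * a / Real.log T ≤ B) :
    (NZ (t + 2 * Real.pi * a / Real.log T) : ℝ) - NZ t =
      XX (Zf riemannZeta A B) (uu (Real.log T)) ww a (t * Real.log T / (2 * Real.pi)) := by
  classical
  have hpi := Real.pi_pos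
  set h := 2 * Real.pi * a / Real.log T with hh
  have hh0 : 0 ≤ h := by positivity
  set F := (Zf riemannZeta A B).filter (fun s => t < s.im ∧ s.im ≤ t + h) with hF
  have e1 : (SG.ZS_finite (t + h)).toFinset = (SG.ZS_finite t).toFinset ∪ F := by
    ext s
    rw [Finset.mem_union, Set.Finite.mem_toFinset, Set.Finite.mem_toFinset, hF,
      Finset.mem_filter, mem_Zf good_zeta hA]
    constructor
    · rintro ⟨g1, g2, g3, g4, g5⟩
      rcases le_or_gt s.im t with h3 | h3
      · left; exact ⟨g1, g2, g3, g4, h3⟩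
      · right; exact ⟨⟨g2, g3, by linarith, by linarith, g1⟩, h3, g5⟩
    · rintro (⟨g1, g2, g3, g4, g5⟩ | ⟨⟨g1, g2, g3, g4, g5⟩, g6, g7⟩)
      · exact ⟨g1, g2, g3, g4, by linarith⟩
      · exact ⟨g5, g1, g2, by linarith, g7⟩
  have e2 : Disjoint (SG.ZS_finite t).toFinset F := by
    rw [Finset.disjoint_left]
    intro s hs hs2
    rw [Set.Finite.mem_toFinset] at hs
    rw [hF, Finset.mem_filter] at hs2
    obtain ⟨g1, g2, g3, g4, g5⟩ := hs
    linarith [hs2.2.1]
  rw [SG.NZ_eq, SG.NZ_eq, e1, Finset.sum_union e2]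
  push_cast
  rw [add_sub_cancel_left, hF, Finset.sum_filter]
  unfold XX
  refine Finset.sum_congr rfl fun s _ => ?_
  have e3 : t * Real.log T / (2 * Real.pi) ∈ Ico (uu (Real.log T) s - a) (uu (Real.log T) s) ↔
      t < s.im ∧ s.im ≤ t + h := by
    unfold uu
    rw [mem_Ico, and_comm]
    apply and_congr
    · rw [div_lt_div_iff_of_pos_right (by positivity), mul_lt_mul_iff_left₀ hL]
    · have e4 : (t + h) * Real.log T / (2 * Real.pi) = t * Real.log T / (2 * Real.pi) + a := by
        rw [hh]; field_simp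
      rw [sub_le_iff_le_add, ← e4, div_le_div_iff_of_pos_right (by positivity),
        mul_le_mul_iff_left₀ hL]
  by_cases h3 : t < s.im ∧ s.im ≤ t + h
  · rw [if_pos h3, indicator_of_mem (e3.2 h3), mul_one]
    rfl
  · rw [if_neg h3, indicator_of_notMem (fun h4 => h3 (e3.1 h4)), mul_zero]

/-- change of variables -/
lemma int_scale (f : ℝ → ℝ) {L A B : ℝ} (hL : 0 < L) (hAB : A ≤ B) :
    ∫ t in Icc A B, f (t * L / (2 * Real.pi)) =
      2 * Real.pi / L * ∫ τ in Icc (A * L / (2 * Real.pi)) (B * L / (2 * Real.pi)), f τ := by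
  have hpi := Real.pi_pos
  have hle : A * L / (2 * Real.pi) ≤ B * L / (2 * Real.pi) := by gcongr
  rw [integral_Icc_eq_integral_Ioc, integral_Icc_eq_integral_Ioc,
    ← intervalIntegral.integral_of_le hAB, ← intervalIntegral.integral_of_le hle]
  have h := intervalIntegral.integral_comp_mul_right (a := A) (b := B) f
    (by positivity : L / (2 * Real.pi) ≠ 0)
  simp only [mul_div_assoc]
  rw [h, smul_eq_mul]
  congr 1
  rw [inv_div]
  ring

/-- law of large numbers over the heights -/
theorem lln_t (hRH : RiemannHypothesis) {ε : ℝ} (hε : 0 < ε) :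
    ∀ᶠ a : ℝ in atTop, ∀ᶠ T : ℝ in atTop,
      ∫ t in Icc T (2 * T), |(NZ (t + 2 * Real.pi * a / Real.log T) : ℝ) - NZ t - a| ≤
        ε * a * T := by
  have hpi := Real.pi_pos
  obtain ⟨Cn, hCn, hXX⟩ := XX_sup
  filter_upwards [lln_sigma hRH (show 0 < ε / 2 by positivity), eventually_ge_atTop 1] with a h ha1
  have ha0 : 0 < a := by linarith
  have ev1 : ∀ᶠ T : ℝ in atTop, 2 * Real.pi * a + 1 ≤ Real.log T :=
    Real.tendsto_log_atTop.eventually_ge_atTop _
  have ev2 : ∀ᶠ T : ℝ in atTop, 3 * (Cn + a) * Real.log T ≤ ε / 2 * a * T := by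
    have h1 := Real.isLittleO_log_id_atTop.bound
      (show (0 : ℝ) < ε / 2 * a / (3 * (Cn + a)) by positivity)
    filter_upwards [h1, eventually_ge_atTop 1] with T h2 h3
    rw [Real.norm_of_nonneg (Real.log_nonneg h3), id, Real.norm_of_nonneg (by linarith),
      div_mul_eq_mul_div, le_div_iff₀ (by positivity)] at h2
    linarith
  filter_upwards [h, ev1, ev2, eventually_ge_atTop 10] with T h1 hL1 h2 hT10
  have hpia : 0 ≤ 2 * Real.pi * a := by positivity
  have hL0 : 0 < Real.log T := by linarith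
  set L := Real.log T with hLd
  set hh := 2 * Real.pi * a / L with hhd
  have hh0 : 0 ≤ hh := by positivity
  have hh1 : hh ≤ 1 := by rw [hhd, div_le_one hL0]; linarith
  set f : ℝ → ℝ := fun t => |(NZ (t + hh) : ℝ) - NZ t - a| with hf
  have hfi : ∀ x y : ℝ, IntegrableOn f (Icc x y) := fun x y =>
    step_int SG.NZ_mono (fun n m => |(m : ℝ) - n - a|) hh x y
  have hfii : ∀ x y : ℝ, x ≤ y → IntervalIntegrable f volume x y := fun x y hxy => by
    rw [intervalIntegrable_iff_integrableOn_Icc_of_le hxy]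
    exact hfi x y
  -- pointwise bound
  have hfb : ∀ t, T ≤ t → t ≤ 2 * T → f t ≤ Cn * L + a := by
    intro t ht1 ht2
    simp only [hf]
    rw [hhd, NZ_XX (A := T) (B := 4 * T) (by linarith) hL0 ha0.le ht1 (by rw [← hhd]; linarith)]
    have e1 := XX_nonneg (Z := Zf riemannZeta T (4 * T)) (u := uu L) ww_nonneg a
      (t * L / (2 * Real.pi))
    have e2 := hXX T hT10 T (4 * T) le_rfl le_rfl a ha0.le (by linarith) (t * L / (2 * Real.pi))
    rw [abs_le]
    constructor
    · have : 0 ≤ Cn * L := by positivity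
      linarith
    · linarith
  -- the middle part
  have hmid : ∫ t in Icc (T + 1) (2 * T - 1 - hh), f t ≤ ε / 2 * a * T := by
    have e1 : ∫ t in Icc (T + 1) (2 * T - 1 - hh), f t =
        ∫ t in Icc (T + 1) (2 * T - 1 - hh), |XX (Zf riemannZeta (T + 1) (2 * T - 1)) (uu L) ww a
          (t * L / (2 * Real.pi)) - a| := by
      refine setIntegral_congr_fun measurableSet_Icc fun t ht => ?_
      show f t = _
      simp only [hf]
      rw [hhd, NZ_XX (A := T + 1) (B := 2 * T - 1) (by linarith) hL0 ha0.le ht.1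
        (by rw [← hhd]; linarith [ht.2])]
    rw [e1, int_scale (fun τ => |XX (Zf riemannZeta (T + 1) (2 * T - 1)) (uu L) ww a τ - a|) hL0
      (by linarith)]
    have e2 : (2 * T - 1 - hh) * L / (2 * Real.pi) = (2 * T - 1) * L / (2 * Real.pi) - a := by
      rw [hhd]; field_simp
    have e3 : ∫ τ in Icc ((T + 1) * L / (2 * Real.pi)) ((2 * T - 1 - hh) * L / (2 * Real.pi)),
        |XX (Zf riemannZeta (T + 1) (2 * T - 1)) (uu L) ww a τ - a| ≤
        ∫ τ in Icc ((T + 1) * L / (2 * Real.pi) - a) ((2 * T - 1) * L / (2 * Real.pi)),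
        |XX (Zf riemannZeta (T + 1) (2 * T - 1)) (uu L) ww a τ - a| := by
      refine setIntegral_mono_set ?_ (Eventually.of_forall fun σ => abs_nonneg _) ?_
      · refine Measure.integrableOn_of_bounded
          (M := (∑ s ∈ Zf riemannZeta (T + 1) (2 * T - 1), ww s) + a) ?_
          ((XX_meas a).sub_const a).norm.aestronglyMeasurable (Eventually.of_forall fun τ => ?_)
        · rw [Real.volume_Icc]; exact ENNReal.ofReal_ne_top
        · rw [Real.norm_of_nonneg (abs_nonneg _)]
          have k1 := XX_nonneg (Z := Zf riemannZeta (T + 1) (2 * T - 1)) (u := uu L) ww_nonneg a τ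
          have k2 := XX_le (Z := Zf riemannZeta (T + 1) (2 * T - 1)) (u := uu L) ww_nonneg a τ
          rw [abs_le]
          constructor <;> linarith
      · refine Filter.Eventually.of_forall fun σ hσ => ?_
        have hσ : σ ∈ Icc ((T + 1) * L / (2 * Real.pi))
          ((2 * T - 1 - hh) * L / (2 * Real.pi)) := hσ
        rw [e2] at hσ
        exact ⟨by linarith [hσ.1], by linarith [hσ.2]⟩
    have e4 : 0 ≤ 2 * Real.pi / L := by positivity
    calc _ ≤ 2 * Real.pi / L * (ε / 2 * a * ((T - 2) * L / (2 * Real.pi))) :=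
          mul_le_mul_of_nonneg_left (e3.trans h1) e4
      _ = ε / 2 * a * (T - 2) := by field_simp
      _ ≤ ε / 2 * a * T := by gcongr; linarith
  -- the edges
  have e1 := intervalIntegral.integral_add_adjacent_intervals (hfii T (T + 1) (by linarith))
    (hfii (T + 1) (2 * T - 1 - hh) (by linarith))
  have e2 := intervalIntegral.integral_add_adjacent_intervals
    (hfii T (2 * T - 1 - hh) (by linarith)) (hfii (2 * T - 1 - hh) (2 * T) (by linarith))
  have e3 : ∫ t in T..(T + 1), f t ≤ Cn * L + a := by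
    have := intervalIntegral.integral_mono_on (by linarith) (hfii T (T + 1) (by linarith))
      (continuous_const.intervalIntegrable (μ := volume) _ _)
      (fun t ht => hfb t ht.1 (by linarith [ht.2]))
    refine this.trans (le_of_eq ?_)
    rw [intervalIntegral.integral_const, smul_eq_mul]
    ring
  have e4 : ∫ t in (2 * T - 1 - hh)..(2 * T), f t ≤ 2 * (Cn * L + a) := by
    have := intervalIntegral.integral_mono_on (by linarith)
      (hfii (2 * T - 1 - hh) (2 * T) (by linarith))
      (continuous_const.intervalIntegrable (μ := volume) _ _)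
      (fun t ht => hfb t (by linarith [ht.1]) ht.2)
    refine this.trans ?_
    rw [intervalIntegral.integral_const, smul_eq_mul]
    have : 0 ≤ Cn * L + a := by positivity
    nlinarith
  rw [integral_Icc_eq_integral_Ioc, ← intervalIntegral.integral_of_le (by linarith)] at hmid ⊢
  have e5 : 3 * (Cn * L + a) ≤ 3 * (Cn + a) * L := by
    have : a * 1 ≤ a * L := by gcongr; linarith
    nlinarith
  have e6 : ∫ t in T..(2 * T), f t ≤ ε / 2 * a * T + ε / 2 * a * T := by linarith
  calc _ = ∫ t in T..(2 * T), f t := rfl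
    _ ≤ _ := e6
    _ = ε * a * T := by ring

/-- the number variance is unbounded, over the heights -/
theorem var_t (hRH : RiemannHypothesis) (K : ℝ) : ∃ a : ℝ, 1 ≤ a ∧ ∀ᶠ T : ℝ in atTop,
    K * T ≤ ∫ t in Icc T (2 * T),
      ((NZ (t + 2 * Real.pi * a / Real.log T) : ℝ) - NZ t - a) ^ 2 := by
  have hpi := Real.pi_pos
  obtain ⟨a, ha1, h⟩ := var_sigma hRH (2 * |K|)
  refine ⟨a, ha1, ?_⟩
  have ha0 : 0 < a := by linarith
  have ev1 : ∀ᶠ T : ℝ in atTop, 2 * Real.pi * a + 1 ≤ Real.log T :=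
    Real.tendsto_log_atTop.eventually_ge_atTop _
  filter_upwards [h, ev1, eventually_ge_atTop 10] with T h1 hL1 hT10
  have hpia : 0 ≤ 2 * Real.pi * a := by positivity
  have hL0 : 0 < Real.log T := by linarith
  set L := Real.log T with hLd
  set hh := 2 * Real.pi * a / L with hhd
  have hh0 : 0 ≤ hh := by positivity
  have hh1 : hh ≤ 1 := by rw [hhd, div_le_one hL0]; linarith
  have hfi : IntegrableOn (fun t => ((NZ (t + hh) : ℝ) - NZ t - a) ^ 2) (Icc T (2 * T)) :=
    step_int SG.NZ_mono (fun n m => ((m : ℝ) - n - a) ^ 2) hh _ _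
  have e0 : ∫ t in Icc (T + 1) (2 * T - 1 - hh), ((NZ (t + hh) : ℝ) - NZ t - a) ^ 2 ≤
      ∫ t in Icc T (2 * T), ((NZ (t + hh) : ℝ) - NZ t - a) ^ 2 := by
    refine setIntegral_mono_set hfi (Eventually.of_forall fun σ => sq_nonneg _) ?_
    refine Filter.Eventually.of_forall fun t ht => ?_
    have ht : t ∈ Icc (T + 1) (2 * T - 1 - hh) := ht
    exact ⟨by linarith [ht.1], by linarith [ht.2]⟩
  refine le_trans ?_ e0
  have e1 : ∫ t in Icc (T + 1) (2 * T - 1 - hh), ((NZ (t + hh) : ℝ) - NZ t - a) ^ 2 =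
      ∫ t in Icc (T + 1) (2 * T - 1 - hh), (XX (Zf riemannZeta (T + 1) (2 * T - 1)) (uu L) ww a
        (t * L / (2 * Real.pi)) - a) ^ 2 := by
    refine setIntegral_congr_fun measurableSet_Icc fun t ht => ?_
    show ((NZ (t + hh) : ℝ) - NZ t - a) ^ 2 = _
    rw [hhd, NZ_XX (A := T + 1) (B := 2 * T - 1) (by linarith) hL0 ha0.le ht.1
      (by rw [← hhd]; linarith [ht.2])]
  rw [e1, int_scale (fun τ => (XX (Zf riemannZeta (T + 1) (2 * T - 1)) (uu L) ww a τ - a) ^ 2) hL0
    (by linarith)]
  have e2 : (2 * T - 1 - hh) * L / (2 * Real.pi) = (2 * T - 1) * L / (2 * Real.pi) - a := by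
    rw [hhd]; field_simp
  rw [e2]
  have e4 : 0 ≤ 2 * Real.pi / L := by positivity
  calc K * T ≤ |K| * T := by gcongr; exact le_abs_self K
    _ ≤ 2 * |K| * (T - 2) := by
        have := abs_nonneg K
        nlinarith
    _ = 2 * Real.pi / L * (2 * |K| * ((T - 2) * L / (2 * Real.pi))) := by field_simp
    _ ≤ _ := mul_le_mul_of_nonneg_left h1 e4

open H370.A3 in
/-- third moments of the counts -/
theorem cube_t (hRH : RiemannHypothesis) (a : ℝ) (ha1 : 1 ≤ a) : ∃ C : ℝ, 0 < C ∧
    ∀ᶠ T : ℝ in atTop, ∫ t in Icc T (2 * T),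
      |(NZ (t + 2 * Real.pi * a / Real.log T) : ℝ) - NZ t - a| ^ 3 ≤ C * T := by
  classical
  have hpi := Real.pi_pos
  have ha0 : 0 < a := by linarith
  obtain ⟨C, T0, hC, hT0, hcube⟩ := cube_sum (rhs_of hRH) (1 / 2) (4 * Real.pi * a) (by norm_num)
    (by norm_num) (by positivity)
  -- one piece
  have piece : ∀ T T' P Q : ℝ, T0 ≤ T' → 10 ≤ T → 2 * Real.pi * a + 1 ≤ Real.log T →
      Real.log T' ≤ 2 * Real.log T → T ≤ P → P ≤ Q → T' + 4 * Real.log T' ≤ P →
      Q + 1 ≤ 2 * T' - 4 * Real.log T' → T' ^ ((1 : ℝ) / 2) ≤ Q + 1 - P →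
      ∫ t in Icc P Q, ((NZ (t + 2 * Real.pi * a / Real.log T) : ℝ) - NZ t) ^ 3 ≤
        4 * Real.pi * a * C * (Q + 1 - P) := by
    intro T T' P Q hT' hT10 hL1 hLL hTP hPQ h1 h2 h3
    have hpia : 0 ≤ 2 * Real.pi * a := by positivity
    have hL0 : 0 < Real.log T := by linarith
    have hT'10 : 10 ≤ T' := hT0.trans hT'
    have hL'0 : 0 < Real.log T' := Real.log_pos (by linarith)
    set L := Real.log T with hLd
    set hh := 2 * Real.pi * a / L with hhd
    have hh0 : 0 ≤ hh := by positivity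
    have hh1 : hh ≤ 1 := by rw [hhd, div_le_one hL0]; linarith
    set Z := Zf riemannZeta P (Q + 1) with hZ
    have e1 : ∫ t in Icc P Q, ((NZ (t + hh) : ℝ) - NZ t) ^ 3 =
        ∫ t in Icc P Q, XX Z (uu L) ww a (t * L / (2 * Real.pi)) ^ 3 := by
      refine setIntegral_congr_fun measurableSet_Icc fun t ht => ?_
      show ((NZ (t + hh) : ℝ) - NZ t) ^ 3 = _
      rw [hhd, NZ_XX (A := P) (B := Q + 1) (by linarith) hL0 ha0.le ht.1
        (by rw [← hhd]; linarith [ht.2])]
    rw [e1, int_scale (fun τ => XX Z (uu L) ww a τ ^ 3) hL0 hPQ]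
    -- pointwise
    have hkk : ∀ s ∈ Z, ∀ τ ∈ Ico (uu L s - a) (uu L s),
        XX Z (uu L) ww a τ ≤ (kk P (Q + 1) (4 * Real.pi * a / Real.log T') s : ℝ) := by
      intro s hs τ hτ
      rw [kk_cast, Finset.sum_filter]
      unfold XX
      refine Finset.sum_le_sum fun s' _ => ?_
      by_cases h5 : τ ∈ Ico (uu L s' - a) (uu L s')
      · rw [indicator_of_mem h5, mul_one, if_pos]
        · exact le_rfl
        · have h6 : |uu L s - uu L s'| ≤ a := by
            rw [abs_le]
            constructor <;> linarith [hτ.1, hτ.2, h5.1, h5.2]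
          have h7 : uu L s - uu L s' = (s.im - s'.im) * (L / (2 * Real.pi)) := by
            unfold uu; ring
          rw [h7, abs_mul, abs_of_pos (by positivity : 0 < L / (2 * Real.pi))] at h6
          rw [le_div_iff₀ hL'0]
          have h8 : |s.im - s'.im| * L ≤ 2 * Real.pi * a := by
            have : |s.im - s'.im| * (L / (2 * Real.pi)) * (2 * Real.pi) = |s.im - s'.im| * L := by
              field_simp
            rw [← this]
            nlinarith
          calc |s.im - s'.im| * Real.log T' ≤ |s.im - s'.im| * (2 * L) := by gcongr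
            _ ≤ _ := by linarith
      · rw [indicator_of_notMem h5, mul_zero]
        split_ifs
        · exact Nat.cast_nonneg _
        · exact le_rfl
    have hpt : ∀ τ, XX Z (uu L) ww a τ ^ 3 ≤ ∑ s ∈ Z, (ww s *
        (kk P (Q + 1) (4 * Real.pi * a / Real.log T') s : ℝ) ^ 2) *
        (Ico (uu L s - a) (uu L s)).indicator (fun _ => (1 : ℝ)) τ := by
      intro τ
      have hX0 := XX_nonneg (Z := Z) (u := uu L) ww_nonneg a τ
      have e2 : XX Z (uu L) ww a τ ^ 3 = ∑ s ∈ Z, (ww s * XX Z (uu L) ww a τ ^ 2) *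
          (Ico (uu L s - a) (uu L s)).indicator (fun _ => (1 : ℝ)) τ := by
        have : ∑ s ∈ Z, (ww s * XX Z (uu L) ww a τ ^ 2) *
          (Ico (uu L s - a) (uu L s)).indicator (fun _ => (1 : ℝ)) τ =
          XX Z (uu L) ww a τ * XX Z (uu L) ww a τ ^ 2 := by
          conv_rhs => rw [XX, Finset.sum_mul]
          refine Finset.sum_congr rfl fun s _ => ?_
          unfold XX
          ring
        rw [this]; ring
      rw [e2]
      refine Finset.sum_le_sum fun s hs => ?_
      by_cases h5 : τ ∈ Ico (uu L s - a) (uu L s)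
      · rw [indicator_of_mem h5]
        have := hkk s hs τ h5
        have := ww_nonneg s
        gcongr
      · rw [indicator_of_notMem h5, mul_zero, mul_zero]
    set α := P * L / (2 * Real.pi) with hα
    set β := Q * L / (2 * Real.pi) with hβ
    have hvol : volume (Icc α β) ≠ ⊤ := by rw [Real.volume_Icc]; exact ENNReal.ofReal_ne_top
    have i1 : IntegrableOn (fun τ => XX Z (uu L) ww a τ ^ 3) (Icc α β) := by
      refine Measure.integrableOn_of_bounded (M := (∑ s ∈ Z, ww s) ^ 3) hvol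
        ((XX_meas a).pow_const 3).aestronglyMeasurable (Eventually.of_forall fun τ => ?_)
      have k1 := XX_nonneg (Z := Z) (u := uu L) ww_nonneg a τ
      rw [Real.norm_of_nonneg (by positivity)]
      exact pow_le_pow_left₀ k1 (XX_le ww_nonneg a τ) 3
    have i2 : ∀ s ∈ Z, IntegrableOn (fun τ => (ww s *
        (kk P (Q + 1) (4 * Real.pi * a / Real.log T') s : ℝ) ^ 2) *
        (Ico (uu L s - a) (uu L s)).indicator (fun _ => (1 : ℝ)) τ) (Icc α β) := fun s _ =>
      Integrable.const_mul ((integrable_const (1 : ℝ)).indicator measurableSet_Ico) _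
    have e3 : ∫ τ in Icc α β, XX Z (uu L) ww a τ ^ 3 ≤ a * ∑ s ∈ Z, ww s *
        (kk P (Q + 1) (4 * Real.pi * a / Real.log T') s : ℝ) ^ 2 := by
      refine (setIntegral_mono_on i1 (integrable_finsetSum _ i2) measurableSet_Icc
        fun τ _ => hpt τ).trans ?_
      rw [integral_finsetSum _ i2, Finset.mul_sum]
      refine Finset.sum_le_sum fun s _ => ?_
      rw [integral_const_mul, mul_comm a]
      refine mul_le_mul_of_nonneg_left ?_ (mul_nonneg (ww_nonneg s) (sq_nonneg _))
      rw [integral_indicator measurableSet_Ico, Measure.restrict_restrict measurableSet_Ico,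
        integral_const, smul_eq_mul, mul_one, Measure.real, Measure.restrict_apply_univ]
      have : (volume (Ico (uu L s - a) (uu L s) ∩ Icc α β)).toReal ≤
          (volume (Ico (uu L s - a) (uu L s))).toReal :=
        ENNReal.toReal_mono (by rw [Real.volume_Ico]; exact ENNReal.ofReal_ne_top)
          (measure_mono inter_subset_left)
      refine this.trans (le_of_eq ?_)
      rw [Real.volume_Ico, ENNReal.toReal_ofReal (by linarith)]
      ring
    have e4 := hcube T' hT' P (Q + 1) h1 h2 h3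
    have e5 : ∑ s ∈ Z, ww s * (kk P (Q + 1) (4 * Real.pi * a / Real.log T') s : ℝ) ^ 2 ≤
        C * ((Q + 1 - P) * Real.log T') := e4
    have hQP : 0 ≤ Q + 1 - P := by linarith
    calc 2 * Real.pi / L * ∫ τ in Icc α β, XX Z (uu L) ww a τ ^ 3 ≤
        2 * Real.pi / L * (a * (C * ((Q + 1 - P) * Real.log T'))) := by
          gcongr
          exact e3.trans (mul_le_mul_of_nonneg_left e5 ha0.le)
      _ ≤ 2 * Real.pi / L * (a * (C * ((Q + 1 - P) * (2 * L)))) := by gcongr
      _ = 4 * Real.pi * a * C * (Q + 1 - P) := by field_simp; ring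
  refine ⟨8 * (4 * Real.pi * a * C * 4) + 8 * a ^ 3, by positivity, ?_⟩
  have ev1 : ∀ᶠ T : ℝ in atTop, 2 * Real.pi * a + 1 ≤ Real.log T :=
    Real.tendsto_log_atTop.eventually_ge_atTop _
  have ev2 : ∀ᶠ T : ℝ in atTop, 1000 * Real.log T ≤ T := by
    have h1 := Real.isLittleO_log_id_atTop.bound (show (0 : ℝ) < 1 / 1000 by norm_num)
    filter_upwards [h1, eventually_ge_atTop 1] with T h2 h3
    rw [Real.norm_of_nonneg (Real.log_nonneg h3), id, Real.norm_of_nonneg (by linarith)] at h2
    linarith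
  filter_upwards [ev1, ev2, eventually_ge_atTop 1000, eventually_ge_atTop (2 * T0)] with
    T hL1 hL2 hT hTT0
  have hpia : 0 ≤ 2 * Real.pi * a := by positivity
  have hL0 : 0 < Real.log T := by linarith
  set L := Real.log T with hLd
  set hh := 2 * Real.pi * a / L with hhd
  have hsq : ∀ x : ℝ, 1 ≤ x → x ^ ((1 : ℝ) / 2) ≤ x := fun x hx => by
    calc x ^ ((1 : ℝ) / 2) ≤ x ^ (1 : ℝ) := Real.rpow_le_rpow_of_exponent_le hx (by norm_num)
      _ = x := Real.rpow_one x
  have hsq2 : ∀ x : ℝ, 64 ≤ x → x ^ ((1 : ℝ) / 2) ≤ x / 8 := fun x hx => by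
    have hx0 : 0 < x := by linarith
    have e1 : x ^ ((1 : ℝ) / 2) * x ^ ((1 : ℝ) / 2) = x := by
      rw [← Real.rpow_add hx0]; norm_num
    have e2 : (8 : ℝ) ≤ x ^ ((1 : ℝ) / 2) := by
      have h8 : (64 : ℝ) ^ ((1 : ℝ) / 2) = 8 := by
        rw [show (64 : ℝ) = 8 ^ (2 : ℝ) by norm_num, ← Real.rpow_mul (by norm_num)]
        norm_num
      rw [← h8]
      exact Real.rpow_le_rpow (by norm_num) hx (by norm_num)
    nlinarith
  have hlog2 : Real.log 2 ≤ L := Real.log_le_log (by norm_num) (by linarith)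
  have hl1 : Real.log (4 / 5 * T) ≤ 2 * L := by
    have : Real.log (4 / 5 * T) ≤ L := Real.log_le_log (by linarith) (by linarith)
    linarith
  have p1 := piece T (4 / 5 * T) T (3 / 2 * T) (by linarith) (by linarith) hL1
    hl1 le_rfl (by linarith)
    (by
      have : Real.log (4 / 5 * T) ≤ L := Real.log_le_log (by linarith) (by linarith)
      linarith)
    (by
      have : Real.log (4 / 5 * T) ≤ L := Real.log_le_log (by linarith) (by linarith)
      linarith)
    ((hsq2 _ (by linarith)).trans (by linarith))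
  have hl2 : Real.log (7 / 5 * T) ≤ 2 * L := by
    have h1 : Real.log (7 / 5 * T) ≤ Real.log (2 * T) := Real.log_le_log (by linarith) (by linarith)
    have h2 : Real.log (2 * T) = Real.log 2 + L := Real.log_mul (by norm_num) (by linarith)
    linarith
  have p2 := piece T (7 / 5 * T) (3 / 2 * T) (2 * T) (by linarith) (by linarith) hL1
    hl2 (by linarith) (by linarith) (by linarith) (by linarith)
    ((hsq2 _ (by linarith)).trans (by linarith))
  rw [← hLd, ← hhd] at p1 p2
  have i0 : ∀ x y : ℝ, x ≤ y → IntervalIntegrable (fun t => ((NZ (t + hh) : ℝ) - NZ t) ^ 3)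
      volume x y := fun x y hxy => by
    rw [intervalIntegrable_iff_integrableOn_Icc_of_le hxy]
    exact step_int SG.NZ_mono (fun n m => ((m : ℝ) - n) ^ 3) hh x y
  have hsum : ∫ t in Icc T (2 * T), ((NZ (t + hh) : ℝ) - NZ t) ^ 3 ≤
      4 * Real.pi * a * C * (T + 2) := by
    rw [integral_Icc_eq_integral_Ioc, ← intervalIntegral.integral_of_le (by linarith)] at p1 p2 ⊢
    have e1 := intervalIntegral.integral_add_adjacent_intervals (i0 T (3 / 2 * T) (by linarith))
      (i0 (3 / 2 * T) (2 * T) (by linarith))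
    rw [← e1]
    have e2 : 4 * Real.pi * a * C * (3 / 2 * T + 1 - T) + 4 * Real.pi * a * C *
      (2 * T + 1 - 3 / 2 * T) = 4 * Real.pi * a * C * (T + 2) := by ring
    linarith
  have i1 : IntegrableOn (fun t => |(NZ (t + hh) : ℝ) - NZ t - a| ^ 3) (Icc T (2 * T)) :=
    step_int SG.NZ_mono (fun n m => |(m : ℝ) - n - a| ^ 3) hh _ _
  have i2 : IntegrableOn (fun t => ((NZ (t + hh) : ℝ) - NZ t) ^ 3) (Icc T (2 * T)) :=
    step_int SG.NZ_mono (fun n m => ((m : ℝ) - n) ^ 3) hh _ _
  have i3 : IntegrableOn (fun _ : ℝ => 8 * a ^ 3) (Icc T (2 * T)) :=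
    integrableOn_const (by rw [Real.volume_Icc]; exact ENNReal.ofReal_ne_top)
  have hh0 : 0 ≤ hh := by positivity
  have h5 : ∫ t in Icc T (2 * T), |(NZ (t + hh) : ℝ) - NZ t - a| ^ 3 ≤
      ∫ t in Icc T (2 * T), (8 * ((NZ (t + hh) : ℝ) - NZ t) ^ 3 + 8 * a ^ 3) := by
    refine setIntegral_mono_on i1 ((i2.const_mul 8).add i3) measurableSet_Icc fun t _ => ?_
    have hm : (NZ t : ℝ) ≤ NZ (t + hh) := by exact_mod_cast SG.NZ_mono (by linarith)
    set x : ℝ := (NZ (t + hh) : ℝ) - NZ t with hx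
    have hx0 : 0 ≤ x := by rw [hx]; linarith
    rcases le_total a x with h | h
    · rw [abs_of_nonneg (by linarith)]
      have : (x - a) ^ 3 ≤ x ^ 3 := pow_le_pow_left₀ (by linarith) (by linarith) 3
      have : 0 ≤ x ^ 3 := by positivity
      have : 0 ≤ a ^ 3 := by positivity
      linarith
    · rw [abs_of_nonpos (by linarith)]
      have : (-(x - a)) ^ 3 ≤ a ^ 3 := pow_le_pow_left₀ (by linarith) (by linarith) 3
      have : 0 ≤ x ^ 3 := by positivity
      have : 0 ≤ a ^ 3 := by positivity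
      linarith
  refine h5.trans ?_
  have e6 : ∫ t in Icc T (2 * T), (8 * ((NZ (t + hh) : ℝ) - NZ t) ^ 3 + 8 * a ^ 3) =
      (∫ t in Icc T (2 * T), 8 * ((NZ (t + hh) : ℝ) - NZ t) ^ 3) +
      ∫ t in Icc T (2 * T), 8 * a ^ 3 := integral_add (i2.const_mul 8) i3
  have e7 : ∫ t in Icc T (2 * T), 8 * a ^ 3 = 8 * a ^ 3 * T := by
    rw [integral_const, smul_eq_mul, Measure.real, Measure.restrict_apply_univ,
      Real.volume_Icc, ENNReal.toReal_ofReal (by linarith)]
    ring
  rw [e6, e7, integral_const_mul]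
  have e8 : 4 * Real.pi * a * C * (T + 2) ≤ 4 * Real.pi * a * C * (4 * T) := by
    gcongr; linarith
  linarith

end Pool.Agent.Helper65.LR
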