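import Pool.Agent.Helper65.LR.Box

set_option autoImplicit false

/-! # Smoothed windows and sharp windows: the abstract part -/

namespace Pool.Agent.Helper65.LR

open MeasureTheory Set Filter Topology
open Pool.Agent.Helper65.NR (Ker Ys Ys_cont Ys_int Ys_nonneg Ys_sq_int Ys_le)

variable {ι : Type*} {Z : Finset ι} {u w : ι → ℝ}

/-- the number of points in `(τ, τ + a]` -/
noncomputable def XX (Z : Finset ι) (u w : ι → ℝ) (a τ : ℝ) : ℝ :=
  ∑ i ∈ Z, w i * (Ico (u i - a) (u i)).indicator (fun _ => (1 : ℝ)) τ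

lemma ind_nonneg (s : Set ℝ) (τ : ℝ) : 0 ≤ s.indicator (fun _ => (1 : ℝ)) τ :=
  indicator_nonneg (fun _ _ => zero_le_one) τ

lemma ind_le_one (s : Set ℝ) (τ : ℝ) : s.indicator (fun _ => (1 : ℝ)) τ ≤ 1 := by
  by_cases h : τ ∈ s
  · rw [indicator_of_mem h]
  · rw [indicator_of_notMem h]; exact zero_le_one

lemma ind_meas (x y : ℝ) : Measurable ((Ico x y).indicator (fun _ => (1 : ℝ))) :=
  measurable_const.indicator measurableSet_Ico

lemma XX_meas (a : ℝ) : Measurable (XX Z u w a) := by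
  unfold XX
  exact Finset.measurable_sum _ fun i _ => (ind_meas _ _).const_mul _

lemma XX_nonneg (hw : ∀ i, 0 ≤ w i) (a τ : ℝ) : 0 ≤ XX Z u w a τ :=
  Finset.sum_nonneg fun i _ => mul_nonneg (hw i) (ind_nonneg _ _)

lemma XX_le (hw : ∀ i, 0 ≤ w i) (a τ : ℝ) : XX Z u w a τ ≤ ∑ i ∈ Z, w i := by
  unfold XX
  refine Finset.sum_le_sum fun i _ => ?_
  have := ind_le_one (Ico (u i - a) (u i)) τ
  have := hw i
  nlinarith

lemma XX_zero {α β a τ : ℝ} (hu : ∀ i ∈ Z, α ≤ u i ∧ u i ≤ β) (h : τ < α - a ∨ β ≤ τ) :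
    XX Z u w a τ = 0 := by
  unfold XX
  refine Finset.sum_eq_zero fun i hi => ?_
  rw [indicator_of_notMem, mul_zero]
  rintro ⟨h1, h2⟩
  have := hu i hi
  rcases h with h | h <;> linarith [this.1, this.2]

/-- the smoothed window is an average of sharp windows -/
lemma bx_ind {a : ℝ} (ha : 0 ≤ a) (v σ : ℝ) : bx a (v - (σ + a / 2)) =
    ∫ τ, FF (τ - σ) * (Ico (v - a) v).indicator (fun _ => (1 : ℝ)) τ := by
  have e1 : (fun τ => FF (τ - σ) * (Ico (v - a) v).indicator (fun _ => (1 : ℝ)) τ) =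
      (Ico (v - a) v).indicator (fun τ => FF (τ - σ)) := by
    funext τ
    by_cases h : τ ∈ Ico (v - a) v
    · rw [indicator_of_mem h, indicator_of_mem h, mul_one]
    · rw [indicator_of_notMem h, indicator_of_notMem h, mul_zero]
  rw [e1, integral_indicator measurableSet_Ico, integral_Ico_eq_integral_Ioc,
    ← intervalIntegral.integral_of_le (by linarith)]
  unfold bx
  have h := intervalIntegral.integral_comp_add_left (a := -(a / 2)) (b := a / 2)
    (fun τ => FF (τ - σ)) (v - a / 2)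
  have e2 : v - a / 2 + -(a / 2) = v - a := by ring
  have e3 : v - a / 2 + a / 2 = v := by ring
  rw [e2, e3] at h
  rw [← h]
  refine intervalIntegral.integral_congr fun y _ => ?_
  show FF (v - (σ + a / 2) + y) = FF (v - a / 2 + y - σ)
  congr 1
  ring

lemma FF_int : Integrable FF := ker_FF.int

lemma FF_shift_int (σ : ℝ) : Integrable fun τ => FF (τ - σ) := FF_int.comp_sub_right σ

lemma FF_shift_mass (σ : ℝ) : ∫ τ, FF (τ - σ) = 1 := by
  rw [integral_sub_right_eq_self FF σ, FF_mass]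

/-- integrability against bounded measurable functions -/
lemma FF_mul_int {f : ℝ → ℝ} (hf : Measurable f) {B : ℝ} (hB : ∀ τ, |f τ| ≤ B) (σ : ℝ) :
    Integrable fun τ => FF (τ - σ) * f τ := by
  refine ((FF_shift_int σ).mul_const B).mono' ?_ (Eventually.of_forall fun τ => ?_)
  · exact ((FF_cont.comp (by fun_prop)).measurable.mul hf).aestronglyMeasurable
  · rw [norm_mul, Real.norm_of_nonneg (FF_nonneg _), Real.norm_eq_abs]
    exact mul_le_mul_of_nonneg_left (hB τ) (FF_nonneg _)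

lemma Ys_conv (_hw : ∀ i, 0 ≤ w i) {a : ℝ} (ha : 0 ≤ a) (σ : ℝ) :
    Ys Z u w (bx a) (σ + a / 2) = ∫ τ, FF (τ - σ) * XX Z u w a τ := by
  unfold Ys XX
  have e1 : (fun τ => FF (τ - σ) * ∑ i ∈ Z, w i * (Ico (u i - a) (u i)).indicator
      (fun _ => (1 : ℝ)) τ) = fun τ => ∑ i ∈ Z, w i * (FF (τ - σ) *
      (Ico (u i - a) (u i)).indicator (fun _ => (1 : ℝ)) τ) := by
    funext τ
    rw [Finset.mul_sum]
    refine Finset.sum_congr rfl fun i _ => ?_
    ring
  rw [e1, integral_finsetSum]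
  · refine Finset.sum_congr rfl fun i _ => ?_
    rw [integral_const_mul, bx_ind ha]
  · intro i _
    refine Integrable.const_mul ?_ _
    exact FF_mul_int (ind_meas _ _) (B := 1)
      (fun τ => by rw [abs_of_nonneg (ind_nonneg _ _)]; exact ind_le_one _ _) σ

/-- Jensen's inequality -/
lemma jensen {f : ℝ → ℝ} (hf : Measurable f) {B : ℝ} (hB : ∀ τ, |f τ| ≤ B) (σ : ℝ) :
    (∫ τ, FF (τ - σ) * f τ) ^ 2 ≤ ∫ τ, FF (τ - σ) * f τ ^ 2 := by
  set c := ∫ τ, FF (τ - σ) * f τ with hc
  have i1 := FF_mul_int hf hB σ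
  have i2 : Integrable fun τ => FF (τ - σ) * f τ ^ 2 :=
    FF_mul_int (hf.pow_const 2) (B := B ^ 2) (fun τ => by
      rw [abs_pow]
      exact pow_le_pow_left₀ (abs_nonneg _) (hB τ) 2) σ
  have i3 := FF_shift_int σ
  have h1 : 0 ≤ ∫ τ, FF (τ - σ) * (f τ - c) ^ 2 :=
    integral_nonneg fun τ => mul_nonneg (FF_nonneg _) (sq_nonneg _)
  have e1 : (fun τ => FF (τ - σ) * (f τ - c) ^ 2) = fun τ =>
      FF (τ - σ) * f τ ^ 2 - (2 * c) * (FF (τ - σ) * f τ) + c ^ 2 * FF (τ - σ) := by
    funext τ; ring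
  have e2 : ∫ τ, (FF (τ - σ) * f τ ^ 2 - (2 * c) * (FF (τ - σ) * f τ) + c ^ 2 * FF (τ - σ)) =
      (∫ τ, (FF (τ - σ) * f τ ^ 2 - (2 * c) * (FF (τ - σ) * f τ))) + ∫ τ, c ^ 2 * FF (τ - σ) :=
    integral_add (i2.sub (i1.const_mul (2 * c))) (i3.const_mul (c ^ 2))
  have e3 : ∫ τ, (FF (τ - σ) * f τ ^ 2 - (2 * c) * (FF (τ - σ) * f τ)) =
      (∫ τ, FF (τ - σ) * f τ ^ 2) - ∫ τ, (2 * c) * (FF (τ - σ) * f τ) :=
    integral_sub i2 (i1.const_mul (2 * c))
  rw [e1, e2, e3, integral_const_mul, integral_const_mul, FF_shift_mass, ← hc] at h1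
  linarith

/-- the smoothed variance is at most the sharp one -/
theorem smooth_le_sharp (hw : ∀ i, 0 ≤ w i) {α β a D : ℝ} (ha : 0 < a) (haD : a ≤ D)
    (hαβ : α ≤ β) (hu : ∀ i ∈ Z, α ≤ u i ∧ u i ≤ β) :
    ∫ σ in Icc α β, (Ys Z u w (bx a) σ - a) ^ 2 ≤
      (∫ τ in Icc (α - 2 * D) (β + D), (XX Z u w a τ - a) ^ 2) + a ^ 2 * (18 / D) * (β - α) := by
  have hD : 0 < D := ha.trans_le haD
  set W : ℝ := ∑ i ∈ Z, w i with hW
  have hW0 : 0 ≤ W := Finset.sum_nonneg fun i _ => hw i
  set J : Set ℝ := Icc (α - 2 * D) (β + D) with hJ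
  set I : Set ℝ := Icc (α - a / 2) (β - a / 2) with hI
  have hbd : ∀ τ, |XX Z u w a τ - a| ≤ W + a := by
    intro τ
    have h1 := XX_nonneg (Z := Z) (u := u) hw a τ
    have h2 := XX_le (Z := Z) (u := u) hw a τ
    rw [abs_le]
    constructor <;> linarith
  have hm : Measurable fun τ => XX Z u w a τ - a := (XX_meas a).sub_const a
  -- the smoothed window
  have e1 : ∀ σ, Ys Z u w (bx a) (σ + a / 2) - a = ∫ τ, FF (τ - σ) * (XX Z u w a τ - a) := by
    intro σ
    have i1 : Integrable fun τ => FF (τ - σ) * XX Z u w a τ :=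
      FF_mul_int (XX_meas a) (B := W) (fun τ => by
        rw [abs_of_nonneg (XX_nonneg hw a τ)]; exact XX_le hw a τ) σ
    have i2 : Integrable fun τ => a * FF (τ - σ) := (FF_shift_int σ).const_mul a
    have e2 : (fun τ => FF (τ - σ) * (XX Z u w a τ - a)) =
        fun τ => FF (τ - σ) * XX Z u w a τ - a * FF (τ - σ) := by
      funext τ; ring
    rw [e2, integral_sub i1 i2, integral_const_mul, FF_shift_mass, ← Ys_conv hw ha.le]
    ring
  -- the pointwise bound
  set G : ℝ → ℝ := J.indicator (fun τ => (XX Z u w a τ - a) ^ 2) with hG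
  have hGm : Measurable G := (hm.pow_const 2).indicator measurableSet_Icc
  have hG0 : ∀ τ, 0 ≤ G τ := fun τ => indicator_nonneg (fun _ _ => sq_nonneg _) τ
  have hGb : ∀ τ, |G τ| ≤ (W + a) ^ 2 := by
    intro τ
    rw [abs_of_nonneg (hG0 τ)]
    simp only [hG]
    by_cases h : τ ∈ J
    · rw [indicator_of_mem h, ← sq_abs]
      exact pow_le_pow_left₀ (abs_nonneg _) (hbd τ) 2
    · rw [indicator_of_notMem h]; positivity
  have e2 : ∀ σ ∈ I, (Ys Z u w (bx a) (σ + a / 2) - a) ^ 2 ≤
      (∫ τ, FF (τ - σ) * G τ) + a ^ 2 * (18 / D) := by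
    intro σ hσ
    rw [e1]
    refine (jensen hm hbd σ).trans ?_
    have i1 : Integrable fun τ => FF (τ - σ) * (XX Z u w a τ - a) ^ 2 :=
      FF_mul_int (hm.pow_const 2) (B := (W + a) ^ 2) (fun τ => by
        rw [abs_pow]
        exact pow_le_pow_left₀ (abs_nonneg _) (hbd τ) 2) σ
    have i2 := FF_mul_int hGm hGb σ
    have hms : MeasurableSet {τ : ℝ | D < |σ - τ|} :=
      measurableSet_lt measurable_const (by fun_prop)
    have i3 : Integrable ({τ : ℝ | D < |σ - τ|}.indicator (fun τ => a ^ 2 * FF (σ - τ))) :=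
      ((ker_FF.int_shift σ).const_mul (a ^ 2)).indicator hms
    have h1 : ∫ τ, FF (τ - σ) * (XX Z u w a τ - a) ^ 2 ≤
        ∫ τ, (FF (τ - σ) * G τ + {τ : ℝ | D < |σ - τ|}.indicator (fun τ => a ^ 2 * FF (σ - τ)) τ) := by
      refine integral_mono i1 (i2.add i3) fun τ => ?_
      show FF (τ - σ) * (XX Z u w a τ - a) ^ 2 ≤
        FF (τ - σ) * G τ + {τ : ℝ | D < |σ - τ|}.indicator (fun τ => a ^ 2 * FF (σ - τ)) τ
      by_cases h : τ ∈ J
      · have h2 : G τ = (XX Z u w a τ - a) ^ 2 := by simp only [hG]; rw [indicator_of_mem h]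
        rw [h2]
        have h3 : 0 ≤ {τ : ℝ | D < |σ - τ|}.indicator (fun τ => a ^ 2 * FF (σ - τ)) τ :=
          indicator_nonneg (fun _ _ => mul_nonneg (sq_nonneg _) (FF_nonneg _)) τ
        linarith
      · have h2 : G τ = 0 := by simp only [hG]; rw [indicator_of_notMem h]
        have h' : τ < α - 2 * D ∨ β + D < τ := by
          rw [hJ, mem_Icc, not_and_or, not_le, not_le] at h
          exact h
        have h3 : XX Z u w a τ = 0 := by
          apply XX_zero hu
          rcases h' with h' | h'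
          · left; linarith
          · right; linarith
        have h4 : τ ∈ {τ : ℝ | D < |σ - τ|} := by
          show D < |σ - τ|
          rw [lt_abs]
          rcases h' with h' | h'
          · left; linarith [hσ.1]
          · right; linarith [hσ.2]
        rw [h2, h3, indicator_of_mem h4]
        have h5 : FF (τ - σ) = FF (σ - τ) := by rw [← FF_even]; congr 1; ring
        rw [h5]
        have : FF (σ - τ) * (0 - a) ^ 2 = a ^ 2 * FF (σ - τ) := by ring
        rw [this]
        linarith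
    refine h1.trans ?_
    rw [integral_add i2 i3, integral_indicator hms, integral_const_mul]
    have h2 := ker_FF.tail hD σ
    have h3 : a ^ 2 * ∫ τ in {τ : ℝ | D < |σ - τ|}, FF (σ - τ) ≤ a ^ 2 * (2 * 9 / D) :=
      mul_le_mul_of_nonneg_left h2 (sq_nonneg _)
    have h4 : (2 : ℝ) * 9 / D = 18 / D := by norm_num
    rw [h4] at h3
    linarith
  -- integrate
  have hfin : Integrable (Function.uncurry fun σ τ : ℝ => FF (τ - σ) * G τ)
      ((volume.restrict I).prod (volume.restrict J)) := by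
    refine Integrable.mono' (integrable_const (9 * (W + a) ^ 2)) ?_
      (Eventually.of_forall fun z => ?_)
    · apply Measurable.aestronglyMeasurable
      unfold Function.uncurry
      exact (FF_cont.comp (by fun_prop)).measurable.mul (hGm.comp measurable_snd)
    · unfold Function.uncurry
      rw [norm_mul, Real.norm_of_nonneg (FF_nonneg _), Real.norm_eq_abs]
      exact mul_le_mul (ker_FF.le_C _) (hGb _) (abs_nonneg _) (by norm_num)
  have e3 : ∀ σ, ∫ τ, FF (τ - σ) * G τ = ∫ τ in J, FF (τ - σ) * G τ := by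
    intro σ
    rw [← integral_indicator measurableSet_Icc]
    refine integral_congr_ae (Eventually.of_forall fun τ => ?_)
    show FF (τ - σ) * G τ = J.indicator (fun τ => FF (τ - σ) * G τ) τ
    by_cases h : τ ∈ J
    · rw [indicator_of_mem h]
    · rw [indicator_of_notMem h]
      simp only [hG]
      rw [indicator_of_notMem h, mul_zero]
  have hfin2 : Integrable (fun σ => ∫ τ in J, FF (τ - σ) * G τ) (volume.restrict I) :=
    hfin.integral_prod_left
  have hcY : Continuous fun σ => (Ys Z u w (bx a) (σ + a / 2) - a) ^ 2 := by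
    have := Ys_cont (Z := Z) (u := u) (w := w) (ker_bx ha.le)
    fun_prop
  have e4 : ∫ σ in I, (Ys Z u w (bx a) (σ + a / 2) - a) ^ 2 ≤
      ∫ σ in I, ((∫ τ in J, FF (τ - σ) * G τ) + a ^ 2 * (18 / D)) := by
    refine setIntegral_mono_on hcY.integrableOn_Icc ?_ measurableSet_Icc fun σ hσ => ?_
    · refine Integrable.add ?_ (integrable_const _)
      exact hfin2
    · rw [← e3]
      exact e2 σ hσ
  have e5 : ∫ σ in I, ((∫ τ in J, FF (τ - σ) * G τ) + a ^ 2 * (18 / D)) =
      (∫ σ in I, ∫ τ in J, FF (τ - σ) * G τ) + a ^ 2 * (18 / D) * (β - α) := by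
    rw [integral_add hfin2 (integrable_const _), integral_const, smul_eq_mul, Measure.real,
      Measure.restrict_apply_univ, hI, Real.volume_Icc, ENNReal.toReal_ofReal (by linarith)]
    ring
  have e6 : ∫ σ in I, ∫ τ in J, FF (τ - σ) * G τ ≤ ∫ τ in J, G τ := by
    rw [integral_integral_swap hfin]
    have iJ : IntegrableOn G J := by
      refine Measure.integrableOn_of_bounded (M := (W + a) ^ 2) ?_ hGm.aestronglyMeasurable
        (Eventually.of_forall fun τ => ?_)
      · rw [hJ, Real.volume_Icc]; exact ENNReal.ofReal_ne_top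
      · rw [Real.norm_eq_abs]; exact hGb τ
    refine setIntegral_mono_on hfin.integral_prod_right iJ measurableSet_Icc fun τ _ => ?_
    show ∫ σ in I, FF (τ - σ) * G τ ≤ G τ
    rw [integral_mul_const]
    have h1 : ∫ σ in I, FF (τ - σ) ≤ ∫ σ, FF (τ - σ) :=
      setIntegral_le_integral (ker_FF.int_shift τ) (Eventually.of_forall fun σ => FF_nonneg _)
    rw [ker_FF.int_shift_eq, FF_mass] at h1
    calc (∫ σ in I, FF (τ - σ)) * G τ ≤ 1 * G τ := mul_le_mul_of_nonneg_right h1 (hG0 τ)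
      _ = G τ := one_mul _
  have e7 : ∫ τ in J, G τ = ∫ τ in J, (XX Z u w a τ - a) ^ 2 := by
    refine setIntegral_congr_fun measurableSet_Icc fun τ hτ => ?_
    show G τ = _
    simp only [hG]
    rw [indicator_of_mem hτ]
  have e8 : ∫ σ in Icc α β, (Ys Z u w (bx a) σ - a) ^ 2 =
      ∫ σ in I, (Ys Z u w (bx a) (σ + a / 2) - a) ^ 2 := by
    rw [integral_Icc_eq_integral_Ioc, hI, integral_Icc_eq_integral_Ioc,
      ← intervalIntegral.integral_of_le hαβ, ← intervalIntegral.integral_of_le (by linarith),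
      intervalIntegral.integral_comp_add_right (fun σ => (Ys Z u w (bx a) σ - a) ^ 2)]
    congr 1 <;> ring
  rw [e8]
  linarith

/-- the sharp window is at most a larger smoothed window -/
theorem sharp_le (hw : ∀ i, 0 ≤ w i) {a m0 : ℝ} (ha : 0 ≤ a) (hm : 18 < m0) (τ : ℝ) :
    (1 - 18 / m0) * XX Z u w a τ ≤ Ys Z u w (bx (a + 2 * m0)) (τ + a / 2) := by
  unfold XX Ys
  rw [Finset.mul_sum]
  refine Finset.sum_le_sum fun i _ => ?_
  rw [mul_left_comm]
  refine mul_le_mul_of_nonneg_left ?_ (hw i)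
  have hb : 0 ≤ a + 2 * m0 := by linarith
  by_cases h : τ ∈ Ico (u i - a) (u i)
  · rw [indicator_of_mem h, mul_one]
    unfold bx
    rw [intervalIntegral.integral_of_le (by linarith), ← integral_Icc_eq_integral_Ioc]
    have h1 := ker_FF.mass (D := m0) (α := -(a / 2)) (β := a / 2) (u := -(u i - (τ + a / 2)))
      (by linarith) (by linarith [h.1]) (by linarith [h.2])
    have e1 : -(a / 2) - m0 = -((a + 2 * m0) / 2) := by ring
    have e2 : a / 2 + m0 = (a + 2 * m0) / 2 := by ring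
    rw [FF_mass, e1, e2] at h1
    have e3 : (2 : ℝ) * 9 / m0 = 18 / m0 := by norm_num
    rw [e3] at h1
    refine h1.trans (le_of_eq ?_)
    refine setIntegral_congr_fun measurableSet_Icc fun y _ => ?_
    show FF (-(u i - (τ + a / 2)) - y) = FF (u i - (τ + a / 2) + y)
    rw [← FF_even]
    congr 1
    ring
  · rw [indicator_of_notMem h, mul_zero]
    exact bx_nonneg hb _

/-- the integral of the sharp window -/
lemma XX_integral {α β a : ℝ} (ha : 0 ≤ a) (hu : ∀ i ∈ Z, α ≤ u i ∧ u i ≤ β) :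
    ∫ τ in Icc (α - a) β, XX Z u w a τ = a * ∑ i ∈ Z, w i := by
  unfold XX
  rw [integral_finsetSum, Finset.mul_sum]
  · refine Finset.sum_congr rfl fun i hi => ?_
    rw [integral_const_mul, integral_indicator measurableSet_Ico, Measure.restrict_restrict
      measurableSet_Ico]
    have h1 : Ico (u i - a) (u i) ∩ Icc (α - a) β = Ico (u i - a) (u i) := by
      apply inter_eq_left.2
      intro τ hτ
      exact ⟨by linarith [hτ.1, (hu i hi).1], by linarith [hτ.2, (hu i hi).2]⟩
    rw [h1, integral_const, smul_eq_mul, Measure.real, Measure.restrict_apply_univ,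
      Real.volume_Ico, ENNReal.toReal_ofReal (by linarith)]
    ring
  · intro i _
    refine Integrable.const_mul ?_ _
    exact (integrable_const (1 : ℝ)).indicator measurableSet_Ico

end Pool.Agent.Helper65.LR
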